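import Pool.Agent.Helper46.WC.Graph1
import Pool.Agent.Helper92.WC.Graph2

/-!
# Project WE, module Clus: connected clusters of at least `M` vertices

PROOF.  (1) `M < |ball C M v|`: if all inclusions `ball C i v ⊆ ball C (i+1) v`, `i < M`, are proper, clear.  Otherwise
`W = ball C i v` is closed under neighbours for some `i < M`; if `|W| > M` fine (balls increase).  If `|W| ≤ M ≤ l`: `2` times the
number of pairs of `C` inside `W` is `Σ_(x ∈ W) dg C x ≥ 2 |W|`, against `Sp l C`.  (2) `Z` = a maximal set of vertices with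
pairwise disjoint balls `ball C M z`.  Every `v` lies in `ball C (2 M) z` for some `z ∈ Z` (the balls are symmetric).  Level of
`v`: the least `i` with `v ∈ ball C i z`, `z ∈ Z`.  `f v = z` for `v = z` (level `0`), `f v = f u` for a neighbour `u` of
smaller level (exists by the definition of the ball) otherwise.  `f v = z` implies `v ∈ ball C (level v) z`, so
`cl f z ⊆ ball C (2 M) z`; if `v ∈ ball C M z` then its level is `≤ M` and `f v = z'` with `v ∈ ball C M z'`, so `z' = z`:
`ball C M z ⊆ cl f z`.  Connected: every `v` in `cl f z` is joined to `z` by the path `v, u, ...` inside `cl f z` (for `Conn` see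
`Helper63/WC/Clusters.lean`: a cut `S`: choose `v` of smallest level in the part which does not contain `z`).
-/

set_option autoImplicit false

namespace Pool.Agent.Helper72.WE

open Finset Pool.Agent.Helper72.WC

variable {n : ℕ}

theorem we_Clus_nb {C : Finset (Sym2 (Fin n))} {x y : Fin n} : y ∈ nb C x ↔ s(x, y) ∈ C := by
  simp [nb]

theorem we_Clus_mono (C : Finset (Sym2 (Fin n))) (x : Fin n) {i j : ℕ} (h : i ≤ j) :
    ball C i x ⊆ ball C j x := by
  induction j, h using Nat.le_induction with
  | base => exact Finset.Subset.refl _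
  | succ j _ ih => exact ih.trans Finset.subset_union_left

theorem we_Clus_succ {C : Finset (Sym2 (Fin n))} {x u y : Fin n} {i : ℕ} (hu : u ∈ ball C i x)
    (h : s(u, y) ∈ C) : y ∈ ball C (i + 1) x :=
  Finset.mem_union_right _ (Finset.mem_biUnion.2 ⟨u, hu, we_Clus_nb.2 h⟩)

theorem we_Clus_trans {C : Finset (Sym2 (Fin n))} {x y : Fin n} {i : ℕ} (hy : y ∈ ball C i x)
    (j : ℕ) : ∀ z ∈ ball C j y, z ∈ ball C (i + j) x := by
  induction j with
  | zero =>
    intro z hz
    have h1 : z = y := by simpa [ball] using hz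
    rw [h1]
    exact hy
  | succ j ih =>
    intro z hz
    rcases Finset.mem_union.1 hz with h | h
    · exact we_Clus_mono C x (by omega) (ih z h)
    · obtain ⟨u, hu, hzu⟩ := Finset.mem_biUnion.1 h
      exact we_Clus_succ (ih u hu) (we_Clus_nb.1 hzu)

theorem we_Clus_self (C : Finset (Sym2 (Fin n))) (x : Fin n) (i : ℕ) : x ∈ ball C i x :=
  we_Clus_mono C x (Nat.zero_le i) (by simp [ball])

theorem we_Clus_symm {C : Finset (Sym2 (Fin n))} {x : Fin n} (i : ℕ) :
    ∀ y ∈ ball C i x, x ∈ ball C i y := by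
  induction i with
  | zero =>
    intro y hy
    have h1 : y = x := by simpa [ball] using hy
    rw [h1]
    simp [ball]
  | succ i ih =>
    intro y hy
    rcases Finset.mem_union.1 hy with h | h
    · exact we_Clus_mono C y (by omega) (ih y h)
    · obtain ⟨u, hu, hyu⟩ := Finset.mem_biUnion.1 h
      have h1 : s(y, u) ∈ C := by
        rw [Sym2.eq_swap]
        exact we_Clus_nb.1 hyu
      have h2 : u ∈ ball C 1 y := we_Clus_succ (i := 0) (by simp [ball]) h1
      have h3 := we_Clus_trans h2 i x (ih u hu)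
      rw [add_comm] at h3
      exact h3

/-- a nonempty set closed under neighbours is large -/
theorem we_Clus_closed {C : Finset (Sym2 (Fin n))} {l : ℕ} (hsp : Sp l C)
    (hlo : ∀ x, 2 ≤ dg C x) {W : Finset (Fin n)} (hW : W.Nonempty)
    (hcl : ∀ x ∈ W, nb C x ⊆ W) : l < W.card := by
  by_contra hcon
  rw [not_lt] at hcon
  have h1 := hsp W hW hcon
  have h2 : (W.sigma fun x => nb C x).card ≤ 2 * (C.filter fun e => e ∈ W.sym2).card := by
    refine Finset.card_le_mul_card_image_of_maps_to (f := fun p : (_ : Fin n) × Fin n => s(p.1, p.2))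
      (fun p hp => ?_) 2 (fun e _ => ?_)
    · rw [Finset.mem_sigma] at hp
      rw [Finset.mem_filter, Finset.mk_mem_sym2_iff]
      exact ⟨we_Clus_nb.1 hp.2, hp.1, hcl _ hp.1 hp.2⟩
    · induction e using Sym2.ind with
      | _ a b =>
        have h3 : ((W.sigma fun x => nb C x).filter fun p => s(p.1, p.2) = s(a, b)) ⊆
            {⟨a, b⟩, ⟨b, a⟩} := by
          rintro ⟨x, y⟩ hp
          rw [Finset.mem_filter] at hp
          have h4 := hp.2
          simp only [Sym2.eq_iff] at h4
          rw [Finset.mem_insert, Finset.mem_singleton]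
          rcases h4 with ⟨rfl, rfl⟩ | ⟨rfl, rfl⟩
          · exact Or.inl rfl
          · exact Or.inr rfl
        exact (Finset.card_le_card h3).trans Finset.card_le_two
  rw [Finset.card_sigma] at h2
  have h3 : ∑ _x ∈ W, 2 ≤ ∑ x ∈ W, (nb C x).card := Finset.sum_le_sum fun x _ => hlo x
  rw [Finset.sum_const, smul_eq_mul] at h3
  omega

theorem ball_large {C : Finset (Sym2 (Fin n))} {M l : ℕ} (hC : C ⊆ board n) (hM : M ≤ l)
    (hsp : Sp l C) (hlo : ∀ x, 2 ≤ dg C x) (v : Fin n) : M < (ball C M v).card := by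
  have key : ∀ i ≤ M, i < (ball C i v).card := by
    intro i
    induction i with
    | zero => intro _; simp [ball]
    | succ i ih =>
      intro hi
      have h1 := ih (by omega)
      by_cases heq : ball C i v = ball C (i + 1) v
      · have h2 := we_Clus_closed hsp hlo (W := ball C i v) ⟨v, we_Clus_self C v i⟩ (by
          intro x hx y hy
          rw [heq]
          exact we_Clus_succ hx (we_Clus_nb.1 hy))
        rw [← heq]
        omega
      · have h2 : ball C i v ⊂ ball C (i + 1) v :=
          Finset.ssubset_iff_subset_ne.2 ⟨we_Clus_mono C v (by omega), heq⟩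
        have h3 := Finset.card_lt_card h2
        omega
  exact key M le_rfl

/-- a maximal set of vertices with disjoint balls -/
theorem we_Clus_max (C : Finset (Sym2 (Fin n))) (M : ℕ) :
    ∃ Z : Finset (Fin n), (∀ z ∈ Z, ∀ z' ∈ Z, z ≠ z' → Disjoint (ball C M z) (ball C M z')) ∧
      ∀ v, ∃ z ∈ Z, v ∈ ball C (2 * M) z := by
  classical
  let P : Finset (Finset (Fin n)) := univ.filter fun Z =>
    ∀ z ∈ Z, ∀ z' ∈ Z, z ≠ z' → Disjoint (ball C M z) (ball C M z')
  have hP : P.Nonempty := ⟨∅, by simp [P]⟩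
  obtain ⟨Z, hZ, hmax⟩ := Finset.exists_max_image P Finset.card hP
  have hZ' : ∀ z ∈ Z, ∀ z' ∈ Z, z ≠ z' → Disjoint (ball C M z) (ball C M z') := by
    simpa [P] using hZ
  refine ⟨Z, hZ', fun v => ?_⟩
  by_contra hcon
  push Not at hcon
  have hdis : ∀ z ∈ Z, Disjoint (ball C M v) (ball C M z) := by
    intro z hz
    rw [Finset.disjoint_left]
    intro u hu hu'
    apply hcon z hz
    have h1 := we_Clus_trans hu' M v (we_Clus_symm M u hu)
    rw [← two_mul] at h1
    exact h1
  have hv : v ∉ Z := fun hv =>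
    Finset.disjoint_left.1 (hdis v hv) (we_Clus_self C v M) (we_Clus_self C v M)
  have h2 : insert v Z ∈ P := by
    simp only [P, mem_filter, mem_univ, true_and]
    intro z hz z' hz' hne
    rw [mem_insert] at hz hz'
    rcases hz with rfl | hz <;> rcases hz' with rfl | hz'
    · exact absurd rfl hne
    · exact hdis z' hz'
    · exact (hdis z hz).symm
    · exact hZ' z hz z' hz' hne
  have h3 := hmax _ h2
  rw [card_insert_of_notMem hv] at h3
  omega

theorem clustersM {C : Finset (Sym2 (Fin n))} {M l Δ : ℕ} (hC : C ⊆ board n) (hM : M ≤ l)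
    (hsp : Sp l C) (hlo : ∀ x, 2 ≤ dg C x) (hup : ∀ x, dg C x ≤ Δ) :
    ∃ f : Fin n → Fin n, (∀ v, f (f v) = f v) ∧ (∀ v, Conn C (cl f (f v))) ∧
      (∀ v, M ≤ (cl f (f v)).card) ∧ ∀ v, (cl f (f v)).card ≤ (Δ + 1) ^ (2 * M) := by
  classical
  obtain ⟨Z, hZ, hcov⟩ := we_Clus_max C M
  have hex : ∀ v, ∃ i, ∃ z ∈ Z, v ∈ ball C i z := fun v => ⟨2 * M, hcov v⟩
  let lev : Fin n → ℕ := fun v => Nat.find (hex v)
  have hlev1 : ∀ v, ∃ z ∈ Z, v ∈ ball C (lev v) z := fun v => Nat.find_spec (hex v)
  have hlev2 : ∀ v i z, z ∈ Z → v ∈ ball C i z → lev v ≤ i := fun v i z hz h =>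
    Nat.find_min' (hex v) ⟨z, hz, h⟩
  have hlevM : ∀ v, lev v ≤ 2 * M := by
    intro v
    obtain ⟨z, hz, h⟩ := hcov v
    exact hlev2 v _ z hz h
  have hlev0 : ∀ v ∈ Z, lev v = 0 := by
    intro v hv
    have := hlev2 v 0 v hv (by simp [ball])
    omega
  have hpar : ∀ v, ∃ u, (v ∈ Z → u = v) ∧ (v ∉ Z → s(u, v) ∈ C ∧ lev u < lev v) := by
    intro v
    by_cases hv : v ∈ Z
    · exact ⟨v, fun _ => rfl, fun h => absurd hv h⟩
    · obtain ⟨z, hz, h⟩ := hlev1 v
      rcases hi : lev v with _ | i
      · rw [hi] at h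
        have h1 : v = z := by simpa [ball] using h
        rw [h1] at hv
        exact absurd hz hv
      · rw [hi] at h
        rcases Finset.mem_union.1 h with h1 | h1
        · have := hlev2 v i z hz h1
          omega
        · obtain ⟨u, hu, hvu⟩ := Finset.mem_biUnion.1 h1
          refine ⟨u, fun h2 => absurd h2 hv, fun _ => ⟨we_Clus_nb.1 hvu, ?_⟩⟩
          have := hlev2 u i z hz hu
          omega
  choose p hp1 hp2 using hpar
  let f : Fin n → Fin n := fun v => p^[2 * M] v
  have hfix : ∀ z ∈ Z, ∀ m, p^[m] z = z := by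
    intro z hz m
    exact Function.iterate_fixed (hp1 z hz) m
  have hin : ∀ m v, lev v ≤ m → p^[m] v ∈ Z := by
    intro m
    induction m with
    | zero =>
      intro v hv
      by_contra hcon
      have := (hp2 v hcon).2
      omega
    | succ m ih =>
      intro v hv
      rw [Function.iterate_succ_apply]
      by_cases hvZ : v ∈ Z
      · rw [hp1 v hvZ]
        exact ih v (by rw [hlev0 v hvZ]; exact Nat.zero_le _)
      · have := (hp2 v hvZ).2
        exact ih (p v) (by omega)
  have hfZ : ∀ v, f v ∈ Z := fun v => hin _ v (hlevM v)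
  have hff : ∀ z ∈ Z, f z = z := fun z hz => hfix z hz _
  have hfp : ∀ v, f (p v) = f v := by
    intro v
    change p^[2 * M] (p v) = p^[2 * M] v
    rw [← Function.iterate_succ_apply, Function.iterate_succ_apply']
    exact hp1 _ (hfZ v)
  have hball : ∀ m v, lev v ≤ m → v ∈ ball C (lev v) (f v) := by
    intro m
    induction m with
    | zero =>
      intro v hv
      have hvZ : v ∈ Z := by
        by_contra hcon
        have := (hp2 v hcon).2
        omega
      rw [hff v hvZ]
      exact we_Clus_self C v _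
    | succ m ih =>
      intro v hv
      by_cases hvZ : v ∈ Z
      · rw [hff v hvZ]
        exact we_Clus_self C v _
      · obtain ⟨h1, h2⟩ := hp2 v hvZ
        have h3 := ih (p v) (by omega)
        rw [hfp] at h3
        exact we_Clus_mono C _ (by omega) (we_Clus_succ h3 h1)
  have hball' : ∀ v, v ∈ ball C (lev v) (f v) := fun v => hball _ v le_rfl
  have hsub : ∀ z ∈ Z, ball C M z ⊆ cl f z := by
    intro z hz v hv
    simp only [cl, mem_filter, mem_univ, true_and]
    have h1 : lev v ≤ M := hlev2 v M z hz hv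
    have h2 := we_Clus_mono C (f v) h1 (hball' v)
    by_contra hne
    exact Finset.disjoint_left.1 (hZ _ (hfZ v) _ hz hne) h2 hv
  have hmem : ∀ z v, v ∈ cl f z ↔ f v = z := fun z v => by simp [cl]
  refine ⟨f, fun v => hff _ (hfZ v), fun v => ?_, fun v => ?_, fun v => ?_⟩
  · have hz := hfZ v
    generalize f v = z at hz
    have hzX : z ∈ cl f z := (hmem z z).2 (hff z hz)
    refine ⟨⟨z, hzX⟩, fun S hS hSne hXS => ?_⟩
    have hstep : ∀ x ∈ cl f z, x ≠ z → p x ∈ cl f z ∧ s(p x, x) ∈ C ∧ lev (p x) < lev x := by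
      intro x hx hxz
      have hxZ : x ∉ Z := by
        intro h
        have h1 := (hmem z x).1 hx
        rw [hff x h] at h1
        exact hxz h1
      obtain ⟨h1, h2⟩ := hp2 x hxZ
      exact ⟨(hmem z _).2 ((hfp x).trans ((hmem z x).1 hx)), h1, h2⟩
    by_cases hzS : z ∈ S
    · obtain ⟨x, hx, hmin⟩ := Finset.exists_min_image (cl f z \ S) lev hXS
      rw [mem_sdiff] at hx
      have hxz : x ≠ z := by
        rintro rfl
        exact hx.2 hzS
      obtain ⟨h1, h2, h3⟩ := hstep x hx.1 hxz
      have h4 : p x ∈ S := by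
        by_contra h5
        have h6 := hmin _ (mem_sdiff.2 ⟨h1, h5⟩)
        omega
      exact ⟨p x, h4, x, mem_sdiff.2 hx, h2⟩
    · obtain ⟨x, hx, hmin⟩ := Finset.exists_min_image S lev hSne
      have hxz : x ≠ z := by
        rintro rfl
        exact hzS hx
      obtain ⟨h1, h2, h3⟩ := hstep x (hS hx) hxz
      have h4 : p x ∉ S := by
        intro h5
        have h6 := hmin _ h5
        omega
      refine ⟨x, hx, p x, mem_sdiff.2 ⟨h1, h4⟩, ?_⟩
      rw [Sym2.eq_swap]
      exact h2
  · exact (ball_large hC hM hsp hlo (f v)).le.trans (card_le_card (hsub _ (hfZ v)))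
  · refine le_trans (card_le_card ?_) (ball_card hup (2 * M) (f v))
    intro x hx
    have h1 := (hmem _ _).1 hx
    have h2 := we_Clus_mono C (f x) (hlevM x) (hball' x)
    rw [h1] at h2
    exact h2

end Pool.Agent.Helper72.WE
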