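import Pool.Agent.Helper72.WE.GQ

/-!
# Project WE, module Num: the numerical condition, `c = 7 k / 4`

`Good k c`: with `t = c / 5`, `τ = 4 c / 5`: for every `σ ∈ [0, 1]` some `m ≤ k` has
`(k - m) σ + G m < τ σ (1 - σ/2)` with room `θ`.
CHOICES (numbers for `θ = 0`; everything has room, take `θ = 1/200` or smaller, `b0` large is not needed).
`k = 2`: `t = 0.7`, `τ = 2.8`: `m = 0` for `σ ≤ 0.57`; `m = 1` (`G 1 ≤ e^(-t) ≤ 0.4966`) for `0.57 ≤ σ ≤ 0.87`; `m = 2`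
(`G 2 ≤ e^(-t) (2 + t) ≤ 1.3409`) for `σ ≥ 0.8`.  `k = 3`: `t = 1.05`, `τ = 4.2`: `m = 0` for `σ ≤ 0.57`, `m = 1`
(`e^(-t) ≤ 0.35`) for `0.57 ≤ σ ≤ 0.85`, `m = 3` (`G 3 ≤ e^(-t) (3 + 2 t + t²/2) ≤ 1.978`) for `σ ≥ 0.76`.  `k = 4`: `t = 1.4`,
`τ = 5.6`: `m = 0` for `σ ≤ 0.57`, `m = 1` (`≤ 0.2467`) for `0.57 ≤ σ ≤ 0.82`, `m = 4`
(`G 4 ≤ e^(-t) (4 + 3 t + t² + t³/6) ≤ 2.62`) for `σ ≥ 0.75`.  `k ≥ 5`: `t = 0.35 k`, `τ = 1.4 k`: `m = 0` for `σ ≤ 0.57`;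
`m = ⌈0.35 k⌉` with `G_quad`, `A = √((m - t)² + t)` (`G m ≤ ((m - t) + A) / 2`) or a simpler `A` for `0.57 ≤ σ ≤ 0.84`;
`m = k` with `G_quad`, `A = k - t`: `G k ≤ (k - t) + t / (4 (k - t)) = 0.65 k + 0.135` for `σ ≥ 0.83`.
(`G_le_F` and `G_anti` for `k = 2, 3, 4`: `F m` is decreasing, use `a / b ≥ t - θ`.)
-/

set_option autoImplicit false

namespace Pool.Agent.Helper72.WE

/-- The numerical condition. -/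
def Good (k : ℕ) (c : ℝ) : Prop :=
  ∃ θ : ℝ, 0 < θ ∧ ∃ b0 : ℕ, ∀ b ≥ b0, ∀ a : ℕ, (c / 5 - θ) * b ≤ a →
    ∀ σ : ℝ, 0 ≤ σ → σ ≤ 1 → ∃ m : ℕ, m ≤ k ∧
      ((k : ℝ) - m) * σ + (if m = 0 then 0 else θ) + G b a m ≤ (4 / 5 * c - θ) * σ * (1 - σ / 2)

end Pool.Agent.Helper72.WE
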