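import Mathlib

/-!
# Project WE, module Spread

PROOF.  Take `B ⊆ E` with `|B| ≤ b` and all degrees `≤ w`, of the largest size.  If `|B| < b`, every `e ∈ E \ B`
contains a vertex of degree `w` in `B`; there are at most `2 |B| / w` such vertices (`f w ≤ 2 |B| < 2 b`), each in
at most `n` pairs, so `w |E| ≤ w (b - 1) + f w n < w b + 2 b n`, a contradiction.
-/

set_option autoImplicit false

namespace Pool.Agent.Helper72.WE

open Finset

theorem we_Spread_two {n : ℕ} (e : Sym2 (Fin n)) :
    ((univ : Finset (Fin n)).filter fun v => v ∈ e).card ≤ 2 := by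
  induction e using Sym2.ind with
  | _ a b =>
    refine (Finset.card_le_card (t := {a, b}) ?_).trans Finset.card_le_two
    intro v hv
    rw [Finset.mem_filter, Sym2.mem_iff] at hv
    rw [Finset.mem_insert, Finset.mem_singleton]
    exact hv.2

theorem we_Spread_star {n : ℕ} (E : Finset (Sym2 (Fin n))) (v : Fin n) :
    (E.filter fun e => v ∈ e).card ≤ n := by
  have h : (E.filter fun e => v ∈ e) ⊆ (univ : Finset (Fin n)).image fun u => s(v, u) := by
    intro e he
    rw [Finset.mem_filter] at he
    obtain ⟨u, hu⟩ := Sym2.mem_iff_exists.1 he.2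
    rw [Finset.mem_image]
    exact ⟨u, Finset.mem_univ u, hu.symm⟩
  refine (Finset.card_le_card h).trans (Finset.card_image_le.trans ?_)
  rw [Finset.card_univ, Fintype.card_fin]

theorem we_Spread_sum {n : ℕ} (B : Finset (Sym2 (Fin n))) :
    ∑ v : Fin n, (B.filter fun e => v ∈ e).card ≤ 2 * B.card := by
  have h : ∑ v : Fin n, (B.filter fun e => v ∈ e).card =
      ∑ e ∈ B, ((univ : Finset (Fin n)).filter fun v => v ∈ e).card := by
    simp only [Finset.card_filter]
    rw [Finset.sum_comm]
  rw [h, mul_comm]
  exact Finset.sum_le_card_nsmul B _ 2 (fun e _ => we_Spread_two e)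

theorem spread {n b w : ℕ} (hw : 0 < w) {E : Finset (Sym2 (Fin n))}
    (hE : ∀ e ∈ E, ¬ e.IsDiag) (h : w * b + 2 * b * n ≤ w * E.card) :
    ∃ B ⊆ E, B.card = b ∧ ∀ v, (B.filter fun e => v ∈ e).card ≤ w := by
  have key : ∀ c : ℕ, c ≤ b → ∃ B ⊆ E, B.card = c ∧ ∀ v, (B.filter fun e => v ∈ e).card ≤ w := by
    intro c
    induction c with
    | zero =>
      intro _
      exact ⟨∅, Finset.empty_subset _, rfl, fun v => by simp⟩
    | succ c ih =>
      intro hc
      obtain ⟨B, hBE, hBc, hBd⟩ := ih (by omega)
      by_cases hex : ∃ e ∈ E, e ∉ B ∧ ∀ v ∈ e, (B.filter fun e => v ∈ e).card < w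
      · obtain ⟨e, heE, heB, hev⟩ := hex
        refine ⟨insert e B, Finset.insert_subset heE hBE, ?_, ?_⟩
        · rw [Finset.card_insert_of_notMem heB, hBc]
        · intro v
          rw [Finset.filter_insert]
          split_ifs with hv
          · exact (Finset.card_insert_le _ _).trans (hev v hv)
          · exact hBd v
      · exfalso
        push Not at hex
        obtain ⟨F, hF⟩ : ∃ F : Finset (Fin n), F = (univ : Finset (Fin n)).filter
          fun v => w ≤ (B.filter fun e => v ∈ e).card := ⟨_, rfl⟩
        have h1 : F.card * w ≤ 2 * c := by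
          have h2 : F.card * w ≤ ∑ v ∈ F, (B.filter fun e => v ∈ e).card := by
            rw [← smul_eq_mul]
            refine Finset.card_nsmul_le_sum F _ w (fun v hv => ?_)
            rw [hF, Finset.mem_filter] at hv
            exact hv.2
          have h3 : ∑ v ∈ F, (B.filter fun e => v ∈ e).card ≤
              ∑ v : Fin n, (B.filter fun e => v ∈ e).card :=
            Finset.sum_le_sum_of_subset (Finset.subset_univ F)
          have h4 := we_Spread_sum B
          rw [hBc] at h4
          omega
        have h5 : E ⊆ B ∪ F.biUnion fun v => E.filter fun e => v ∈ e := by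
          intro e he
          rw [Finset.mem_union, Finset.mem_biUnion]
          by_cases heB : e ∈ B
          · exact Or.inl heB
          · obtain ⟨v, hv, hvw⟩ := hex e he heB
            refine Or.inr ⟨v, ?_, ?_⟩
            · rw [hF, Finset.mem_filter]
              exact ⟨Finset.mem_univ v, hvw⟩
            · rw [Finset.mem_filter]
              exact ⟨he, hv⟩
        have h6 : E.card ≤ c + F.card * n := by
          refine (Finset.card_le_card h5).trans ((Finset.card_union_le _ _).trans ?_)
          rw [hBc]
          refine Nat.add_le_add_left ?_ c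
          exact Finset.card_biUnion_le_card_mul F _ n (fun v _ => we_Spread_star E v)
        have h7 : w * E.card ≤ w * c + (F.card * w) * n := by
          calc w * E.card ≤ w * (c + F.card * n) := Nat.mul_le_mul_left w h6
            _ = w * c + (F.card * w) * n := by ring
        have h8 : (F.card * w) * n ≤ 2 * c * n := Nat.mul_le_mul_right n h1
        have h9 : w * (c + 1) ≤ w * b := Nat.mul_le_mul_left w hc
        have h10 : 2 * c * n ≤ 2 * b * n :=
          Nat.mul_le_mul_right n (Nat.mul_le_mul_left 2 (by omega))
        have h11 : w * (c + 1) = w * c + w := by ring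
        omega
  exact key b le_rfl

end Pool.Agent.Helper72.WE
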