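import Pool.Agent.Helper72.WE.Live
import Pool.Agent.Helper72.WE.Spread

/-!
# Project WE, module PhaseA

PROOF.  `w = ⌈η b⌉` (a positive natural number, `w ≤ 2 η b` for `b ≥ 1/η`), `η = ε / (64 κ)`.  Type of `v` in a
position: `(min (dg C v) k, dgs (Lv ..) v / w)`; the number of types is at most `T = (k+1) (n / w + 1) ≤
(k+1) (κ/η + 1)`, a constant.  Loop (`Force.loop`, `n ^ 2` steps, `InvA` and (`|C| = i` or `T² w |Lv| ≤
T² (w b + 2 b n) ...`): if `|Lv| > T² (b + 2 b n / w)`, by pigeonhole (every pair of `Lv` has an (ordered) pair of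
types) some pair of types `(r1, A1/w), (r2, A2/w)` has a set `E` of more than `b + 2 b n / w` pairs of `Lv`;
`spread` gives `B ⊆ E`, offer `B`, `stepA`.  Each round adds one pair to `C` and `b |C| ≤ |H| ≤ n²`, so the loop
stops with `|Lv| ≤ T² (b + 2 b n / w) ≤ T² (1 + 2 κ / η) b`.  Then (`G_lower`) `Σ (m - dg C v) ≤ Σ G (dgs Lv v) (m - dg C v) +
2 |Lv| / b ≤ Σ G (dgs H v) m + 8 (w/b) |C| + (2/b) |(H ∩ U) \ Lv| + 2 T² (1 + 2 κ/η)`.
`8 (w/b) |C| ≤ 16 η n² / b ≤ 16 η κ n ≤ ε n / 4`.  Dead pairs: `(H ∩ U) \ Lv` consists of pairs with a vertex of degree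
`≥ Δ` (at most `2 |C| / Δ ≤ 2 n² / (b Δ)` vertices, `n` pairs each) and pairs `s(x, y)` with `y ∈ ball C l x`
(at most `n (Δ+1)^l`): `(2/b)` times this is `≤ 4 n³ / (b² Δ) + 2 κ (Δ+1)^l ≤ (4 κ²/Δ) n + const ≤ ε n / 2` for `Δ ≥ Δ0`,
`n ≥ n0`.  `b |C| + |U| = |board n|` from `hcnt`, `hH`, `H ⊆ board n`.
-/

set_option autoImplicit false

namespace Pool.Agent.Helper72.WE

open Finset Pool.Agent.Helper72.WC

variable {n : ℕ}

theorem we_PhaseA_hand (E : Finset (Sym2 (Fin n))) : ∑ v, dgs E v ≤ 2 * E.card := by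
  classical
  have h1 : ∑ v, dgs E v = ∑ e ∈ E, (univ.filter fun v => v ∈ e).card := by
    simp only [dgs, card_filter]
    rw [sum_comm]
  rw [h1, mul_comm, ← smul_eq_mul, ← sum_const]
  refine sum_le_sum fun e _ => ?_
  induction e with
  | h x y =>
    have h2 : (univ.filter fun v => v ∈ s(x, y)) ⊆ {x, y} := by
      intro v hv
      rw [mem_filter, Sym2.mem_iff] at hv
      rw [mem_insert, mem_singleton]
      exact hv.2
    exact (card_le_card h2).trans card_le_two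

theorem we_PhaseA_le (E : Finset (Sym2 (Fin n))) (v : Fin n) : dgs E v ≤ n := by
  classical
  have h1 : (E.filter fun e => v ∈ e) ⊆ univ.image fun u : Fin n => s(v, u) := by
    intro e he
    obtain ⟨u, hu⟩ := Sym2.mem_iff_exists.1 (mem_filter.1 he).2
    exact mem_image.2 ⟨u, mem_univ _, hu.symm⟩
  have h2 := (card_le_card h1).trans card_image_le
  rw [card_univ, Fintype.card_fin] at h2
  exact h2

theorem we_PhaseA_dg (C : Finset (Sym2 (Fin n))) (x : Fin n) : dg C x ≤ dgs C x := by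
  classical
  refine card_le_card_of_injOn (fun y => s(x, y)) (fun y hy => ?_) (fun y _ z _ h => ?_)
  · rw [nb, mem_coe, mem_filter] at hy
    rw [mem_coe, mem_filter]
    exact ⟨hy.2, Sym2.mem_mk_left x y⟩
  · exact Sym2.congr_right.1 h

theorem we_PhaseA_board : 2 * (board n).card ≤ n * n := by
  have h1 : (board n).card = n.choose 2 := by
    have h2 := Sym2.card_subtype_not_diag (α := Fin n)
    rw [Fintype.card_fin, Fintype.card_subtype] at h2
    rw [← h2, board]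
  rw [h1, Nat.choose_two_right]
  have h2 := Nat.div_mul_le_self (n * (n - 1)) 2
  have h3 : n * (n - 1) ≤ n * n := Nat.mul_le_mul_left _ (Nat.sub_le _ _)
  omega

/-- Pigeonhole: many live pairs contain a spread set of `b` pairs of one type. -/
theorem pick_type {k Δ l b w T : ℕ} {H U C : Finset (Sym2 (Fin n))} (hH : H ⊆ board n)
    (hw : 0 < w) (hT : (k + 1) * (n / w + 1) ≤ T)
    (h : T ^ 2 * (w * b + 2 * b * n) < w * (Lv H Δ l U C).card) :
    ∃ B ⊆ Lv H Δ l U C, B.card = b ∧ (∀ v, dgs B v ≤ w) ∧ ∃ r1 r2 A1 A2 : ℕ,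
      ∀ e ∈ B, ∃ x y, e = s(x, y) ∧
      (min (dg C x) k = r1 ∧ A1 ≤ dgs (Lv H Δ l U C) x ∧ dgs (Lv H Δ l U C) x ≤ A1 + w) ∧
      (min (dg C y) k = r2 ∧ A2 ≤ dgs (Lv H Δ l U C) y ∧ dgs (Lv H Δ l U C) y ≤ A2 + w) := by
  classical
  obtain ⟨L, hL⟩ : ∃ L, L = Lv H Δ l U C := ⟨_, rfl⟩
  rw [← hL] at h ⊢
  have hLb : L ⊆ board n := by
    rw [hL, Lv]
    exact (filter_subset _ _).trans (inter_subset_left.trans hH)
  have hXY : ∀ e : Sym2 (Fin n), ∃ p : Fin n × Fin n, e = s(p.1, p.2) := fun e => by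
    induction e with
    | h x y => exact ⟨(x, y), rfl⟩
  choose P hP using hXY
  obtain ⟨τ, hτ⟩ : ∃ τ : Fin n → ℕ × ℕ, ∀ v, τ v = (min (dg C v) k, dgs L v / w) :=
    ⟨_, fun v => rfl⟩
  obtain ⟨S, hS⟩ : ∃ S : Finset (ℕ × ℕ), S = range (k + 1) ×ˢ range (n / w + 1) := ⟨_, rfl⟩
  have hτS : ∀ v, τ v ∈ S := by
    intro v
    rw [hτ, hS, mem_product, mem_range, mem_range]
    exact ⟨Nat.lt_succ_of_le (min_le_right _ _),
      Nat.lt_succ_of_le (Nat.div_le_div_right (we_PhaseA_le L v))⟩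
  obtain ⟨φ, hφ⟩ : ∃ φ : Sym2 (Fin n) → (ℕ × ℕ) × (ℕ × ℕ),
      ∀ e, φ e = (τ (P e).1, τ (P e).2) := ⟨_, fun e => rfl⟩
  have hφS : ∀ e ∈ L, φ e ∈ S ×ˢ S := fun e _ => by
    rw [hφ]
    exact mem_product.2 ⟨hτS _, hτS _⟩
  have hSc : (S ×ˢ S).card ≤ T ^ 2 := by
    rw [card_product, hS, card_product, card_range, card_range, sq]
    exact Nat.mul_le_mul hT hT
  obtain ⟨t, ht⟩ : ∃ t, w * b + 2 * b * n ≤ w * (L.filter fun e => φ e = t).card := by
    by_contra hcon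
    push Not at hcon
    have h1 : w * L.card ≤ (S ×ˢ S).card * (w * b + 2 * b * n) := by
      rw [card_eq_sum_card_fiberwise hφS, mul_sum, ← smul_eq_mul, ← sum_const]
      exact sum_le_sum fun t _ => (hcon t).le
    exact absurd (h1.trans (Nat.mul_le_mul_right _ hSc)) (not_le.2 h)
  obtain ⟨B, hB, hBc, hBw⟩ := spread hw (E := L.filter fun e => φ e = t)
    (fun e he => (mem_filter.1 (hLb (mem_filter.1 he).1)).2) ht
  have hlt : ∀ a : ℕ, a ≤ w * (a / w) + w := fun a => by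
    have h1 := Nat.lt_mul_div_succ a hw
    rw [Nat.mul_add, Nat.mul_one] at h1
    exact h1.le
  refine ⟨B, hB.trans (filter_subset _ _), hBc, hBw, t.1.1, t.2.1, w * t.1.2, w * t.2.2,
    fun e he => ⟨(P e).1, (P e).2, hP e, ?_, ?_⟩⟩
  · have h1 := (mem_filter.1 (hB he)).2
    rw [hφ] at h1
    have h2 : τ (P e).1 = t.1 := congrArg Prod.fst h1
    rw [hτ] at h2
    have h3 : min (dg C (P e).1) k = t.1.1 := congrArg Prod.fst h2
    have h4 : dgs L (P e).1 / w = t.1.2 := congrArg Prod.snd h2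
    refine ⟨h3, ?_, ?_⟩
    · rw [← h4]
      exact Nat.mul_div_le _ _
    · rw [← h4]
      exact hlt _
  · have h1 := (mem_filter.1 (hB he)).2
    rw [hφ] at h1
    have h2 : τ (P e).2 = t.2 := congrArg Prod.snd h1
    rw [hτ] at h2
    have h3 : min (dg C (P e).2) k = t.2.1 := congrArg Prod.fst h2
    have h4 : dgs L (P e).2 / w = t.2.2 := congrArg Prod.snd h2
    refine ⟨h3, ?_, ?_⟩
    · rw [← h4]
      exact Nat.mul_div_le _ _
    · rw [← h4]
      exact hlt _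

/-- The dead pairs. -/
theorem dead_card {Δ l b : ℕ} {H U C : Finset (Sym2 (Fin n))} (hC : C ⊆ board n)
    (hdeg : ∀ x, dg C x ≤ Δ) (hcnt : b * C.card ≤ (board n).card) :
    b * Δ * ((H ∩ U) \ Lv H Δ l U C).card ≤ n ^ 3 + b * Δ * (n * (Δ + 1) ^ l) := by
  classical
  obtain ⟨S, hSd⟩ : ∃ S : Finset (Fin n), S = univ.filter fun x : Fin n => Δ ≤ dg C x := ⟨_, rfl⟩
  obtain ⟨D1, hD1d⟩ : ∃ D1 : Finset (Sym2 (Fin n)),
      D1 = (S ×ˢ (univ : Finset (Fin n))).image fun p => s(p.1, p.2) := ⟨_, rfl⟩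
  obtain ⟨D2, hD2d⟩ : ∃ D2 : Finset (Sym2 (Fin n)),
      D2 = univ.biUnion fun x : Fin n => (ball C l x).image fun y => s(x, y) := ⟨_, rfl⟩
  have hD : (H ∩ U) \ Lv H Δ l U C ⊆ D1 ∪ D2 := by
    intro e he
    rw [mem_sdiff] at he
    obtain ⟨h1, h2⟩ := he
    rw [Lv, mem_filter, not_and] at h2
    have h3 := h2 h1
    push Not at h3
    obtain ⟨x, y, rfl, h4⟩ := h3
    by_cases h5 : dg C x < Δ
    · refine mem_union_right _ ?_
      rw [hD2d, mem_biUnion]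
      exact ⟨x, mem_univ _, mem_image.2 ⟨y, h4 h5, rfl⟩⟩
    · refine mem_union_left _ ?_
      rw [hD1d, mem_image]
      refine ⟨(x, y), mem_product.2 ⟨?_, mem_univ _⟩, rfl⟩
      rw [hSd]
      exact mem_filter.2 ⟨mem_univ _, not_lt.1 h5⟩
  have hD1 : D1.card ≤ S.card * n := by
    rw [hD1d]
    refine card_image_le.trans ?_
    rw [card_product, card_univ, Fintype.card_fin]
  have hD2 : D2.card ≤ n * (Δ + 1) ^ l := by
    rw [hD2d]
    refine card_biUnion_le.trans ?_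
    refine (sum_le_sum fun x _ => card_image_le.trans (ball_card hdeg l x)).trans ?_
    rw [sum_const, card_univ, Fintype.card_fin, smul_eq_mul]
  have hS : S.card * Δ ≤ 2 * C.card := by
    calc S.card * Δ = ∑ x ∈ S, Δ := by rw [sum_const, smul_eq_mul]
      _ ≤ ∑ x ∈ S, dg C x := sum_le_sum fun x hx => by
          rw [hSd] at hx
          exact (mem_filter.1 hx).2
      _ ≤ ∑ x, dg C x := sum_le_sum_of_subset (subset_univ _)
      _ ≤ ∑ x, dgs C x := sum_le_sum fun x _ => we_PhaseA_dg C x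
      _ ≤ 2 * C.card := we_PhaseA_hand C
  have hB : 2 * (board n).card ≤ n * n := we_PhaseA_board
  have hDc : ((H ∩ U) \ Lv H Δ l U C).card ≤ D1.card + D2.card :=
    (card_le_card hD).trans (card_union_le _ _)
  have e1 : b * Δ * D1.card ≤ n ^ 3 := by
    calc b * Δ * D1.card ≤ b * Δ * (S.card * n) := Nat.mul_le_mul_left _ hD1
      _ = b * (S.card * Δ) * n := by ring
      _ ≤ b * (2 * C.card) * n := Nat.mul_le_mul_right _ (Nat.mul_le_mul_left _ hS)
      _ = 2 * (b * C.card) * n := by ring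
      _ ≤ 2 * (board n).card * n := Nat.mul_le_mul_right _ (Nat.mul_le_mul_left _ hcnt)
      _ ≤ n * n * n := Nat.mul_le_mul_right _ hB
      _ = n ^ 3 := by ring
  calc b * Δ * ((H ∩ U) \ Lv H Δ l U C).card ≤ b * Δ * (D1.card + D2.card) :=
        Nat.mul_le_mul_left _ hDc
    _ = b * Δ * D1.card + b * Δ * D2.card := by ring
    _ ≤ n ^ 3 + b * Δ * (n * (Δ + 1) ^ l) := Nat.add_le_add e1 (Nat.mul_le_mul_left _ hD2)

theorem loopA {k Δ l b w T : ℕ} {H : Finset (Sym2 (Fin n))} (hb : 0 < b) (hH : H ⊆ board n)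
    (hΔ : 0 < Δ) (hw : 0 < w) (hT : (k + 1) * (n / w + 1) ≤ T) :
    Force b (fun U C => InvA k Δ l b w H U C ∧
      w * (Lv H Δ l U C).card ≤ T ^ 2 * (w * b + 2 * b * n)) (board n) ∅ := by
  classical
  have hcard : ∀ U C, InvA k Δ l b w H U C → C.card ≤ n * n := by
    intro U C h
    have h1 := h.hcnt
    have h2 := card_le_card hH
    have h3 := we_PhaseA_board (n := n)
    have h4 : C.card ≤ b * C.card := Nat.le_mul_of_pos_left _ hb
    omega
  have hloop := Force.loop (b := b) (U := board n) (C := ∅)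
    (fun i U C => InvA k Δ l b w H U C ∧
      (i ≤ C.card ∨ w * (Lv H Δ l U C).card ≤ T ^ 2 * (w * b + 2 * b * n))) (n * n + 1)
    (fun i _ U C h => by
      by_cases h2 : w * (Lv H Δ l U C).card ≤ T ^ 2 * (w * b + 2 * b * n)
      · exact Force.here ⟨h.1, Or.inr h2⟩
      · have h3 := h.2.resolve_right h2
        obtain ⟨B, hB, hBc, hBw, r1, r2, A1, A2, hT'⟩ := pick_type hH hw hT (not_le.1 h2)
        have hBU : B ⊆ U := by
          refine hB.trans ?_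
          rw [Lv]
          exact (filter_subset _ _).trans inter_subset_right
        refine Force.play B hBU hBc fun e he => Force.here
          ⟨stepA hb hH h.1 hB hBc hBw hT' e he, Or.inl ?_⟩
        rw [card_insert_of_notMem fun h4 => (disjoint_left.1 h.1.hd) h4 (hBU he)]
        omega)
    ⟨startA hH hΔ, Or.inl (Nat.zero_le _)⟩
  refine hloop.mono fun U C h => ⟨h.1, h.2.resolve_left fun h1 => ?_⟩
  have h2 := hcard U C h.1
  omega

theorem phaseA (k : ℕ) (κ ε : ℝ) (hκ : 1 ≤ κ) (hε : 0 < ε) : ∃ Δ0 : ℕ, ∀ Δ ≥ Δ0, ∀ l : ℕ,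
    ∃ n0 : ℕ, ∀ n ≥ n0, ∀ b : ℕ, 0 < b → b ≤ n → (n : ℝ) ≤ κ * b →
    ∀ H : Finset (Sym2 (Fin n)), H ⊆ board n →
    Force b (fun U C => C ⊆ board n ∧ U ⊆ board n ∧ Disjoint C U ∧ board n \ H ⊆ U ∧
      (∀ x, dg C x ≤ Δ) ∧ Sp l C ∧ b * C.card + U.card ≤ (board n).card ∧
      ∀ m ≤ k, ∑ v, ((m - dg C v : ℕ) : ℝ) ≤ ∑ v, G b (dgs H v) m + ε * n) (board n) ∅ := by
  classical
  have hκ0 : 0 < κ := by linarith
  obtain ⟨η, hη⟩ : ∃ η : ℝ, η = ε / (64 * κ) := ⟨_, rfl⟩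
  have hη0 : 0 < η := by rw [hη]; positivity
  refine ⟨⌈16 * κ ^ 2 / ε⌉₊ + 1, fun Δ hΔ l => ?_⟩
  obtain ⟨T1, hT1⟩ : ∃ T1 : ℝ, T1 = (k + 1) * (κ / η + 1) := ⟨_, rfl⟩
  have hT10 : 0 < T1 := by rw [hT1]; positivity
  refine ⟨⌈κ / η⌉₊ + ⌈16 * T1 ^ 2 * (1 + 2 * κ / η) / ε⌉₊ + ⌈16 * κ * ((Δ : ℝ) + 1) ^ l / ε⌉₊,
    fun n hn b hb hbn hnb H hH => ?_⟩
  have hΔ0 : 0 < Δ := by omega
  have hcast : ∀ (t : ℝ) (N : ℕ), ⌈t⌉₊ ≤ N → t ≤ N := fun t N h =>
    (Nat.le_ceil t).trans (by exact_mod_cast h)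
  have hΔ1 : 16 * κ ^ 2 / ε ≤ Δ := hcast _ _ (by omega)
  have hn1 : κ / η ≤ n := hcast _ _ (by omega)
  have hn2 : 16 * T1 ^ 2 * (1 + 2 * κ / η) / ε ≤ n := hcast _ _ (by omega)
  have hn3 : 16 * κ * ((Δ : ℝ) + 1) ^ l / ε ≤ n := hcast _ _ (by omega)
  have hb0 : (0 : ℝ) < b := by exact_mod_cast hb
  have hΔr : (0 : ℝ) < Δ := by exact_mod_cast hΔ0
  have hnr : (0 : ℝ) ≤ n := Nat.cast_nonneg n
  obtain ⟨w, hwd⟩ : ∃ w : ℕ, w = ⌈η * b⌉₊ := ⟨_, rfl⟩
  have hw : 0 < w := by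
    rw [hwd]
    exact Nat.ceil_pos.2 (by positivity)
  have hw1 : η * b ≤ w := by
    rw [hwd]
    exact Nat.le_ceil _
  have hw2 : (w : ℝ) ≤ 2 * η * b := by
    have h1 : (w : ℝ) < η * b + 1 := by
      rw [hwd]
      exact Nat.ceil_lt_add_one (by positivity)
    have h2 : 1 ≤ η * b := by
      have h3 : κ / η ≤ κ * b := hn1.trans hnb
      rw [div_le_iff₀ hη0] at h3
      have h4 : κ * 1 ≤ κ * (η * b) := by nlinarith
      exact le_of_mul_le_mul_left h4 hκ0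
    linarith
  have hwr : (0 : ℝ) < w := by exact_mod_cast hw
  refine (loopA (k := k) (l := l) (T := (k + 1) * (n / w + 1)) hb hH hΔ0 hw le_rfl).mono
    fun U C h' => ?_
  obtain ⟨h, hLv⟩ := h'
  have hcnt2 : b * C.card + U.card ≤ (board n).card := by
    have h1 := h.hcnt
    have h2 : (board n \ H).card = (board n).card - H.card := card_sdiff_of_subset hH
    have h3 : (U \ H).card ≤ (board n \ H).card := card_le_card (sdiff_subset_sdiff h.hU le_rfl)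
    have h4 : (U \ H).card + (U ∩ H).card = U.card := card_sdiff_add_card_inter U H
    have h5 := card_le_card hH
    rw [inter_comm] at h4
    omega
  refine ⟨h.hC, h.hU, h.hd, h.hH, h.hdeg, h.hsp, hcnt2, fun m hm => ?_⟩
  -- the three estimates
  obtain ⟨x, hx⟩ : ∃ x : ℝ, x = C.card := ⟨_, rfl⟩
  obtain ⟨y, hy⟩ : ∃ y : ℝ, y = ((H ∩ U) \ Lv H Δ l U C).card := ⟨_, rfl⟩
  obtain ⟨z, hz⟩ : ∃ z : ℝ, z = (Lv H Δ l U C).card := ⟨_, rfl⟩
  have hx0 : 0 ≤ x := by rw [hx]; positivity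
  have hy0 : 0 ≤ y := by rw [hy]; positivity
  have hz0 : 0 ≤ z := by rw [hz]; positivity
  have hT : (((k + 1) * (n / w + 1) : ℕ) : ℝ) ≤ T1 := by
    rw [hT1]
    push_cast
    have h1 : ((n / w : ℕ) : ℝ) ≤ n / w := Nat.cast_div_le
    have h2 : (n : ℝ) / w ≤ κ / η := by
      rw [div_le_div_iff₀ hwr hη0]
      nlinarith
    have h3 : ((n / w : ℕ) : ℝ) + 1 ≤ κ / η + 1 := by linarith
    exact mul_le_mul_of_nonneg_left h3 (by positivity)
  have hnw : (n : ℝ) / w ≤ κ / η := by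
    rw [div_le_div_iff₀ hwr hη0]
    nlinarith
  have e1 : 8 * ((w : ℝ) / b) * x ≤ ε * n / 8 := by
    have h1 : 2 * (b * x) ≤ n * n := by
      have h2 : 2 * (b * C.card) ≤ n * n := by
        have h3 := we_PhaseA_board (n := n)
        omega
      rw [hx]
      exact_mod_cast h2
    have h2 : 2 * x ≤ κ * n := by
      have h3 : b * (2 * x) ≤ b * (κ * n) := by nlinarith
      exact le_of_mul_le_mul_left h3 hb0
    have h3 : (w : ℝ) / b ≤ 2 * η := by
      rw [div_le_iff₀ hb0]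
      exact hw2
    have h4 : 8 * ((w : ℝ) / b) * x ≤ 8 * (2 * η) * (κ * n / 2) :=
      mul_le_mul (by linarith) (by linarith) hx0 (by positivity)
    have h5 : 8 * (2 * η) * (κ * n / 2) = ε * n / 8 := by
      rw [hη]
      field_simp
      ring
    linarith
  have e2 : 2 / (b : ℝ) * z ≤ ε * n / 8 := by
    have h1 : (w : ℝ) * z ≤ T1 ^ 2 * (w * b + 2 * b * n) := by
      have h2 : (w : ℝ) * z ≤ (((k + 1) * (n / w + 1) : ℕ) : ℝ) ^ 2 * (w * b + 2 * b * n) := by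
        rw [hz]
        exact_mod_cast hLv
      refine h2.trans (mul_le_mul_of_nonneg_right ?_ (by positivity))
      exact pow_le_pow_left₀ (Nat.cast_nonneg _) hT 2
    have h2 : 2 / (b : ℝ) * z ≤ 2 * T1 ^ 2 * (1 + 2 * (n / w)) := by
      have h3 : 2 / (b : ℝ) * z = 2 / (b * w) * (w * z) := by
        field_simp
      rw [h3]
      refine (mul_le_mul_of_nonneg_left h1 (by positivity)).trans (le_of_eq ?_)
      field_simp
    have h3 : 2 * T1 ^ 2 * (1 + 2 * (n / w)) ≤ 2 * T1 ^ 2 * (1 + 2 * κ / η) := by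
      refine mul_le_mul_of_nonneg_left ?_ (by positivity)
      have h4 : 2 * κ / η = 2 * (κ / η) := by ring
      rw [h4]
      linarith
    have h4 : 2 * T1 ^ 2 * (1 + 2 * κ / η) ≤ ε * n / 8 := by
      rw [div_le_iff₀ hε] at hn2
      linarith
    linarith
  have e3 : 2 / (b : ℝ) * y ≤ ε * n / 4 := by
    have h1 : (b : ℝ) * Δ * y ≤ n ^ 3 + b * Δ * (n * (Δ + 1) ^ l) := by
      have h2 := dead_card (H := H) (U := U) (l := l) h.hC h.hdeg
        (show b * C.card ≤ (board n).card by omega)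
      rw [hy]
      exact_mod_cast h2
    have h2 : 2 / (b : ℝ) * y = 2 / (b ^ 2 * Δ) * (b * Δ * y) := by
      field_simp
    have h3 : 2 / (b : ℝ) * y ≤ 2 / (b ^ 2 * Δ) * (n ^ 3 + b * Δ * (n * (Δ + 1) ^ l)) := by
      rw [h2]
      exact mul_le_mul_of_nonneg_left h1 (by positivity)
    have h4 : 2 / ((b : ℝ) ^ 2 * Δ) * (n ^ 3 + b * Δ * (n * (Δ + 1) ^ l)) =
        2 * (n / b) ^ 2 * n / Δ + 2 * (n / b) * (Δ + 1) ^ l := by
      field_simp
    have h5 : (n : ℝ) / b ≤ κ := by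
      rw [div_le_iff₀ hb0]
      exact hnb
    have h5' : 0 ≤ (n : ℝ) / b := by positivity
    have h6 : 2 * ((n : ℝ) / b) ^ 2 * n / Δ ≤ ε * n / 8 := by
      have h7 : ((n : ℝ) / b) ^ 2 ≤ κ ^ 2 := pow_le_pow_left₀ h5' h5 2
      have h8 : 16 * κ ^ 2 ≤ Δ * ε := by
        rw [div_le_iff₀ hε] at hΔ1
        exact hΔ1
      rw [div_le_iff₀ hΔr]
      have h9 : 2 * ((n : ℝ) / b) ^ 2 * n ≤ 2 * κ ^ 2 * n :=
        mul_le_mul_of_nonneg_right (by linarith) hnr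
      have h10 : 16 * κ ^ 2 * n ≤ Δ * ε * n := mul_le_mul_of_nonneg_right h8 hnr
      linarith
    have h7 : 2 * ((n : ℝ) / b) * (Δ + 1) ^ l ≤ ε * n / 8 := by
      have h8 : 2 * ((n : ℝ) / b) * (Δ + 1) ^ l ≤ 2 * κ * (Δ + 1) ^ l :=
        mul_le_mul_of_nonneg_right (by linarith) (by positivity)
      rw [div_le_iff₀ hε] at hn3
      linarith
    rw [h4] at h3
    linarith
  have e0 : ∑ v, ((m - dg C v : ℕ) : ℝ) ≤
      ∑ v, G b (dgs (Lv H Δ l U C) v) (m - dg C v) + 2 / b * z := by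
    have h1 : ∑ v, (((m - dg C v : ℕ) : ℝ) - (dgs (Lv H Δ l U C) v : ℝ) / b) ≤
        ∑ v, G b (dgs (Lv H Δ l U C) v) (m - dg C v) :=
      sum_le_sum fun v _ => G_lower hb _ _
    rw [sum_sub_distrib, ← sum_div] at h1
    have h2 : (∑ v, (dgs (Lv H Δ l U C) v : ℝ)) ≤ 2 * z := by
      rw [hz]
      exact_mod_cast we_PhaseA_hand (Lv H Δ l U C)
    have h3 : (∑ v, (dgs (Lv H Δ l U C) v : ℝ)) / b ≤ 2 / b * z := by
      rw [div_le_iff₀ hb0]
      have h4 : 2 / (b : ℝ) * z * b = 2 * z := by field_simp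
      rw [h4]
      exact h2
    linarith
  have e4 := h.hpot m hm
  rw [← hx, ← hy] at e4
  have hεn : 0 ≤ ε * n := by positivity
  linarith

end Pool.Agent.Helper72.WE
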