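import Mathlib

/-!
# Project WE, module Hall

PROOF.  Hall's theorem (`Finset.all_card_le_biUnion_card_iff_exists_injective`) for the slots
`Σ v, Fin (need v)` and the sets `G.filter (v ∈ e)`.
-/

set_option autoImplicit false

namespace Pool.Agent.Helper72.WE

open Finset

theorem hall_own {V : Type*} [Fintype V] [DecidableEq V] (G : Finset (Sym2 V)) (need : V → ℕ)
    (h : ∀ S : Finset V, ∑ v ∈ S, need v ≤ (G.filter fun e => ∃ v ∈ S, v ∈ e).card) :
    ∃ O : V → Finset (Sym2 V), (∀ v, O v ⊆ G ∧ (O v).card = need v ∧ ∀ e ∈ O v, v ∈ e) ∧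
      ∀ u v, u ≠ v → Disjoint (O u) (O v) := by
  classical
  have hall := (Finset.all_card_le_biUnion_card_iff_exists_injective
    (fun s : (Σ v : V, Fin (need v)) => G.filter fun e => s.1 ∈ e)).mp (by
      intro s
      have h1 : s.card ≤ ∑ v ∈ s.image Sigma.fst, need v := by
        have h2 : s ⊆ (s.image Sigma.fst).sigma (fun v => (univ : Finset (Fin (need v)))) := by
          intro x hx
          rw [Finset.mem_sigma]
          exact ⟨Finset.mem_image_of_mem _ hx, Finset.mem_univ _⟩
        have h3 := Finset.card_le_card h2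
        rw [Finset.card_sigma] at h3
        simpa using h3
      have h4 : (G.filter fun e => ∃ v ∈ s.image Sigma.fst, v ∈ e) ⊆
          s.biUnion (fun s : (Σ v : V, Fin (need v)) => G.filter fun e => s.1 ∈ e) := by
        intro e he
        rw [Finset.mem_filter] at he
        obtain ⟨heG, v, hv, hve⟩ := he
        rw [Finset.mem_image] at hv
        obtain ⟨x, hx, rfl⟩ := hv
        rw [Finset.mem_biUnion]
        exact ⟨x, hx, Finset.mem_filter.mpr ⟨heG, hve⟩⟩
      exact h1.trans ((h _).trans (Finset.card_le_card h4)))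
  obtain ⟨f, hf1, hf2⟩ := hall
  refine ⟨fun v => univ.image fun j : Fin (need v) => f ⟨v, j⟩, ?_, ?_⟩
  · intro v
    refine ⟨?_, ?_, ?_⟩
    · intro e he
      rw [Finset.mem_image] at he
      obtain ⟨j, -, rfl⟩ := he
      exact (Finset.mem_filter.mp (hf2 ⟨v, j⟩)).1
    · rw [Finset.card_image_of_injective, Finset.card_univ, Fintype.card_fin]
      intro i j hij
      have h1 := hf1 hij
      exact eq_of_heq (Sigma.mk.inj h1).2
    · intro e he
      rw [Finset.mem_image] at he
      obtain ⟨j, -, rfl⟩ := he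
      exact (Finset.mem_filter.mp (hf2 ⟨v, j⟩)).2
  · intro u v huv
    rw [Finset.disjoint_left]
    intro e he1 he2
    rw [Finset.mem_image] at he1 he2
    obtain ⟨i, -, hi⟩ := he1
    obtain ⟨j, -, hj⟩ := he2
    have h1 := hf1 (hi.trans hj.symm)
    exact huv (Sigma.mk.inj h1).1

end Pool.Agent.Helper72.WE
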