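import Pool.Agent.Helper46.WC.Graph1
import Pool.Agent.Helper92.WC.Graph2
import Pool.Agent.Helper72.WE.Hall

/-!
# Project WE, module PhaseB: stars at the vertices of small degree

PROOF.  `hall_own` with `need v = if dg C v < k then (k - dg C v) * b + s else 0` gives disjoint sets `O v ⊆ G'` of pairs
at `v` (for `S` restrict to the vertices with `dg C v < k`).  Loop over the vertices `v`, inside over `i < k - dg C v`:
state: all `O u` for the unprocessed `u ≠ v` are contained in `U'`, `|O v \ U'| ≤ i b`, `b |C'| + |U'| ≤ |board n|`, degrees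
`≤ Δ`, `Sp`.  If `dg C' v ≥ k` nothing to do.  Otherwise `O v ∩ U'` has at least `b + s` pairs `s(v, y)`; at most `s'` of
them have `dg C' y ≥ Δ` (number of these `y`: `Δ * # ≤ 2 |C'| ≤ 2 |board n| / b < Δ (s' + 1)`), at most `(Δ+1)^l` have
`y ∈ ball C' l v` (`ball_card`).  Offer `b` of the others: `v` has degree `+ 1 ≤ k ≤ Δ`, `y` has degree `+ 1 ≤ Δ`,
`sp_insert`.
-/

set_option autoImplicit false

namespace Pool.Agent.Helper72.WE

open Finset Pool.Agent.Helper72.WC

variable {n : ℕ}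

theorem we_PhaseB_mem {C : Finset (Sym2 (Fin n))} {x y : Fin n} : y ∈ nb C x ↔ s(x, y) ∈ C := by
  simp [nb]

theorem we_PhaseB_nb {C : Finset (Sym2 (Fin n))} {v y : Fin n} :
    nb (insert s(v, y) C) v = insert y (nb C v) := by
  ext z
  rw [we_PhaseB_mem, mem_insert, mem_insert, we_PhaseB_mem, Sym2.congr_right]

theorem we_PhaseB_dg {C : Finset (Sym2 (Fin n))} {v y : Fin n} (h : s(v, y) ∉ C) :
    dg (insert s(v, y) C) v = dg C v + 1 := by
  unfold dg
  rw [we_PhaseB_nb, card_insert_of_notMem]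
  rwa [we_PhaseB_mem]

theorem we_PhaseB_dg' {C : Finset (Sym2 (Fin n))} {v y x : Fin n} (h1 : x ≠ v) (h2 : x ≠ y) :
    dg (insert s(v, y) C) x = dg C x := by
  unfold dg
  congr 1
  ext z
  rw [we_PhaseB_mem, mem_insert, we_PhaseB_mem, Sym2.eq_iff]
  constructor
  · rintro ((⟨h, _⟩ | ⟨h, _⟩) | h)
    · exact absurd h h1
    · exact absurd h h2
    · exact h
  · exact Or.inr

theorem we_PhaseB_mono {C C' : Finset (Sym2 (Fin n))} (h : C ⊆ C') (x : Fin n) :
    dg C x ≤ dg C' x := by
  unfold dg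
  refine card_le_card fun z hz => ?_
  rw [we_PhaseB_mem] at hz ⊢
  exact h hz

theorem we_PhaseB_sum (C : Finset (Sym2 (Fin n))) : ∑ x, dg C x ≤ 2 * C.card := by
  classical
  set P := ((univ : Finset (Fin n)).sigma fun v => nb C v) with hP
  have hPc : P.card = ∑ x, dg C x := by
    rw [hP, card_sigma]
    rfl
  have h3 : (P.image fun p => s(p.1, p.2)) ⊆ C := by
    intro e he
    rw [mem_image] at he
    obtain ⟨p, hp, rfl⟩ := he
    rw [hP, mem_sigma, we_PhaseB_mem] at hp
    exact hp.2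
  have h4 : P.card ≤ 2 * (P.image fun p => s(p.1, p.2)).card := by
    refine card_le_mul_card_image _ _ fun e he => ?_
    induction e using Sym2.ind with
    | _ u w =>
      have h5 : (P.filter fun p => s(p.1, p.2) = s(u, w)) ⊆ {⟨u, w⟩, ⟨w, u⟩} := by
        rintro ⟨a, b⟩ hp
        rw [mem_filter] at hp
        have h6 := hp.2
        rw [Sym2.eq_iff] at h6
        rw [mem_insert, mem_singleton]
        rcases h6 with ⟨h7, h8⟩ | ⟨h7, h8⟩
        · left; simp only at h7 h8; subst h7; subst h8; rfl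
        · right; simp only at h7 h8; subst h7; subst h8; rfl
      exact (card_le_card h5).trans card_le_two
  rw [← hPc]
  exact h4.trans (Nat.mul_le_mul_left 2 (card_le_card h3))

/-- One star. -/
theorem starB {k Δ l b s s' : ℕ} (hb : 0 < b) (hkΔ : k ≤ Δ) {U C O : Finset (Sym2 (Fin n))}
    (hC : C ⊆ board n) (hU : U ⊆ board n) (hd : Disjoint C U) (hdeg : ∀ x, dg C x ≤ Δ)
    (hsp : Sp l C) (hcnt : b * C.card + U.card ≤ (board n).card)
    (hs : s' + (Δ + 1) ^ l ≤ s) (hs' : 2 * (board n).card < b * Δ * (s' + 1)) {v : Fin n}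
    (hv : dg C v < k) (hOU : O ⊆ U) (hOv : ∀ e ∈ O, v ∈ e) (hO : b + s ≤ O.card) :
    ∃ B ⊆ O, B.card = b ∧ ∀ e ∈ B, insert e C ⊆ board n ∧ U \ B ⊆ board n ∧
      Disjoint (insert e C) (U \ B) ∧ (∀ x, dg (insert e C) x ≤ Δ) ∧ Sp l (insert e C) ∧
      b * (insert e C).card + (U \ B).card ≤ (board n).card ∧
      dg (insert e C) v = dg C v + 1 ∧ ∀ x, dg C x ≤ dg (insert e C) x := by
  classical
  set H : Finset (Fin n) := univ.filter fun y => Δ ≤ dg C y with hH
  have hHc : H.card ≤ s' := by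
    have h1 : H.card * Δ ≤ 2 * C.card := by
      calc H.card * Δ = ∑ _y ∈ H, Δ := by rw [sum_const, smul_eq_mul]
        _ ≤ ∑ y ∈ H, dg C y := sum_le_sum fun y hy => (mem_filter.1 hy).2
        _ ≤ ∑ y, dg C y := sum_le_sum_of_subset (subset_univ _)
        _ ≤ 2 * C.card := we_PhaseB_sum C
    have h2 : b * Δ * H.card ≤ 2 * (board n).card := by
      calc b * Δ * H.card = b * (H.card * Δ) := by ring
        _ ≤ b * (2 * C.card) := Nat.mul_le_mul_left _ h1
        _ = 2 * (b * C.card) := by ring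
        _ ≤ 2 * (board n).card := by omega
    have h3 : H.card < s' + 1 := Nat.lt_of_mul_lt_mul_left (h2.trans_lt hs')
    omega
  have hball := ball_card hdeg l v
  set F : Finset (Sym2 (Fin n)) := O \ (H ∪ ball C l v).image (fun y => s(v, y)) with hF
  have hFc : b ≤ F.card := by
    have h1 : ((H ∪ ball C l v).image (fun y => s(v, y))).card ≤ s' + (Δ + 1) ^ l := by
      refine card_image_le.trans ((card_union_le _ _).trans ?_)
      omega
    have h2 : O.card ≤ F.card + ((H ∪ ball C l v).image (fun y => s(v, y))).card := by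
      rw [hF]
      have := le_card_sdiff ((H ∪ ball C l v).image (fun y => s(v, y))) O
      omega
    omega
  obtain ⟨B, hBF, hBb⟩ := exists_subset_card_eq hFc
  have hBO : B ⊆ O := hBF.trans sdiff_subset
  refine ⟨B, hBO, hBb, fun e he => ?_⟩
  have heO := hBO he
  have heU := hOU heO
  have heC : e ∉ C := fun h => disjoint_left.1 hd h heU
  obtain ⟨y, rfl⟩ : ∃ y, e = s(v, y) := by
    obtain ⟨y, hy⟩ := hOv e heO
    exact ⟨y, hy⟩
  have hy : y ∉ H ∪ ball C l v := by
    intro hy
    have h1 := (mem_sdiff.1 (hBF he)).2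
    exact h1 (mem_image_of_mem _ hy)
  rw [mem_union, not_or] at hy
  have hyH : dg C y < Δ := by
    have h1 := hy.1
    rw [hH, mem_filter] at h1
    push Not at h1
    exact h1 (mem_univ _)
  have hyC : s(y, v) ∉ C := by
    rwa [Sym2.eq_swap]
  refine ⟨insert_subset (hU heU) hC, sdiff_subset.trans hU, ?_, ?_, sp_insert hC hsp hy.2, ?_,
    we_PhaseB_dg heC, we_PhaseB_mono (subset_insert _ _)⟩
  · rw [disjoint_insert_left]
    exact ⟨fun h => (mem_sdiff.1 h).2 he, disjoint_of_subset_right sdiff_subset hd⟩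
  · intro x
    by_cases hxv : x = v
    · subst hxv
      rw [we_PhaseB_dg heC]
      omega
    · by_cases hxy : x = y
      · subst hxy
        rw [Sym2.eq_swap, we_PhaseB_dg hyC]
        omega
      · rw [we_PhaseB_dg' hxv hxy]
        exact hdeg x
  · rw [card_insert_of_notMem heC, card_sdiff_of_subset (hBO.trans hOU), hBb, mul_add, mul_one]
    have h1 := card_le_card (hBO.trans hOU)
    omega

/-- the invariant -/
structure We_PhaseB_inv (k Δ l b : ℕ) (G' U C : Finset (Sym2 (Fin n)))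
    (U' C' : Finset (Sym2 (Fin n))) : Prop where
  hC : C' ⊆ board n
  hU : U' ⊆ board n
  hd : Disjoint C' U'
  hG : U \ G' ⊆ U'
  hdeg : ∀ x, dg C' x ≤ Δ
  hsp : Sp l C'
  hcnt : b * C'.card + U'.card ≤ (board n).card
  hle : ∀ x, dg C x ≤ dg C' x

theorem phaseB {k Δ l b s s' : ℕ} (hb : 0 < b) (hkΔ : k ≤ Δ) {G' U C : Finset (Sym2 (Fin n))}
    (hC : C ⊆ board n) (hU : U ⊆ board n) (hd : Disjoint C U) (hG : G' ⊆ U)
    (hdeg : ∀ x, dg C x ≤ Δ) (hsp : Sp l C) (hcnt : b * C.card + U.card ≤ (board n).card)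
    (hs : s' + (Δ + 1) ^ l ≤ s) (hs' : 2 * (board n).card < b * Δ * (s' + 1))
    (hneed : ∀ S : Finset (Fin n), (∀ v ∈ S, dg C v < k) →
      ∑ v ∈ S, ((k - dg C v) * b + s) ≤ (G'.filter fun e => ∃ v ∈ S, v ∈ e).card) :
    Force b (fun U' C' => C' ⊆ board n ∧ U' ⊆ board n ∧ Disjoint C' U' ∧ U \ G' ⊆ U' ∧
      (∀ x, k ≤ dg C' x) ∧ (∀ x, dg C' x ≤ Δ) ∧ Sp l C') U C := by
  classical
  obtain ⟨O, hO, hOd⟩ := hall_own G' (fun v => if dg C v < k then (k - dg C v) * b + s else 0)
    (by
      intro S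
      rw [← sum_filter]
      have h1 : (G'.filter fun e => ∃ v ∈ S.filter (fun v => dg C v < k), v ∈ e).card ≤
          (G'.filter fun e => ∃ v ∈ S, v ∈ e).card := by
        refine card_le_card fun e he => ?_
        rw [mem_filter] at he ⊢
        obtain ⟨h1, v, hv, hve⟩ := he
        exact ⟨h1, v, (mem_filter.1 hv).1, hve⟩
      refine (hneed (S.filter fun v => dg C v < k) fun v hv => (mem_filter.1 hv).2).trans
        (h1.trans (le_of_eq ?_))
      congr!)
  let J : ℕ → Finset (Sym2 (Fin n)) → Finset (Sym2 (Fin n)) → Prop := fun i U' C' =>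
    We_PhaseB_inv k Δ l b G' U C U' C' ∧ (∀ u : Fin n, i ≤ u.val → O u ⊆ U') ∧
      ∀ u : Fin n, u.val < i → k ≤ dg C' u
  have h0 : J 0 U C := by
    refine ⟨⟨hC, hU, hd, sdiff_subset, hdeg, hsp, hcnt, fun x => le_rfl⟩,
      fun u _ => (hO u).1.trans hG, fun u hu => absurd hu (Nat.not_lt_zero _)⟩
  have hstep : ∀ i < n, ∀ U' C', J i U' C' → Force b (J (i + 1)) U' C' := by
    rintro i hi U₁ C₁ ⟨hI, hJ1, hJ2⟩
    set v : Fin n := ⟨i, hi⟩ with hv
    let K : ℕ → Finset (Sym2 (Fin n)) → Finset (Sym2 (Fin n)) → Prop := fun j U' C' =>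
      We_PhaseB_inv k Δ l b G' U C U' C' ∧ (∀ u : Fin n, i + 1 ≤ u.val → O u ⊆ U') ∧
        (∀ u : Fin n, u.val < i → k ≤ dg C' u) ∧
        (k ≤ dg C' v ∨ (dg C v + j ≤ dg C' v ∧ (O v \ U').card ≤ j * b))
    have hK0 : K 0 U₁ C₁ := by
      refine ⟨hI, fun u hu => hJ1 u (by omega), hJ2, Or.inr ⟨hI.hle v, ?_⟩⟩
      rw [sdiff_eq_empty_iff_subset.2 (hJ1 v le_rfl)]
      simp
    have hKstep : ∀ j < k - dg C v, ∀ U' C', K j U' C' → Force b (K (j + 1)) U' C' := by
      rintro j hj U₂ C₂ ⟨hI2, hK1, hK2, hK3⟩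
      by_cases hk : k ≤ dg C₂ v
      · exact Force.here ⟨hI2, hK1, hK2, Or.inl hk⟩
      · rcases hK3 with hK3 | ⟨hK3, hK4⟩
        · exact absurd hK3 hk
        · have hOc : (O v).card = (k - dg C v) * b + s := by
            rw [(hO v).2.1, if_pos]
            omega
          have hcard : b + s ≤ (O v ∩ U₂).card := by
            have h1 : (O v ∩ U₂).card + (O v \ U₂).card = (O v).card :=
              card_inter_add_card_sdiff _ _
            have h2 : (j + 1) * b ≤ (k - dg C v) * b := Nat.mul_le_mul_right _ hj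
            have h3 : (j + 1) * b = j * b + b := by ring
            omega
          obtain ⟨B, hB1, hB2, hB3⟩ := starB hb hkΔ hI2.hC hI2.hU hI2.hd hI2.hdeg hI2.hsp
            hI2.hcnt hs hs' (not_le.1 hk) (O := O v ∩ U₂) inter_subset_right
            (fun e he => (hO v).2.2 e (mem_inter.1 he).1) hcard
          have hBO : B ⊆ O v := hB1.trans inter_subset_left
          refine Force.play B (hB1.trans inter_subset_right) hB2 fun e he => Force.here ?_
          obtain ⟨c1, c2, c3, c4, c5, c6, c7, c8⟩ := hB3 e he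
          refine ⟨⟨c1, c2, c3, ?_, c4, c5, c6, fun x => (hI2.hle x).trans (c8 x)⟩, ?_,
            fun u hu => (hK2 u hu).trans (c8 u), Or.inr ⟨?_, ?_⟩⟩
          · intro z hz
            refine mem_sdiff.2 ⟨hI2.hG hz, fun hzB => ?_⟩
            exact (mem_sdiff.1 hz).2 ((hO v).1 (hBO hzB))
          · intro u hu z hz
            refine mem_sdiff.2 ⟨hK1 u hu hz, fun hzB => ?_⟩
            have hne : u ≠ v := by
              rintro rfl
              simp only [hv] at hu
              omega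
            exact disjoint_left.1 (hOd u v hne) hz (hBO hzB)
          · rw [c7]
            omega
          · have e1 : O v \ (U₂ \ B) ⊆ (O v \ U₂) ∪ B := by
              intro z hz
              rw [mem_sdiff, mem_sdiff] at hz
              rw [mem_union, mem_sdiff]
              by_cases hzB : z ∈ B
              · exact Or.inr hzB
              · exact Or.inl ⟨hz.1, fun h => hz.2 ⟨h, hzB⟩⟩
            have e2 := (card_le_card e1).trans (card_union_le _ _)
            have e3 : (j + 1) * b = j * b + b := by ring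
            omega
    refine (Force.loop K (k - dg C v) hKstep hK0).mono ?_
    rintro U₂ C₂ ⟨hI2, hK1, hK2, hK3⟩
    refine ⟨hI2, hK1, fun u hu => ?_⟩
    rcases Nat.lt_succ_iff_lt_or_eq.1 hu with hu | hu
    · exact hK2 u hu
    · have hu' : u = v := Fin.ext hu
      rw [hu']
      rcases hK3 with hK3 | ⟨hK3, -⟩
      · exact hK3
      · omega
  refine (Force.loop J n hstep h0).mono ?_
  rintro U' C' ⟨hI, -, h2⟩
  exact ⟨hI.hC, hI.hU, hI.hd, hI.hG, fun x => h2 x x.isLt, hI.hdeg, hI.hsp⟩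

end Pool.Agent.Helper72.WE
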