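import Mathlib

/-!
# Project WE, module Qr1: inner products over `ZMod 5`

PROOF.  Let `N c y` be the number of `x ∈ S` with `x·y = c`.  Then `∑_c N c y = |S|` and
`∑_c (N c y)²` is the number of pairs `(x, x')` in `S` with `(x - x')·y = 0`.  For `z ≠ 0` exactly
`5^m / 5` vectors `y` have `z·y = 0`.  So `∑_y ∑_c (N c y - |S|/5)² ≤ |S| 5^m`.
-/

set_option autoImplicit false

namespace Pool.Agent.Helper72.WE

theorem we_Qr1_fib {m : ℕ} (z : Fin m → ZMod 5) (hz : z ≠ 0) :
    5 * (Finset.univ.filter fun y : Fin m → ZMod 5 => ∑ i, z i * y i = 0).card = 5 ^ m := by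
  classical
  have : Fact (Nat.Prime 5) := ⟨by norm_num⟩
  obtain ⟨i0, hi0⟩ : ∃ i, z i ≠ 0 := by
    by_contra h
    push Not at h
    exact hz (funext h)
  obtain ⟨w, hw⟩ : ∃ w : Fin m → ZMod 5, ∑ i, z i * w i = 1 := by
    refine ⟨Pi.single i0 (z i0)⁻¹, ?_⟩
    rw [Finset.sum_eq_single i0]
    · rw [Pi.single_eq_same, mul_inv_cancel₀ hi0]
    · intro i _ hi
      rw [Pi.single_eq_of_ne hi, mul_zero]
    · intro h
      exact absurd (Finset.mem_univ _) h
  have hc : ∀ c : ZMod 5, (Finset.univ.filter fun y : Fin m → ZMod 5 => ∑ i, z i * y i = c).card =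
      (Finset.univ.filter fun y : Fin m → ZMod 5 => ∑ i, z i * y i = 0).card := by
    intro c
    refine Finset.card_nbij' (fun y => y - c • w) (fun y => y + c • w) ?_ ?_ ?_ ?_
    · intro y hy
      simp only [Finset.coe_filter, Finset.mem_univ, true_and, Set.mem_setOf_eq] at hy ⊢
      simp only [Pi.sub_apply, Pi.smul_apply, smul_eq_mul, mul_sub, Finset.sum_sub_distrib]
      have h2 : ∑ i, z i * (c * w i) = c := by
        have h3 : ∑ i, z i * (c * w i) = c * ∑ i, z i * w i := by
          rw [Finset.mul_sum]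
          exact Finset.sum_congr rfl fun i _ => by ring
        rw [h3, hw, mul_one]
      rw [hy, h2, sub_self]
    · intro y hy
      simp only [Finset.coe_filter, Finset.mem_univ, true_and, Set.mem_setOf_eq] at hy ⊢
      simp only [Pi.add_apply, Pi.smul_apply, smul_eq_mul, mul_add, Finset.sum_add_distrib]
      have h2 : ∑ i, z i * (c * w i) = c := by
        have h3 : ∑ i, z i * (c * w i) = c * ∑ i, z i * w i := by
          rw [Finset.mul_sum]
          exact Finset.sum_congr rfl fun i _ => by ring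
        rw [h3, hw, mul_one]
      rw [hy, h2, zero_add]
    · intro y _
      simp
    · intro y _
      simp
  have h1 := Finset.card_eq_sum_card_fiberwise (s := (Finset.univ : Finset (Fin m → ZMod 5)))
    (t := (Finset.univ : Finset (ZMod 5))) (f := fun y => ∑ i, z i * y i)
    (fun _ _ => Finset.mem_coe.2 (Finset.mem_univ _))
  rw [Finset.sum_congr rfl (fun c _ => hc c), Finset.sum_const, Finset.card_univ,
    Finset.card_univ, Fintype.card_fun, ZMod.card, Fintype.card_fin, smul_eq_mul] at h1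
  exact h1.symm

theorem qr_second {m : ℕ} (S : Finset (Fin m → ZMod 5)) :
    ∑ y : Fin m → ZMod 5, (((S.filter fun x => ∑ i, x i * y i = 1).card : ℝ) - S.card / 5) ^ 2 ≤
      10 * (S.card : ℝ) * (5 : ℝ) ^ m := by
  classical
  let N : ZMod 5 → (Fin m → ZMod 5) → ℝ := fun c y =>
    ((S.filter fun x => ∑ i, x i * y i = c).card : ℝ)
  have hN : ∀ c y, N c y = ∑ x ∈ S, if ∑ i, x i * y i = c then (1 : ℝ) else 0 := by
    intro c y
    rw [Finset.sum_boole]
  have h1 : ∀ y, ∑ c, N c y = S.card := by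
    intro y
    simp only [hN]
    rw [Finset.sum_comm]
    simp
  have h2 : ∀ y, ∑ c, N c y ^ 2 = ∑ x ∈ S, ∑ x' ∈ S,
      if ∑ i, (x' - x) i * y i = 0 then (1 : ℝ) else 0 := by
    intro y
    simp only [hN, pow_two, Finset.sum_mul_sum]
    rw [Finset.sum_comm]
    refine Finset.sum_congr rfl fun x _ => ?_
    rw [Finset.sum_comm]
    refine Finset.sum_congr rfl fun x' _ => ?_
    have e : ∀ c : ZMod 5, ((if ∑ i, x i * y i = c then (1 : ℝ) else 0) *
        if ∑ i, x' i * y i = c then (1 : ℝ) else 0) =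
        if ∑ i, x i * y i = c then (if ∑ i, (x' - x) i * y i = 0 then (1 : ℝ) else 0) else 0 := by
      intro c
      by_cases h : ∑ i, x i * y i = c
      · rw [if_pos h, if_pos h, one_mul]
        have h3 : ∑ i, (x' - x) i * y i = ∑ i, x' i * y i - c := by
          rw [← h, ← Finset.sum_sub_distrib]
          refine Finset.sum_congr rfl fun i _ => ?_
          rw [Pi.sub_apply, sub_mul]
        simp only [h3, sub_eq_zero]
      · rw [if_neg h, if_neg h, zero_mul]
    rw [Finset.sum_congr rfl (fun c _ => e c), Finset.sum_ite_eq, if_pos (Finset.mem_univ _)]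
  have h3 : ∑ y, ∑ c, N c y ^ 2 ≤ (S.card : ℝ) * 5 ^ m + (S.card : ℝ) ^ 2 * 5 ^ m / 5 := by
    simp only [h2]
    rw [Finset.sum_comm]
    have h4 : ∀ x ∈ S, ∑ y : Fin m → ZMod 5, ∑ x' ∈ S,
        (if ∑ i, (x' - x) i * y i = 0 then (1 : ℝ) else 0) ≤
        5 ^ m + (S.card : ℝ) * 5 ^ m / 5 := by
      intro x hx
      rw [Finset.sum_comm, ← Finset.add_sum_erase _ _ hx]
      refine add_le_add ?_ ?_
      · rw [Finset.sum_boole]
        have h5 : ((Finset.univ.filter fun y : Fin m → ZMod 5 =>
            ∑ i, (x - x) i * y i = 0).card : ℝ) ≤ (Finset.univ : Finset (Fin m → ZMod 5)).card := by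
          exact_mod_cast Finset.card_filter_le _ _
        refine h5.trans ?_
        rw [Finset.card_univ, Fintype.card_fun, ZMod.card, Fintype.card_fin]
        push_cast
        exact le_refl _
      · have h6 : ∀ x' ∈ S.erase x, (∑ y : Fin m → ZMod 5,
            if ∑ i, (x' - x) i * y i = 0 then (1 : ℝ) else 0) = 5 ^ m / 5 := by
          intro x' hx'
          rw [Finset.sum_boole, eq_div_iff (by norm_num), mul_comm]
          exact_mod_cast we_Qr1_fib (x' - x) (sub_ne_zero.2 (Finset.ne_of_mem_erase hx'))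
        rw [Finset.sum_congr rfl h6, Finset.sum_const, nsmul_eq_mul, ← mul_div_assoc]
        have h7 : ((S.erase x).card : ℝ) ≤ S.card := by
          exact_mod_cast Finset.card_le_card (Finset.erase_subset _ _)
        gcongr
    refine (Finset.sum_le_sum h4).trans (le_of_eq ?_)
    rw [Finset.sum_const, nsmul_eq_mul]
    ring
  have h8 : ∀ y, (N 1 y - S.card / 5) ^ 2 ≤ ∑ c, N c y ^ 2 - (S.card : ℝ) ^ 2 / 5 := by
    intro y
    have h9 : ∑ c, (N c y - S.card / 5) ^ 2 = ∑ c, N c y ^ 2 - (S.card : ℝ) ^ 2 / 5 := by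
      have e : ∀ c, (N c y - S.card / 5) ^ 2 =
          N c y ^ 2 - 2 * (S.card / 5) * N c y + ((S.card : ℝ) / 5) ^ 2 := fun c => by ring
      rw [Finset.sum_congr rfl (fun c _ => e c), Finset.sum_add_distrib, Finset.sum_sub_distrib,
        ← Finset.mul_sum, h1, Finset.sum_const, Finset.card_univ, ZMod.card, nsmul_eq_mul]
      push_cast
      ring
    rw [← h9]
    exact Finset.single_le_sum (f := fun c => (N c y - S.card / 5) ^ 2)
      (fun c _ => sq_nonneg _) (Finset.mem_univ 1)
  refine (Finset.sum_le_sum fun y _ => h8 y).trans ?_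
  rw [Finset.sum_sub_distrib, Finset.sum_const, Finset.card_univ, Fintype.card_fun, ZMod.card,
    Fintype.card_fin, nsmul_eq_mul]
  push_cast
  have h10 : (0 : ℝ) ≤ (S.card : ℝ) * 5 ^ m := by positivity
  nlinarith [h3]

end Pool.Agent.Helper72.WE
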