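import Pool.Agent.Helper72.WC.Defs
import Pool.Agent.Helper72.WE.Qr1

/-!
# Project WE, module Qr: a quasirandom set of a fifth of the pairs

PROOF.  `n ≤ 5^m ≤ 5 n`, an injection `ι : Fin n → (Fin m → ZMod 5)`, `x ~ y` iff `ι x · ι y = 1` (symmetric).
`N S v = #{x ∈ S : ι x · ι v = 1}`; `qr_second` (restricted to `y` in the range of `ι`, all terms are `≥ 0`):
`Σ_v (N S v - |S|/5)² ≤ 10 |S| 5 n ≤ 50 n²`.  Exceptional vertices: `X = {v : |N univ v - n/5| > (ε/8) n}`, so
`|X| ≤ 3200 / ε²`.  `H = {s(x, y) : x ≠ y, x ~ y, x, y ∉ X}`.  (1) `v ∉ X`: at least `n/5 - (ε/8) n - |X| - 1` pairs of `H` at `v`,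
so the vertices with fewer than `(1/5 - ε) n` pairs lie in `X` (`n` large).  (2) all `v`: at most `n/5 + (ε/8) n` pairs of `H` at `v`.
Pairs of `H` touching `S` = `Σ_(v ∈ S) deg_H v - e_H(S)` (`e_H(S)` = pairs of `H` inside `S`), `e_H(S) ≥ 0` and
`2 e_H(S) ≥ Σ_(v ∈ S) N S v - |X| (2 n) - n ≥ |S|²/5 - √(|S| 50 n²) - (2 |X| + 1) n` (Cauchy-Schwarz).  Pairs of the board touching `S`:
`|S| n - |S|²/2 - |S|/2`.  For `|S| ≤ (ε/2) n` use `e_H(S) ≥ 0` (loses `|S|²/10 ≤ (ε/20) n |S|`), for `|S| > (ε/2) n` the lower bound: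
its error is `O(n^(3/2)) ≤ (ε/4) n |S|` for large `n`.
-/

set_option autoImplicit false

namespace Pool.Agent.Helper72.WE

open Finset Pool.Agent.Helper72.WC

theorem we_Qr_deg {n : ℕ} (F : Finset (Sym2 (Fin n))) (v : Fin n) :
    (F.filter fun e => v ∈ e).card = (univ.filter fun y : Fin n => s(v, y) ∈ F).card := by
  have h1 : (F.filter fun e => v ∈ e) =
      (univ.filter fun y : Fin n => s(v, y) ∈ F).image fun y => s(v, y) := by
    ext e
    simp only [mem_filter, mem_image, mem_univ, true_and]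
    constructor
    · rintro ⟨he, hv⟩
      obtain ⟨y, rfl⟩ := Sym2.mem_iff_exists.1 hv
      exact ⟨y, he, rfl⟩
    · rintro ⟨y, hy, rfl⟩
      exact ⟨hy, Sym2.mem_mk_left v y⟩
  rw [h1, card_image_of_injective]
  intro a b hab
  exact Sym2.congr_right.1 hab

theorem we_Qr_two {n : ℕ} (F : Finset (Sym2 (Fin n))) (hF : F ⊆ board n) :
    ((univ : Finset (Fin n × Fin n)).filter fun p => s(p.1, p.2) ∈ F).card = 2 * F.card := by
  have h1 : ∀ p ∈ (univ : Finset (Fin n × Fin n)).filter (fun p => s(p.1, p.2) ∈ F),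
      s(p.1, p.2) ∈ F := fun p hp => (mem_filter.1 hp).2
  rw [card_eq_sum_card_fiberwise h1]
  have h2 : ∀ e ∈ F, (((univ : Finset (Fin n × Fin n)).filter
      (fun p => s(p.1, p.2) ∈ F)).filter fun p => s(p.1, p.2) = e).card = 2 := by
    intro e he
    induction e using Sym2.ind with
    | _ a b =>
      have hab : a ≠ b := by
        have := hF he
        unfold board at this
        have h3 := (mem_filter.1 this).2
        rwa [Sym2.mk_isDiag_iff] at h3
      have h4 : (((univ : Finset (Fin n × Fin n)).filter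
          (fun p => s(p.1, p.2) ∈ F)).filter fun p => s(p.1, p.2) = s(a, b)) =
          {(a, b), (b, a)} := by
        ext ⟨x, y⟩
        simp only [mem_filter, mem_univ, true_and, mem_insert, mem_singleton, Prod.mk.injEq,
          Sym2.eq_iff]
        constructor
        · rintro ⟨-, h⟩
          exact h
        · rintro (⟨rfl, rfl⟩ | ⟨rfl, rfl⟩)
          · exact ⟨he, Or.inl ⟨rfl, rfl⟩⟩
          · refine ⟨?_, Or.inr ⟨rfl, rfl⟩⟩
            rw [Sym2.eq_swap]
            exact he
      rw [h4, card_pair]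
      intro h
      exact hab (Prod.mk.inj h).1
  rw [sum_congr rfl h2, sum_const, smul_eq_mul, mul_comm]

/-- the number of pairs outside `H` which touch `S` -/
theorem we_Qr_count {n : ℕ} (h : Fin n → Fin n → Prop) [DecidableRel h]
    (hs : ∀ x y, h x y → h y x) (hne : ∀ x y, h x y → x ≠ y) (H : Finset (Sym2 (Fin n)))
    (hm : ∀ x y, s(x, y) ∈ H ↔ h x y) (S : Finset (Fin n)) :
    2 * ((board n \ H).filter fun e => ∃ v ∈ S, v ∈ e).card + S.card * S.card +
      2 * (∑ x ∈ S, (univ.filter fun y => h x y).card) + S.card =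
      2 * (S.card * n) + ((S ×ˢ S).filter fun p => h p.1 p.2).card := by
  obtain ⟨F, hFd⟩ : ∃ F, F = (board n \ H).filter fun e => ∃ v ∈ S, v ∈ e := ⟨_, rfl⟩
  rw [← hFd]
  have hb : ∀ x y : Fin n, s(x, y) ∈ board n ↔ x ≠ y := by
    intro x y
    unfold board
    rw [mem_filter, Sym2.mk_isDiag_iff]
    simp
  have hF : F ⊆ board n := by
    rw [hFd]
    exact (filter_subset _ _).trans sdiff_subset
  have hFm : ∀ x y : Fin n, s(x, y) ∈ F ↔ (x ≠ y ∧ ¬ h x y) ∧ (x ∈ S ∨ y ∈ S) := by
    intro x y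
    rw [hFd, mem_filter, mem_sdiff, hb, hm]
    simp only [Sym2.mem_iff]
    constructor
    · rintro ⟨h1, v, hv, rfl | rfl⟩
      · exact ⟨h1, Or.inl hv⟩
      · exact ⟨h1, Or.inr hv⟩
    · rintro ⟨h1, h2 | h2⟩
      · exact ⟨h1, x, h2, Or.inl rfl⟩
      · exact ⟨h1, y, h2, Or.inr rfl⟩
  have e0 := we_Qr_two F hF
  let P1 := (univ : Finset (Fin n × Fin n)).filter fun p => (p.1 ≠ p.2 ∧ ¬ h p.1 p.2) ∧ p.1 ∈ S
  let P2 := (univ : Finset (Fin n × Fin n)).filter fun p => (p.1 ≠ p.2 ∧ ¬ h p.1 p.2) ∧ p.2 ∈ S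
  have e1 : ((univ : Finset (Fin n × Fin n)).filter fun p => s(p.1, p.2) ∈ F) = P1 ∪ P2 := by
    ext ⟨x, y⟩
    simp only [P1, P2, mem_filter, mem_univ, true_and, mem_union, hFm]
    tauto
  have e2 : P2.card = P1.card := by
    refine card_bij (fun p _ => p.swap) ?_ ?_ ?_
    · rintro ⟨x, y⟩ hp
      simp only [P1, P2, mem_filter, mem_univ, true_and, Prod.swap] at hp ⊢
      exact ⟨⟨fun h1 => hp.1.1 h1.symm, fun h1 => hp.1.2 (hs _ _ h1)⟩, hp.2⟩
    · intro p _ q _ hpq
      exact Prod.swap_injective hpq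
    · rintro ⟨x, y⟩ hp
      refine ⟨(y, x), ?_, rfl⟩
      simp only [P1, P2, mem_filter, mem_univ, true_and] at hp ⊢
      exact ⟨⟨fun h1 => hp.1.1 h1.symm, fun h1 => hp.1.2 (hs _ _ h1)⟩, hp.2⟩
  have e3 : P1.card + ∑ x ∈ S, (univ.filter fun y => h x y).card + S.card = S.card * n := by
    have h1 : P1.card = ∑ x ∈ S, (univ.filter fun y : Fin n => x ≠ y ∧ ¬ h x y).card := by
      rw [← card_sigma]
      refine card_bij (fun p _ => ⟨p.1, p.2⟩) ?_ ?_ ?_
      · rintro ⟨x, y⟩ hp
        simp only [P1, mem_filter, mem_univ, true_and, mem_sigma] at hp ⊢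
        exact ⟨hp.2, hp.1⟩
      · rintro ⟨x, y⟩ _ ⟨x', y'⟩ _ heq
        simp only [Sigma.mk.injEq, heq_eq_eq] at heq
        rw [heq.1, heq.2]
      · rintro ⟨x, y⟩ hp
        refine ⟨(x, y), ?_, rfl⟩
        simp only [P1, mem_filter, mem_univ, true_and, mem_sigma] at hp ⊢
        exact ⟨hp.2, hp.1⟩
    have h2 : ∀ x : Fin n, (univ.filter fun y : Fin n => x ≠ y ∧ ¬ h x y).card +
        (univ.filter fun y => h x y).card + 1 = n := by
      intro x
      have h3 : (univ.filter fun y : Fin n => x ≠ y ∧ ¬ h x y).card +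
          (univ.filter fun y => h x y).card = (univ.filter fun y : Fin n => x ≠ y).card := by
        rw [← card_union_of_disjoint]
        · congr 1
          ext y
          simp only [mem_union, mem_filter, mem_univ, true_and]
          have := hne x y
          tauto
        · rw [disjoint_left]
          intro y h4 h5
          exact (mem_filter.1 h4).2.2 (mem_filter.1 h5).2
      have h4 : (univ.filter fun y : Fin n => x ≠ y).card + 1 = n := by
        have h5 : (univ.filter fun y : Fin n => x ≠ y) = univ.erase x := by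
          ext y
          simp only [mem_filter, mem_univ, true_and, mem_erase, and_true]
          exact ⟨fun h => h.symm, fun h => h.symm⟩
        rw [h5, card_erase_add_one (mem_univ x), card_univ, Fintype.card_fin]
      rw [h3, h4]
    rw [h1, ← sum_add_distrib, card_eq_sum_ones, ← sum_add_distrib, sum_mul]
    refine sum_congr rfl fun x _ => ?_
    rw [h2 x, one_mul]
  have e4 : (P1 ∩ P2).card + ((S ×ˢ S).filter fun p => h p.1 p.2).card + S.card =
      S.card * S.card := by
    have h1 : (P1 ∩ P2) = (S ×ˢ S).filter fun p => p.1 ≠ p.2 ∧ ¬ h p.1 p.2 := by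
      ext ⟨x, y⟩
      simp only [P1, P2, mem_inter, mem_filter, mem_univ, true_and, mem_product]
      tauto
    have h2 : ((S ×ˢ S).filter fun p => p.1 ≠ p.2 ∧ ¬ h p.1 p.2).card +
        ((S ×ˢ S).filter fun p => h p.1 p.2).card =
        ((S ×ˢ S).filter fun p => p.1 ≠ p.2).card := by
      rw [← card_union_of_disjoint]
      · congr 1
        ext ⟨x, y⟩
        simp only [mem_union, mem_filter, mem_product]
        have := hne x y
        tauto
      · rw [disjoint_left]
        intro y h4 h5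
        exact (mem_filter.1 h4).2.2 (mem_filter.1 h5).2
    have h3 : ((S ×ˢ S).filter fun p => p.1 ≠ p.2).card + S.card = S.card * S.card := by
      have h4 : ((S ×ˢ S).filter fun p => p.1 = p.2).card = S.card := by
        refine (card_bij (fun x _ => (x, x)) ?_ ?_ ?_).symm
        · intro x hx
          simp [hx]
        · intro x _ y _ hxy
          exact (Prod.mk.inj hxy).1
        · rintro ⟨x, y⟩ hp
          simp only [mem_filter, mem_product] at hp
          obtain ⟨⟨hx, hy⟩, rfl⟩ := hp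
          exact ⟨x, hx, rfl⟩
      have h5 := card_filter_add_card_filter_not (s := S ×ˢ S) (fun p : Fin n × Fin n => p.1 = p.2)
      rw [h4, card_product] at h5
      rw [← h5]
      simp only [ne_eq]
      ring
    rw [h1, h2, h3]
  have e5 := card_union_add_card_inter P1 P2
  rw [← e1, e0] at e5
  have e6 : P1.card = S.card * n - S.card - ∑ x ∈ S, (univ.filter fun y => h x y).card := by
    omega
  nlinarith [e2, e3, e4, e5]

theorem we_Qr_second {n m : ℕ} (ι : Fin n ↪ (Fin m → ZMod 5)) (S : Finset (Fin n)) :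
    ∑ v : Fin n, (((S.filter fun x => ∑ i, ι x i * ι v i = 1).card : ℝ) - S.card / 5) ^ 2 ≤
      10 * (S.card : ℝ) * (5 : ℝ) ^ m := by
  have h := qr_second (S.map ι)
  rw [card_map] at h
  have h1 : ∀ y : Fin m → ZMod 5, ((S.map ι).filter fun x => ∑ i, x i * y i = 1).card =
      (S.filter fun x => ∑ i, ι x i * y i = 1).card := by
    intro y
    rw [filter_map, card_map]
    rfl
  simp only [h1] at h
  refine le_trans ?_ h
  have h2 : ∑ v : Fin n, (((S.filter fun x => ∑ i, ι x i * ι v i = 1).card : ℝ) - S.card / 5) ^ 2 =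
      ∑ y ∈ (univ : Finset (Fin n)).map ι,
        (((S.filter fun x => ∑ i, ι x i * y i = 1).card : ℝ) - S.card / 5) ^ 2 := by
    rw [sum_map]
  rw [h2]
  exact sum_le_sum_of_subset_of_nonneg (subset_univ _) fun y _ _ => sq_nonneg _

theorem we_Qr_m (n : ℕ) (hn : 1 ≤ n) : ∃ m : ℕ, n ≤ 5 ^ m ∧ 5 ^ m ≤ 5 * n := by
  have hex : ∃ m : ℕ, n ≤ 5 ^ m := ⟨n, (Nat.lt_pow_self (by norm_num)).le⟩
  classical
  refine ⟨Nat.find hex, Nat.find_spec hex, ?_⟩
  rcases Nat.eq_zero_or_pos (Nat.find hex) with h | h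
  · rw [h, pow_zero]
    omega
  · have h1 := Nat.find_min hex (m := Nat.find hex - 1) (by omega)
    obtain ⟨t, ht⟩ : ∃ t, Nat.find hex = t + 1 := ⟨Nat.find hex - 1, by omega⟩
    rw [ht] at h1 ⊢
    rw [Nat.add_sub_cancel] at h1
    rw [pow_succ]
    omega

theorem we_Qr_main {n : ℕ} (ε K : ℝ) (hε : 0 < ε) (hK : K = 3200 / ε ^ 2) (hn3 : 1 ≤ n)
    (ha : 50 ≤ ε ^ 2 * n) (hb : 2 + 2 * K ≤ 3 / 4 * ε * n)
    (A : Fin n → Fin n → Prop) [DecidableRel A] (hAs : ∀ x y, A x y ↔ A y x)
    (hsec : ∀ S : Finset (Fin n),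
      ∑ v : Fin n, (((S.filter fun x => A x v).card : ℝ) - S.card / 5) ^ 2 ≤
        50 * (n : ℝ) * S.card) :
    ∃ H : Finset (Sym2 (Fin n)),
    H ⊆ board n ∧
    ((univ.filter fun v : Fin n =>
      ((H.filter fun e => v ∈ e).card : ℝ) < (1 / 5 - ε) * n).card : ℝ) ≤ ε * n ∧
    ∀ S : Finset (Fin n), 4 / 5 * S.card * (n - S.card / 2) - ε * n * S.card ≤
      ((((board n \ H).filter fun e => ∃ v ∈ S, v ∈ e).card : ℕ) : ℝ) := by
  have hε2 : 0 < ε ^ 2 := by positivity
  have hK0 : 0 < K := by rw [hK]; positivity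
  have hnR : (1 : ℝ) ≤ n := by exact_mod_cast hn3
  obtain ⟨X, hX⟩ : ∃ X : Finset (Fin n), X = univ.filter fun v : Fin n =>
    ε / 8 * n < |((univ.filter fun x => A x v).card : ℝ) - n / 5| := ⟨_, rfl⟩
  have hXm : ∀ v, v ∉ X → |((univ.filter fun x => A x v).card : ℝ) - n / 5| ≤ ε / 8 * n := by
    intro v hv
    by_contra hc
    exact hv (by rw [hX, mem_filter]; exact ⟨mem_univ _, not_le.1 hc⟩)
  have hXc : (X.card : ℝ) ≤ K := by
    have h1 := hsec univ
    rw [card_univ, Fintype.card_fin] at h1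
    have h2 : ∑ v ∈ X, (ε / 8 * (n : ℝ)) ^ 2 ≤
        ∑ v : Fin n, (((univ.filter fun x => A x v).card : ℝ) - n / 5) ^ 2 := by
      refine le_trans (sum_le_sum fun v hv => ?_)
        (sum_le_sum_of_subset_of_nonneg (subset_univ X) fun y _ _ => sq_nonneg _)
      rw [hX, mem_filter] at hv
      rw [← sq_abs (((univ.filter fun x => A x v).card : ℝ) - n / 5)]
      exact pow_le_pow_left₀ (by positivity) hv.2.le 2
    rw [sum_const, nsmul_eq_mul] at h2
    have h3 := h2.trans h1
    have h4 : (X.card : ℝ) * ε ^ 2 ≤ 3200 := by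
      have h5 : (0 : ℝ) < (n : ℝ) ^ 2 := by positivity
      have h6 : (X.card : ℝ) * ε ^ 2 * (n : ℝ) ^ 2 ≤ 3200 * (n : ℝ) ^ 2 := by nlinarith [h3]
      exact le_of_mul_le_mul_right h6 h5
    rw [hK]
    exact (le_div_iff₀ hε2).2 h4
  obtain ⟨h, hhd, hh⟩ : ∃ (h : Fin n → Fin n → Prop) (_ : DecidableRel h),
      ∀ x y, h x y ↔ (x ≠ y ∧ A x y ∧ x ∉ X ∧ y ∉ X) :=
    ⟨fun x y => x ≠ y ∧ A x y ∧ x ∉ X ∧ y ∉ X, fun x y => inferInstance, fun _ _ => Iff.rfl⟩
  have hhs : ∀ x y, h x y → h y x := fun x y hxy => by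
    have hxy := (hh x y).1 hxy
    exact (hh y x).2 ⟨hxy.1.symm, (hAs x y).1 hxy.2.1, hxy.2.2.2, hxy.2.2.1⟩
  have hhne : ∀ x y, h x y → x ≠ y := fun x y hxy => ((hh x y).1 hxy).1
  obtain ⟨H, hHd⟩ : ∃ H : Finset (Sym2 (Fin n)), H = (board n).filter fun e =>
    ∃ x y, e = s(x, y) ∧ h x y := ⟨_, rfl⟩
  have hHb : H ⊆ board n := by
    rw [hHd]
    exact filter_subset _ _
  have hHm : ∀ x y, s(x, y) ∈ H ↔ h x y := by
    intro x y
    rw [hHd, mem_filter]
    constructor
    · rintro ⟨-, x', y', he, hxy⟩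
      rcases Sym2.eq_iff.1 he with ⟨rfl, rfl⟩ | ⟨rfl, rfl⟩
      · exact hxy
      · exact hhs _ _ hxy
    · intro hxy
      refine ⟨?_, x, y, rfl, hxy⟩
      unfold board
      rw [mem_filter, Sym2.mk_isDiag_iff]
      exact ⟨mem_univ _, hhne _ _ hxy⟩
  have hdeg : ∀ v, (H.filter fun e => v ∈ e).card = (univ.filter fun y => h v y).card := by
    intro v
    rw [we_Qr_deg]
    simp only [hHm]
  -- bounds for the degrees
  have hdu : ∀ v, ((univ.filter fun y => h v y).card : ℝ) ≤ n / 5 + ε / 8 * n := by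
    intro v
    by_cases hv : v ∈ X
    · have h1 : (univ.filter fun y => h v y) = ∅ := by
        rw [filter_eq_empty_iff]
        intro y _ hy
        exact ((hh v y).1 hy).2.2.1 hv
      rw [h1, card_empty, Nat.cast_zero]
      positivity
    · have h1 : (univ.filter fun y => h v y).card ≤ (univ.filter fun x => A x v).card := by
        refine card_le_card fun y hy => ?_
        rw [mem_filter] at hy ⊢
        exact ⟨mem_univ _, (hAs v y).1 ((hh v y).1 hy.2).2.1⟩
      have h2 : ((univ.filter fun y => h v y).card : ℝ) ≤ (univ.filter fun x => A x v).card := by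
        exact_mod_cast h1
      have h3 := (abs_le.1 (hXm v hv)).2
      linarith
  have hdl : ∀ v, v ∉ X → (n : ℝ) / 5 - ε / 8 * n - 1 - K ≤
      ((univ.filter fun y => h v y).card : ℝ) := by
    intro v hv
    have h1 : (univ.filter fun x => A x v).card ≤
        (univ.filter fun y => h v y).card + 1 + X.card := by
      have h2 : (univ.filter fun x => A x v) ⊆ ((univ.filter fun y => h v y) ∪ {v}) ∪ X := by
        intro y hy
        rw [mem_filter] at hy
        rw [mem_union, mem_union, mem_filter, mem_singleton]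
        by_cases h3 : y ∈ X
        · exact Or.inr h3
        · by_cases h4 : y = v
          · exact Or.inl (Or.inr h4)
          · exact Or.inl (Or.inl ⟨mem_univ _, (hh v y).2
              ⟨fun h5 => h4 h5.symm, (hAs y v).1 hy.2, hv, h3⟩⟩)
      refine (card_le_card h2).trans ((card_union_le _ _).trans ?_)
      have h3 := card_union_le (univ.filter fun y => h v y) {v}
      rw [card_singleton] at h3
      omega
    have h2 : ((univ.filter fun x => A x v).card : ℝ) ≤
        (univ.filter fun y => h v y).card + 1 + X.card := by exact_mod_cast h1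
    have h3 := (abs_le.1 (hXm v hv)).1
    linarith
  refine ⟨H, hHb, ?_, fun S => ?_⟩
  · have h1 : (univ.filter fun v : Fin n =>
        ((H.filter fun e => v ∈ e).card : ℝ) < (1 / 5 - ε) * n).card ≤ X.card := by
      refine card_le_card fun v hv => ?_
      by_contra hvX
      rw [mem_filter, hdeg] at hv
      have h2 := hdl v hvX
      have h3 := hv.2
      have h4 : 0 < ε * n := by positivity
      nlinarith
    have h2 : ((univ.filter fun v : Fin n =>
        ((H.filter fun e => v ∈ e).card : ℝ) < (1 / 5 - ε) * n).card : ℝ) ≤ X.card := by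
      exact_mod_cast h1
    have h4 : 0 < ε * n := by positivity
    linarith
  · have h1 := we_Qr_count h hhs hhne H hHm S
    have h1R : 2 * ((((board n \ H).filter fun e => ∃ v ∈ S, v ∈ e).card : ℕ) : ℝ) +
        (S.card : ℝ) * S.card + 2 * (∑ x ∈ S, ((univ.filter fun y => h x y).card : ℝ)) + S.card =
        2 * (S.card * n) + (((S ×ˢ S).filter fun p => h p.1 p.2).card : ℝ) := by
      exact_mod_cast h1
    have h2 : ∑ x ∈ S, ((univ.filter fun y => h x y).card : ℝ) ≤
        S.card * (n / 5 + ε / 8 * n) := by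
      refine (sum_le_sum fun x _ => hdu x).trans ?_
      rw [sum_const, nsmul_eq_mul]
    -- the pairs inside `S`
    have h3 : ∑ v ∈ S, (S.filter fun x => A x v).card ≤
        ((S ×ˢ S).filter fun p => h p.1 p.2).card + S.card + X.card * S.card +
          X.card * S.card := by
      have h4 : ∑ v ∈ S, (S.filter fun x => A x v).card =
          ((S ×ˢ S).filter fun p => A p.2 p.1).card := by
        rw [← card_sigma]
        refine card_bij (fun p _ => (p.1, p.2)) ?_ ?_ ?_
        · rintro ⟨x, y⟩ hp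
          simp only [mem_sigma, mem_filter, mem_product] at hp ⊢
          exact ⟨⟨hp.1, hp.2.1⟩, hp.2.2⟩
        · rintro ⟨x, y⟩ _ ⟨x', y'⟩ _ heq
          simp only [Prod.mk.injEq] at heq
          rw [heq.1, heq.2]
        · rintro ⟨x, y⟩ hp
          refine ⟨⟨x, y⟩, ?_, rfl⟩
          simp only [mem_sigma, mem_filter, mem_product] at hp ⊢
          exact ⟨hp.1.1, hp.1.2, hp.2⟩
      rw [h4]
      have h5 : ((S ×ˢ S).filter fun p => A p.2 p.1) ⊆
          ((((S ×ˢ S).filter fun p => h p.1 p.2) ∪ (S.image fun x => (x, x))) ∪ (X ×ˢ S)) ∪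
            (S ×ˢ X) := by
        rintro ⟨x, y⟩ hp
        simp only [mem_filter, mem_product] at hp
        simp only [mem_union, mem_filter, mem_product, mem_image, Prod.mk.injEq]
        by_cases hx : x ∈ X
        · exact Or.inl (Or.inr ⟨hx, hp.1.2⟩)
        · by_cases hy : y ∈ X
          · exact Or.inr ⟨hp.1.1, hy⟩
          · by_cases hxy : x = y
            · exact Or.inl (Or.inl (Or.inr ⟨x, hp.1.1, rfl, hxy⟩))
            · exact Or.inl (Or.inl (Or.inl ⟨hp.1, (hh x y).2 ⟨hxy, (hAs y x).1 hp.2, hx, hy⟩⟩))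
      refine (card_le_card h5).trans ?_
      have h6 := card_union_le ((((S ×ˢ S).filter fun p => h p.1 p.2) ∪
        (S.image fun x => (x, x))) ∪ (X ×ˢ S)) (S ×ˢ X)
      have h7 := card_union_le (((S ×ˢ S).filter fun p => h p.1 p.2) ∪
        (S.image fun x => (x, x))) (X ×ˢ S)
      have h8 := card_union_le ((S ×ˢ S).filter fun p => h p.1 p.2) (S.image fun x => (x, x))
      have h9 : (S.image fun x => (x, x)).card ≤ S.card := card_image_le
      rw [card_product] at h6 h7
      have h10 : S.card * X.card = X.card * S.card := mul_comm _ _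
      omega
    have h3R : ∑ v ∈ S, ((S.filter fun x => A x v).card : ℝ) ≤
        (((S ×ˢ S).filter fun p => h p.1 p.2).card : ℝ) + S.card + X.card * S.card +
          X.card * S.card := by
      exact_mod_cast h3
    have h4 : (S.card : ℝ) * (S.card / 5) - ε * n * S.card ≤
        ∑ v ∈ S, ((S.filter fun x => A x v).card : ℝ) := by
      have h5 : (∑ v ∈ S, (((S.filter fun x => A x v).card : ℝ) - S.card / 5)) ^ 2 ≤
          (ε * n * S.card) ^ 2 := by
        refine sq_sum_le_card_mul_sum_sq.trans ?_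
        have h6 : ∑ v ∈ S, (((S.filter fun x => A x v).card : ℝ) - S.card / 5) ^ 2 ≤
            50 * (n : ℝ) * S.card :=
          (sum_le_sum_of_subset_of_nonneg (subset_univ S) fun y _ _ => sq_nonneg _).trans (hsec S)
        have h7 := mul_le_mul_of_nonneg_left h6 (Nat.cast_nonneg (α := ℝ) S.card)
        refine h7.trans ?_
        have h8 : (0 : ℝ) ≤ n * (S.card : ℝ) ^ 2 := by positivity
        nlinarith [mul_le_mul_of_nonneg_right ha h8]
      have h6 := (abs_le.1 (abs_le_of_sq_le_sq h5 (by positivity))).1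
      rw [sum_sub_distrib, sum_const, nsmul_eq_mul] at h6
      linarith
    have h5 : (X.card : ℝ) * S.card ≤ K * S.card :=
      mul_le_mul_of_nonneg_right hXc (Nat.cast_nonneg _)
    have h6 : (2 + 2 * K) * S.card ≤ 3 / 4 * ε * n * S.card :=
      mul_le_mul_of_nonneg_right hb (Nat.cast_nonneg _)
    nlinarith [h1R, h2, h3R, h4, h5, h6]

theorem qr (ε : ℝ) (hε : 0 < ε) : ∃ n0 : ℕ, ∀ n ≥ n0, ∃ H : Finset (Sym2 (Fin n)),
    H ⊆ board n ∧
    ((univ.filter fun v : Fin n =>
      ((H.filter fun e => v ∈ e).card : ℝ) < (1 / 5 - ε) * n).card : ℝ) ≤ ε * n ∧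
    ∀ S : Finset (Fin n), 4 / 5 * S.card * (n - S.card / 2) - ε * n * S.card ≤
      ((((board n \ H).filter fun e => ∃ v ∈ S, v ∈ e).card : ℕ) : ℝ) := by
  obtain ⟨K, hK⟩ : ∃ K : ℝ, K = 3200 / ε ^ 2 := ⟨_, rfl⟩
  have hε2 : 0 < ε ^ 2 := by positivity
  have hK0 : 0 < K := by rw [hK]; positivity
  obtain ⟨n1, hn1⟩ := exists_nat_ge (50 / ε ^ 2)
  obtain ⟨n2, hn2⟩ := exists_nat_ge ((2 + 2 * K) / (3 / 4 * ε))
  refine ⟨n1 + n2 + 1, fun n hn => ?_⟩
  have hn3 : 1 ≤ n := by omega
  have hnR : (1 : ℝ) ≤ n := by exact_mod_cast hn3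
  have ha : 50 ≤ ε ^ 2 * n := by
    have h1 : (n1 : ℝ) ≤ n := by exact_mod_cast (by omega : n1 ≤ n)
    have h2 := (div_le_iff₀ hε2).1 (hn1.trans h1)
    linarith
  have hb : 2 + 2 * K ≤ 3 / 4 * ε * n := by
    have h1 : (n2 : ℝ) ≤ n := by exact_mod_cast (by omega : n2 ≤ n)
    have h2 := (div_le_iff₀ (by positivity : (0 : ℝ) < 3 / 4 * ε)).1 (hn2.trans h1)
    linarith
  obtain ⟨m, hm1, hm2⟩ := we_Qr_m n hn3
  have hm2R : (5 : ℝ) ^ m ≤ 5 * n := by exact_mod_cast hm2
  obtain ⟨ι⟩ : Nonempty (Fin n ↪ (Fin m → ZMod 5)) := by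
    refine Function.Embedding.nonempty_of_card_le ?_
    rw [Fintype.card_fin, Fintype.card_fun, ZMod.card, Fintype.card_fin]
    exact hm1
  refine we_Qr_main ε K hε hK hn3 ha hb (fun x y : Fin n => ∑ i, ι x i * ι y i = 1) ?_ ?_
  · intro x y
    show (∑ i, ι x i * ι y i = 1) ↔ (∑ i, ι y i * ι x i = 1)
    simp only [mul_comm]
  · intro S
    refine (we_Qr_second ι S).trans ?_
    have h1 : (0 : ℝ) ≤ 10 * S.card := by positivity
    have h2 := mul_le_mul_of_nonneg_left hm2R h1
    linarith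

end Pool.Agent.Helper72.WE
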