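import Pool.Agent.Helper10.WC.Counts
import Pool.Agent.Helper72.WE.PhaseA
import Pool.Agent.Helper72.WE.PhaseB
import Pool.Agent.Helper72.WE.Qr
import Pool.Agent.Helper72.WE.Num

set_option autoImplicit false

namespace Pool.Agent.Helper72.WE

open Finset Pool.Agent.Helper72.WC

variable {n : ℕ}

/-- The reserved pairs. -/
def Rv (n L : ℕ) : Finset (Sym2 (Fin n)) :=
  ((univ : Finset (Fin n × Fin n)).filter fun p => p.1 ≠ p.2 ∧
    (relA L p.1 p.2 ∨ relB L p.1 p.2)).image fun p => s(p.1, p.2)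

theorem mem_Rv {L : ℕ} {x y : Fin n} :
    s(x, y) ∈ Rv n L ↔ x ≠ y ∧ (relA L x y ∨ relB L x y) := by
  unfold Rv
  rw [mem_image]
  constructor
  · rintro ⟨⟨u, v⟩, h, he⟩
    rw [mem_filter] at h
    obtain ⟨-, h1, h2⟩ := h
    simp only at h1 h2 he
    rw [Sym2.eq_iff] at he
    rcases he with ⟨rfl, rfl⟩ | ⟨rfl, rfl⟩
    · exact ⟨h1, h2⟩
    · exact ⟨h1.symm, h2.imp (fun h => h.symm) (fun h => h.symm)⟩
  · rintro ⟨h1, h2⟩
    exact ⟨(x, y), mem_filter.2 ⟨mem_univ _, h1, h2⟩, rfl⟩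

theorem dgs_Rv {L : ℕ} [NeZero L] (v : Fin n) : dgs (Rv n L) v ≤ 4 * (n / L + 1) := by
  refine le_trans ?_ (card_rel (L := L) v)
  unfold dgs
  refine (card_le_card (t := (univ.filter fun y => relA L v y ∨ relB L v y).image
    fun y => s(v, y)) ?_).trans card_image_le
  intro e he
  rw [mem_filter] at he
  obtain ⟨he1, he2⟩ := he
  obtain ⟨y, rfl⟩ := Sym2.mem_iff_exists.1 he2
  rw [mem_Rv] at he1
  exact mem_image.2 ⟨y, mem_filter.2 ⟨mem_univ _, he1.2⟩, rfl⟩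

theorem touch_le (E : Finset (Sym2 (Fin n))) (S : Finset (Fin n)) {r : ℕ}
    (h : ∀ v, dgs E v ≤ r) : (E.filter fun e => ∃ v ∈ S, v ∈ e).card ≤ S.card * r := by
  classical
  have h1 : (E.filter fun e => ∃ v ∈ S, v ∈ e) ⊆ S.biUnion fun v => E.filter fun e => v ∈ e := by
    intro e he
    rw [mem_filter] at he
    obtain ⟨he1, v, hv, hve⟩ := he
    exact mem_biUnion.2 ⟨v, hv, mem_filter.2 ⟨he1, hve⟩⟩
  refine (card_le_card h1).trans (card_biUnion_le.trans ?_)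
  calc ∑ v ∈ S, (E.filter fun e => v ∈ e).card ≤ ∑ _v ∈ S, r := sum_le_sum fun v _ => h v
    _ = S.card * r := by rw [sum_const, smul_eq_mul]

theorem touch_sdiff (E R : Finset (Sym2 (Fin n))) (S : Finset (Fin n)) :
    (E.filter fun e => ∃ v ∈ S, v ∈ e).card ≤
      ((E \ R).filter fun e => ∃ v ∈ S, v ∈ e).card +
        (R.filter fun e => ∃ v ∈ S, v ∈ e).card := by
  classical
  refine (card_le_card ?_).trans (card_union_le _ _)
  intro e he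
  rw [mem_filter] at he
  by_cases h : e ∈ R
  · exact mem_union_right _ (mem_filter.2 ⟨h, he.2⟩)
  · exact mem_union_left _ (mem_filter.2 ⟨mem_sdiff.2 ⟨he.1, h⟩, he.2⟩)

theorem two_card_board : 2 * (board n).card ≤ n ^ 2 := by
  have h1 : (board n).card ≤ n * (n - 1) / 2 := by
    have h2 : board n = (univ : Finset (Sym2 (Fin n))).filter fun e => ¬ e.IsDiag := rfl
    have h3 := Sym2.card_subtype_not_diag (α := Fin n)
    rw [Fintype.card_subtype, Fintype.card_fin, Nat.choose_two_right] at h3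
    rw [h2, ← h3]
  have h4 : 2 * (n * (n - 1) / 2) ≤ n * (n - 1) := Nat.mul_div_le _ _
  have h5 : n * (n - 1) ≤ n ^ 2 := by
    rw [pow_two]
    exact Nat.mul_le_mul_left _ (Nat.sub_le _ _)
  omega

/-- The needs of the vertices of small degree. -/
theorem sum_need {k m : ℕ} (hm : m ≤ k) (C : Finset (Sym2 (Fin n))) (S : Finset (Fin n)) :
    (∑ v ∈ S, ((k - dg C v : ℕ) : ℝ)) ≤ ((k : ℝ) - m) * S.card +
      ∑ v, ((m - dg C v : ℕ) : ℝ) := by
  have h1 : ∀ v ∈ S, ((k - dg C v : ℕ) : ℝ) ≤ ((k : ℝ) - m) + ((m - dg C v : ℕ) : ℝ) := by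
    intro v _
    have h2 : (k - dg C v) ≤ (k - m) + (m - dg C v) := by omega
    have h3 : ((k - dg C v : ℕ) : ℝ) ≤ ((k - m : ℕ) : ℝ) + ((m - dg C v : ℕ) : ℝ) := by
      exact_mod_cast h2
    rwa [Nat.cast_sub hm] at h3
  calc (∑ v ∈ S, ((k - dg C v : ℕ) : ℝ)) ≤
      ∑ v ∈ S, (((k : ℝ) - m) + ((m - dg C v : ℕ) : ℝ)) := sum_le_sum h1
    _ = ((k : ℝ) - m) * S.card + ∑ v ∈ S, ((m - dg C v : ℕ) : ℝ) := by
      rw [sum_add_distrib, sum_const, nsmul_eq_mul, mul_comm]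
    _ ≤ _ := by
      gcongr
      exact subset_univ _

/-- The expected deficit after phase A. -/
theorem sum_G {b a0 m : ℕ} (hb : 0 < b) {ε : ℝ} (H : Finset (Sym2 (Fin n)))
    (hbad : ((univ.filter fun v : Fin n => dgs H v < a0).card : ℝ) ≤ ε * n) :
    ∑ v, G b (dgs H v) m ≤ n * G b a0 m + m * (ε * n) := by
  classical
  have h1 : ∀ v : Fin n, G b (dgs H v) m ≤ G b a0 m + if dgs H v < a0 then (m : ℝ) else 0 := by
    intro v
    split_ifs with h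
    · have := G_le hb (dgs H v) m
      have := G_nonneg hb a0 m
      linarith
    · rw [add_zero]
      exact G_anti hb m (not_lt.1 h)
  calc ∑ v, G b (dgs H v) m ≤ ∑ v : Fin n, (G b a0 m + if dgs H v < a0 then (m : ℝ) else 0) :=
        sum_le_sum fun v _ => h1 v
    _ = n * G b a0 m + (univ.filter fun v : Fin n => dgs H v < a0).card * (m : ℝ) := by
      rw [sum_add_distrib, sum_const, card_univ, Fintype.card_fin, nsmul_eq_mul, ← sum_filter,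
        sum_const, nsmul_eq_mul]
    _ ≤ _ := by
      have : (0 : ℝ) ≤ m := Nat.cast_nonneg m
      nlinarith

/-- The bracket. -/
theorem bracket {c θ δ ε b n u s R : ℝ} (hθ : 0 < θ) (hε : 0 < ε) (hδ : 0 < δ) (hδ2 : δ ≤ θ / 8)
    (hε2 : ε * c ≤ θ / 32) (hb : 0 ≤ b) (h1 : (c - δ) * b ≤ n) (h2 : n ≤ c * b)
    (hu1 : 1 / 2 ≤ u) (hs : s ≤ θ * b / 4) (hR : R ≤ ε * n) :
    b * ((4 / 5 * c - θ) * u) + s ≤ 4 / 5 * (n * u) - ε * n - R := by
  have h3 : (c - δ) * b * u ≤ n * u := mul_le_mul_of_nonneg_right h1 (by linarith)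
  have h4 : ε * n ≤ θ / 32 * b := by
    calc ε * n ≤ ε * (c * b) := mul_le_mul_of_nonneg_left h2 hε.le
      _ = (ε * c) * b := by ring
      _ ≤ θ / 32 * b := mul_le_mul_of_nonneg_right hε2 hb
  have h5 : 0 ≤ b * (θ - 4 / 5 * δ) * (u - 1 / 2) := by
    have : 0 ≤ θ - 4 / 5 * δ := by linarith
    have h6 : 0 ≤ u - 1 / 2 := by linarith
    positivity
  have h7 : 0 ≤ b * (θ / 8 - δ) := mul_nonneg hb (by linarith)
  have h8 : 0 ≤ b * θ := mul_nonneg hb hθ.le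
  nlinarith

theorem dgs_sdiff (E R : Finset (Sym2 (Fin n))) (v : Fin n) :
    dgs E v ≤ dgs (E \ R) v + dgs R v := by
  unfold dgs
  refine (card_le_card ?_).trans (card_union_le _ _)
  intro e he
  rw [mem_filter] at he
  by_cases h : e ∈ R
  · exact mem_union_right _ (mem_filter.2 ⟨h, he.2⟩)
  · exact mem_union_left _ (mem_filter.2 ⟨mem_sdiff.2 ⟨he.1, h⟩, he.2⟩)

/-- The hypothesis of `phaseB`. -/
theorem need_of_good {k b s : ℕ} {c θ δ ε : ℝ} (hθ : 0 < θ) (hε : 0 < ε) (hδ : 0 < δ)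
    (hδ2 : δ ≤ θ / 8) (hε2 : ε * (c + k + 1) ≤ θ / 32) (hε3 : ε ≤ 1 / 20)
    (hc : 2 ≤ c) (hδ3 : δ ≤ 1 / 4) (hn : 0 < n) (hb : 0 < b)
    (h1 : (c - δ) * b ≤ n) (h2 : (n : ℝ) ≤ c * b) (hs : (s : ℝ) ≤ θ * b / 4)
    (hgood : ∀ a : ℕ, (c / 5 - θ) * b ≤ a → ∀ σ : ℝ, 0 ≤ σ → σ ≤ 1 → ∃ m : ℕ, m ≤ k ∧
      ((k : ℝ) - m) * σ + (if m = 0 then 0 else θ) + G b a m ≤
        (4 / 5 * c - θ) * σ * (1 - σ / 2))
    {H0 R C : Finset (Sym2 (Fin n))} {r : ℕ} (hr : (r : ℝ) ≤ ε * n) (hR : ∀ v, dgs R v ≤ r)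
    (hdeg : ((univ.filter fun v : Fin n =>
      ((H0.filter fun e => v ∈ e).card : ℝ) < (1 / 5 - ε) * n).card : ℝ) ≤ ε * n)
    (htouch : ∀ S : Finset (Fin n), 4 / 5 * S.card * (n - S.card / 2) - ε * n * S.card ≤
      ((((board n \ H0).filter fun e => ∃ v ∈ S, v ∈ e).card : ℕ) : ℝ))
    (hpot : ∀ m ≤ k, ∑ v, ((m - dg C v : ℕ) : ℝ) ≤ ∑ v, G b (dgs (H0 \ R) v) m + ε * n)
    (S : Finset (Fin n)) :
    ∑ v ∈ S, ((k - dg C v) * b + s) ≤
      (((board n \ H0) \ R).filter fun e => ∃ v ∈ S, v ∈ e).card := by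
  classical
  have hk0 : (0 : ℝ) ≤ k := Nat.cast_nonneg k
  have hn' : (0 : ℝ) < n := by exact_mod_cast hn
  have hb' : (0 : ℝ) < b := by exact_mod_cast hb
  have hεc : ε * c ≤ θ / 32 := by nlinarith
  have hεk : ε * (k + 1) ≤ θ := by nlinarith
  set a0 : ℕ := ⌈(c / 5 - θ) * b⌉₊ with ha0
  have ha : (c / 5 - θ) * b ≤ a0 := Nat.le_ceil _
  set σ : ℝ := S.card / n with hσ
  have hSn : (S.card : ℝ) ≤ n := by
    have : S.card ≤ n := by simpa using card_le_univ S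
    exact_mod_cast this
  have hσ0 : 0 ≤ σ := by positivity
  have hσ1 : σ ≤ 1 := by
    rw [hσ, div_le_one hn']
    exact hSn
  have hSσ : (S.card : ℝ) = σ * n := by
    rw [hσ]
    field_simp
  obtain ⟨m, hm, hm2⟩ := hgood a0 ha σ hσ0 hσ1
  -- the bad vertices
  have hbad : ((univ.filter fun v : Fin n => dgs (H0 \ R) v < a0).card : ℝ) ≤ ε * n := by
    refine le_trans ?_ hdeg
    rw [Nat.cast_le]
    refine card_le_card ?_
    intro v hv
    rw [mem_filter] at hv ⊢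
    refine ⟨mem_univ _, ?_⟩
    have h3 : ((dgs (H0 \ R) v : ℕ) : ℝ) < (c / 5 - θ) * b := by
      have := hv.2
      rw [ha0, Nat.lt_ceil] at this
      exact this
    by_contra h4
    rw [not_lt] at h4
    have h5 : (dgs H0 v : ℝ) ≤ dgs (H0 \ R) v + r := by
      have h6 := dgs_sdiff H0 R v
      have h7 := hR v
      exact_mod_cast (by omega : dgs H0 v ≤ dgs (H0 \ R) v + r)
    have h8 : (1 / 5 - ε) * n ≤ (dgs H0 v : ℝ) := h4
    have h9 : (1 / 5 - 2 * ε) * ((c - δ) * b) ≤ (1 / 5 - 2 * ε) * n :=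
      mul_le_mul_of_nonneg_left h1 (by linarith)
    have h10 : (c / 5 - θ) * b ≤ (1 / 5 - 2 * ε) * ((c - δ) * b) := by
      have h11 : c / 5 - θ ≤ (1 / 5 - 2 * ε) * (c - δ) := by nlinarith
      calc (c / 5 - θ) * b ≤ ((1 / 5 - 2 * ε) * (c - δ)) * b :=
            mul_le_mul_of_nonneg_right h11 hb'.le
        _ = _ := by ring
    nlinarith
  -- the needs
  have hneed : (∑ v ∈ S, ((k - dg C v : ℕ) : ℝ)) ≤
      n * ((4 / 5 * c - θ) * σ * (1 - σ / 2)) := by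
    refine le_trans ?_ (mul_le_mul_of_nonneg_left hm2 hn'.le)
    have h3 := sum_need hm C S
    by_cases hm0 : m = 0
    · subst hm0
      have h4 : ∑ v, ((0 - dg C v : ℕ) : ℝ) = 0 := by simp
      rw [h4, hSσ] at h3
      rw [G_zero, if_pos rfl]
      linarith
    · rw [if_neg hm0]
      have h4 := hpot m hm
      have h5 := sum_G (m := m) hb (H0 \ R) hbad
      have h6 : (m : ℝ) ≤ k := by exact_mod_cast hm
      have h7 : (m : ℝ) * (ε * n) ≤ k * (ε * n) :=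
        mul_le_mul_of_nonneg_right h6 (by positivity)
      have h8 : ε * (k + 1) * n ≤ θ * n := mul_le_mul_of_nonneg_right hεk hn'.le
      rw [hSσ] at h3
      nlinarith
  -- the supply
  have h3 := htouch S
  have h4 := touch_sdiff (board n \ H0) R S
  have h5 := touch_le R S hR
  have h6 : ((((board n \ H0).filter fun e => ∃ v ∈ S, v ∈ e).card : ℕ) : ℝ) ≤
      ((((board n \ H0) \ R).filter fun e => ∃ v ∈ S, v ∈ e).card : ℕ) + S.card * r := by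
    exact_mod_cast h4.trans (Nat.add_le_add_left h5 _)
  have h7 := bracket (c := c) (θ := θ) (δ := δ) (ε := ε) (b := b) (n := n) (u := 1 - σ / 2)
    (s := s) (R := r) hθ hε hδ hδ2 hεc hb'.le h1 h2 (by linarith) hs hr
  have h8 : σ * n * (b * ((4 / 5 * c - θ) * (1 - σ / 2)) + s) ≤
      σ * n * (4 / 5 * (n * (1 - σ / 2)) - ε * n - r) :=
    mul_le_mul_of_nonneg_left h7 (mul_nonneg hσ0 hn'.le)
  have h9 : ((∑ v ∈ S, ((k - dg C v) * b + s) : ℕ) : ℝ) =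
      b * ∑ v ∈ S, ((k - dg C v : ℕ) : ℝ) + S.card * s := by
    push_cast
    rw [sum_add_distrib, sum_const, nsmul_eq_mul, mul_sum]
    congr 1
    exact sum_congr rfl fun v _ => mul_comm _ _
  have h10 : (b : ℝ) * ∑ v ∈ S, ((k - dg C v : ℕ) : ℝ) ≤
      b * (n * ((4 / 5 * c - θ) * σ * (1 - σ / 2))) := mul_le_mul_of_nonneg_left hneed hb'.le
  have h11 : ((∑ v ∈ S, ((k - dg C v) * b + s) : ℕ) : ℝ) ≤
      ((((board n \ H0) \ R).filter fun e => ∃ v ∈ S, v ∈ e).card : ℕ) := by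
    rw [h9]
    rw [hSσ] at h3 h6 ⊢
    nlinarith
  exact_mod_cast h11

theorem mainE {k : ℕ} (hk : 2 ≤ k) {c : ℝ} (hc : 2 ≤ c) (hgood : Good k c) :
    ∃ δ : ℝ, 0 < δ ∧ δ ≤ 1 / 4 ∧ ∃ L0 : ℕ, ∀ L ≥ L0, ∃ Δ : ℕ, k ≤ Δ ∧ ∀ l : ℕ, ∃ n0 : ℕ,
    ∀ n ≥ n0, ∀ b : ℕ, (c - δ) * b ≤ n → (n : ℝ) ≤ c * b →
    Force b (fun U C => C ⊆ board n ∧ U ⊆ board n ∧ Disjoint C U ∧
      (∀ x y : Fin n, x ≠ y → (relA L x y ∨ relB L x y) → s(x, y) ∈ U) ∧
      (∀ x, k ≤ dg C x) ∧ (∀ x, dg C x ≤ Δ) ∧ Sp l C) (board n) ∅ := by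
  classical
  obtain ⟨θ, hθ, b0, hg⟩ := hgood
  have hk0 : (0 : ℝ) ≤ k := Nat.cast_nonneg k
  have hc0 : 0 < c := by linarith
  set ε : ℝ := min (θ / (32 * (c + k + 1))) (1 / 20) with hε
  have hεpos : 0 < ε := lt_min (by positivity) (by norm_num)
  have hε2 : ε * (c + k + 1) ≤ θ / 32 := by
    have h1 : ε ≤ θ / (32 * (c + k + 1)) := min_le_left _ _
    have h2 : 0 < c + k + 1 := by positivity
    calc ε * (c + k + 1) ≤ θ / (32 * (c + k + 1)) * (c + k + 1) :=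
          mul_le_mul_of_nonneg_right h1 h2.le
      _ = θ / 32 := by
          rw [div_mul_eq_mul_div, div_eq_div_iff (by positivity) (by norm_num)]
          ring
  have hε3 : ε ≤ 1 / 20 := min_le_right _ _
  refine ⟨min (θ / 8) (1 / 4), lt_min (by positivity) (by norm_num), min_le_right _ _, ?_⟩
  set δ : ℝ := min (θ / 8) (1 / 4) with hδ
  have hδpos : 0 < δ := lt_min (by positivity) (by norm_num)
  have hδ2 : δ ≤ θ / 8 := min_le_left _ _
  have hδ3 : δ ≤ 1 / 4 := min_le_right _ _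
  obtain ⟨L1, hL1⟩ := exists_nat_gt (8 / ε)
  obtain ⟨Δ0, hΔ0⟩ := phaseA k c ε (by linarith) hεpos
  obtain ⟨Δ1, hΔ1⟩ := exists_nat_gt (8 * c ^ 2 / θ)
  obtain ⟨nq, hnq⟩ := qr ε hεpos
  refine ⟨L1 + 1, fun L hL => ⟨Δ0 + Δ1 + k, by omega, fun l => ?_⟩⟩
  set Δ := Δ0 + Δ1 + k with hΔ
  have : NeZero L := ⟨by omega⟩
  obtain ⟨na, hna⟩ := hΔ0 Δ (by omega) l
  obtain ⟨n1, hn1⟩ := exists_nat_gt (c * (8 * (((Δ + 1 : ℕ) : ℝ) ^ l + 1) / θ))
  obtain ⟨n2, hn2⟩ := exists_nat_gt (c * b0)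
  refine ⟨na + nq + n1 + n2 + L1 + 1, fun n hn b hb1 hb2 => ?_⟩
  have hn0 : 0 < n := by omega
  have hn0' : (0 : ℝ) < n := by exact_mod_cast hn0
  have hbpos : 0 < b := by
    rcases Nat.eq_zero_or_pos b with h0 | h0
    · subst h0
      norm_num at hb2
      omega
    · exact h0
  have hbpos' : (0 : ℝ) < b := by exact_mod_cast hbpos
  have hbn : b ≤ n := by
    have : (b : ℝ) ≤ n := by nlinarith
    exact_mod_cast this
  have hbb0 : b0 ≤ b := by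
    have h1 : (n2 : ℝ) ≤ n := by exact_mod_cast (by omega : n2 ≤ n)
    have h2 : c * (b0 : ℝ) ≤ c * b := by linarith
    exact_mod_cast le_of_mul_le_mul_left h2 hc0
  have hbΔ : 8 * (((Δ + 1 : ℕ) : ℝ) ^ l + 1) / θ ≤ b := by
    have h1 : (n1 : ℝ) ≤ n := by exact_mod_cast (by omega : n1 ≤ n)
    exact le_of_mul_le_mul_left (hn1.le.trans (h1.trans hb2)) hc0
  rw [div_le_iff₀ hθ] at hbΔ
  -- the reserved pairs
  have hr : ((4 * (n / L + 1) : ℕ) : ℝ) ≤ ε * n := by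
    have h1 : ((n / L : ℕ) : ℝ) ≤ n / L := Nat.cast_div_le
    have h2 : (8 / ε : ℝ) ≤ L := hL1.le.trans (by exact_mod_cast (by omega : L1 ≤ L))
    have h3 : (8 / ε : ℝ) ≤ n := hL1.le.trans (by exact_mod_cast (by omega : L1 ≤ n))
    have hL0 : (0 : ℝ) < L := lt_of_lt_of_le (by positivity) h2
    rw [div_le_iff₀ hεpos] at h2 h3
    have h4 : (n : ℝ) / L ≤ ε * n / 8 := by
      rw [div_le_iff₀ hL0]
      nlinarith
    push_cast
    linarith
  obtain ⟨H0, hH0, hdeg, htouch⟩ := hnq n (by omega)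
  set s : ℕ := ⌊θ * b / 4⌋₊ with hs
  set s' : ℕ := ⌊θ * b / 8⌋₊ with hs'
  have hs1 : (s : ℝ) ≤ θ * b / 4 := Nat.floor_le (by positivity)
  have hs2 : θ * b / 4 < s + 1 := Nat.lt_floor_add_one _
  have hs1' : (s' : ℝ) ≤ θ * b / 8 := Nat.floor_le (by positivity)
  have hs2' : θ * b / 8 < s' + 1 := Nat.lt_floor_add_one _
  have hss : s' + (Δ + 1) ^ l ≤ s := by
    have h1 : ((s' + (Δ + 1) ^ l : ℕ) : ℝ) < ((s + 1 : ℕ) : ℝ) := by
      push_cast at hbΔ ⊢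
      linarith
    have h2 : s' + (Δ + 1) ^ l < s + 1 := by exact_mod_cast h1
    omega
  have hcard : 2 * (board n).card < b * Δ * (s' + 1) := by
    have h1 : 2 * (board n).card ≤ n ^ 2 := two_card_board
    have h2 : ((n ^ 2 : ℕ) : ℝ) < ((b * Δ * (s' + 1) : ℕ) : ℝ) := by
      push_cast
      have h3 : (n : ℝ) ^ 2 ≤ (c * b) ^ 2 := pow_le_pow_left₀ hn0'.le hb2 2
      have h4 : 8 * c ^ 2 / θ < (Δ : ℝ) :=
        hΔ1.trans_le (by exact_mod_cast (by omega : Δ1 ≤ Δ))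
      rw [div_lt_iff₀ hθ] at h4
      have h5 : c ^ 2 * (b : ℝ) ^ 2 ≤ (b * Δ) * (θ * b / 8) := by
        have : 0 ≤ (b : ℝ) ^ 2 := by positivity
        nlinarith
      have hΔpos : (0 : ℝ) < Δ := by
        by_contra h
        rw [not_lt] at h
        nlinarith
      have h6 : (b * Δ : ℝ) * (θ * b / 8) < (b * Δ) * (s' + 1) :=
        mul_lt_mul_of_pos_left hs2' (by positivity)
      nlinarith
    have h3 : n ^ 2 < b * Δ * (s' + 1) := by exact_mod_cast h2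
    omega
  set R := Rv n L with hR
  have hHR : H0 \ R ⊆ board n := sdiff_subset.trans hH0
  refine (hna n (by omega) b hbpos hbn hb2 (H0 \ R) hHR).trans ?_
  rintro U C ⟨hC, hU, hd, hHU, hdg, hsp, hcnt, hpot⟩
  have hGU : (board n \ H0) \ R ⊆ U := by
    intro e he
    rw [mem_sdiff, mem_sdiff] at he
    exact hHU (mem_sdiff.2 ⟨he.1.1, fun h => he.1.2 (mem_sdiff.1 h).1⟩)
  refine (phaseB (s := s) (s' := s') hbpos (by omega) hC hU hd hGU hdg hsp hcnt hss hcard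
    fun S _ => need_of_good hθ hεpos hδpos hδ2 hε2 hε3 hc hδ3 hn0 hbpos hb1 hb2 hs1
      (hg b hbb0) hr (fun v => dgs_Rv v) hdeg htouch hpot S).mono ?_
  rintro U' C' ⟨hC', hU', hd', hUU', hlo, hup, hsp'⟩
  refine ⟨hC', hU', hd', fun x y hxy hrel => hUU' (mem_sdiff.2 ⟨hHU (mem_sdiff.2 ⟨?_, ?_⟩), ?_⟩),
    hlo, hup, hsp'⟩
  · simpa [board] using hxy
  · exact fun h => (mem_sdiff.1 h).2 (mem_Rv.2 ⟨hxy, hrel⟩)
  · exact fun h => (mem_sdiff.1 h).2 (mem_Rv.2 ⟨hxy, hrel⟩)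

end Pool.Agent.Helper72.WE
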