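import Pool.Agent.Helper72.WC.Lower
import Pool.Agent.Helper72.WD.Seeds
import Pool.Agent.Helper72.WE.Clus
import Pool.Agent.Helper72.WE.Main

set_option autoImplicit false

namespace Pool.Agent.Helper72.WE

open Finset Pool.Agent.Helper72.WC

variable {n : ℕ}

/-- After the main stage: the clusters, the seeds and the attachments. -/
theorem after_main {k L Δ M K0 l b n : ℕ} (hk : 2 ≤ k) (hL : 20 ≤ L) (hM : M = 32 * k * L ^ 2)
    (hK0 : K0 = (Δ + 1) ^ (2 * M)) (hl : l = M + (k - 1) * K0 + k) (hb : 0 < b) (hbn : b ≤ n)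
    (hkn : k < n) (hn1 : 3 * L * (k + 1 + k * K0 * (K0 + 1) ^ L) ≤ n) (hn2 : 6 * k * L ≤ n)
    {U1 C1 : Finset (Sym2 (Fin n))} (hC1 : C1 ⊆ board n)
    (hres : ∀ x y : Fin n, x ≠ y → (relA L x y ∨ relB L x y) → s(x, y) ∈ U1)
    (hlo : ∀ x, k ≤ dg C1 x) (hup : ∀ x, dg C1 x ≤ Δ) (hsp : Sp l C1) :
    Force b (fun _ C => KConn k (gr C)) U1 C1 := by
  classical
  have hL0 : 0 < L := by omega
  have : NeZero L := ⟨by omega⟩
  set c1 := k * K0 * (K0 + 1) ^ L with hc1
  obtain ⟨f, hff, hconn, hcl1, hcl2⟩ := clustersM (M := M) (l := l) hC1 (by omega) hsp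
    (fun x => hk.trans (hlo x)) hup
  rw [← hK0] at hcl2
  obtain ⟨g, hg, hg2⟩ := split (L := L) (k := k) (K0 := K0) (by omega) hff hcl2
  have hclass : ∀ (j : Fin k) (r : ZMod L),
      2 * n / (3 * k * L) ≤ (fib L (univ.filter fun v => g v = j) r).card ∧
      (fib L (univ.filter fun v => g v = j) r).card ≤ 2 * (2 * n / (3 * k * L)) := by
    intro j r
    exact lc_class hL0 (by omega) hn1 (card_fib_univ r).1 (card_fib_univ r).2
      (hg2 j r).1 (hg2 j r).2
  set d := 2 * n / (3 * k * L) with hd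
  have hpos : 0 < 3 * k * L := by positivity
  have hd1 : 2 * n < 3 * k * L * (d + 1) := Nat.lt_mul_div_succ _ hpos
  have hd2 : n ≤ 3 * k * L * d := by
    have e1 : 3 * k * L * (d + 1) = 3 * k * L * d + 3 * k * L := by ring
    have e2 : 6 * k * L = 2 * (3 * k * L) := by ring
    omega
  have hdnum : 8 * L * b ≤ d * M := by
    have e1 : 3 * (8 * L * b) ≤ 3 * (d * M) := by
      calc 3 * (8 * L * b) ≤ 3 * (8 * L * n) :=
            Nat.mul_le_mul_left _ (Nat.mul_le_mul_left _ hbn)
        _ ≤ 3 * (8 * L * (3 * k * L * d)) :=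
            Nat.mul_le_mul_left _ (Nat.mul_le_mul_left _ hd2)
        _ = 72 * (k * L ^ 2 * d) := by ring
        _ ≤ 3 * (d * M) := by
          rw [hM]
          have : 3 * (d * (32 * k * L ^ 2)) = 96 * (k * L ^ 2 * d) := by ring
          omega
    omega
  have hdpos : 0 < d := by
    rcases Nat.eq_zero_or_pos d with h0 | h0
    · rw [h0, zero_mul] at hdnum
      have : 0 < 8 * L * b := by positivity
      omega
    · exact h0
  have hMpos : 0 < M := by
    rw [hM]
    positivity
  -- the seeds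
  refine (WD.seeds2 (n := n) (b := b) (L := L) (d := d) (M := M) hb hMpos hdpos hff hg
    (fun j r => (hclass j r).1) (fun j r => (hclass j r).2) hcl1 hdnum hconn
    (fun x y hxy h => hres x y hxy (Or.inl h))).trans ?_
  rintro U2 C2 ⟨hC12, hC2, hU2, hused, X, hX⟩
  have hA : ∀ x y : Fin n, relA L x y → relB L x y → False := by
    intro x y hA hB
    have h3 : (3 : ZMod L) ≠ 0 := by
      intro h
      have : ((3 : ℕ) : ZMod L) = 0 := by exact_mod_cast h
      rw [ZMod.natCast_eq_zero_iff] at this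
      have := Nat.le_of_dvd (by norm_num) this
      omega
    have h4 : (1 : ZMod L) ≠ 0 := by
      intro h
      have : ((1 : ℕ) : ZMod L) = 0 := by exact_mod_cast h
      rw [ZMod.natCast_eq_zero_iff] at this
      have := Nat.le_of_dvd (by norm_num) this
      omega
    rcases hA with hA | hA <;> rcases hB with hB | hB
    · apply h4
      have : rs L x + 1 = rs L x + 2 := hA.symm.trans hB
      linear_combination -this
    · apply h3
      have : rs L x = rs L x + 1 + 2 := by rw [← hA]; exact hB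
      linear_combination -this
    · apply h3
      have : rs L y = rs L y + 1 + 2 := by rw [← hA]; exact hB
      linear_combination -this
    · apply h4
      have : rs L y + 1 = rs L y + 2 := hA.symm.trans hB
      linear_combination -this
  have hAs : ∀ x y : Fin n, relA L x y → relA L y x := fun x y h => h.symm
  -- the attachments
  refine (attach (n := n) (b := b) (L := L) (d := d) (M := M) (by omega) hb hff (X := X)
    ?_ (fun j => (hX j).2.1) (fun j => (hX j).2.2.2) hcl1 ?_ (U := U2) (C := C2) ?_).mono ?_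
  · intro i j hij
    rw [Finset.disjoint_left]
    intro v hvi hvj
    exact hij (((hX i).1 v hvi).symm.trans ((hX j).1 v hvj))
  · have e1 : 2 * b ≤ 8 * L * b := by
      refine Nat.mul_le_mul_right _ ?_
      omega
    rw [mul_comm M d]
    omega
  · intro x y hxy hB
    by_contra hno
    obtain ⟨x', y', hA', he⟩ := hused _ (hres x y hxy (Or.inr hB)) hno
    rw [Sym2.eq_iff] at he
    rcases he with ⟨rfl, rfl⟩ | ⟨rfl, rfl⟩
    · exact hA _ _ hA' hB
    · exact hA _ _ (hAs _ _ hA') hB
  · rintro U3 C3 ⟨hC23, hC3, hatt⟩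
    have hC13 : C1 ⊆ C3 := hC12.trans hC23
    refine criterion (m0 := (k - 1) * K0) (K0 := K0) (by omega) hkn ?_
      (fun v => (hconn v).mono hC13) hcl2 le_rfl (X := X) (fun j => ((hX j).2.2.1).mono hC23) ?_
      hatt
    · intro A hAne hAc
      refine (small_sets hC1 hsp hlo hk hAne (by omega)).trans (Finset.card_le_card ?_)
      refine Finset.sdiff_subset_sdiff ?_ le_rfl
      refine Finset.biUnion_mono fun x _ => ?_
      intro y hy
      simp only [nb, Finset.mem_filter, Finset.mem_univ, true_and] at hy ⊢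
      exact hC13 hy
    · intro i j hij
      rw [Finset.disjoint_left]
      intro v hvi hvj
      exact hij (((hX i).1 v hvi).symm.trans ((hX j).1 v hvj))

/-- Waiter wins with bias `n / (c - δ)`. -/
theorem lower_coreE {k : ℕ} (hk : 2 ≤ k) {c : ℝ} (hc : 2 ≤ c) (hgood : Good k c) :
    ∃ δ : ℝ, 0 < δ ∧ δ ≤ 1 / 4 ∧ ∃ n0 : ℕ, ∀ n ≥ n0, ∀ b : ℕ, (c - δ) * b ≤ n →
      (n : ℝ) ≤ c * b → Win b (fun C => KConn k (gr C)) (board n) ∅ := by
  obtain ⟨δ, hδ, hδ1, L0, hL0⟩ := mainE hk hc hgood
  obtain ⟨Δ, hkΔ, hΔ⟩ := hL0 (L0 + 20) (by omega)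
  set L := L0 + 20 with hL
  set M := 32 * k * L ^ 2 with hM
  set K0 := (Δ + 1) ^ (2 * M) with hK0
  set l := M + (k - 1) * K0 + k with hl
  obtain ⟨n0, hn0⟩ := hΔ l
  refine ⟨δ, hδ, hδ1, n0 + 3 * L * (k + 1 + k * K0 * (K0 + 1) ^ L) + 6 * k * L + k + 1, ?_⟩
  intro n hn b hb1 hb2
  have hn0' : 0 < n := by omega
  have hbpos : 0 < b := by
    rcases Nat.eq_zero_or_pos b with h0 | h0
    · subst h0
      norm_num at hb2
      omega
    · exact h0
  have hbpos' : (0 : ℝ) < b := by exact_mod_cast hbpos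
  have hbn : b ≤ n := by
    have : (b : ℝ) ≤ n := by nlinarith
    exact_mod_cast this
  refine Force.win hbpos (fun C C' h => KConn.mono h) ((hn0 n (by omega) b hb1 hb2).trans ?_)
  rintro U1 C1 ⟨hC1, hU1, _, hres, hlo, hup, hsp⟩
  exact after_main hk (by omega) hM hK0 hl hbpos hbn (by omega) (by omega) (by omega) hC1 hres
    hlo hup hsp

end Pool.Agent.Helper72.WE
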