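import Pool.Agent.Helper72.WE.Num

/-! # Project WE, module Num2: see the header of `Num.lean` -/

set_option autoImplicit false

namespace Pool.Agent.Helper72.WE

private theorem we_Num2_exp {s : ℝ} (hs : 0.699 ≤ s) :
    Real.exp (-s) * (2 + s) ≤ 0.4976 * 2.699 ∧ Real.exp (-s) ≤ 0.4976 := by
  have h1 : (2.01 : ℝ) ≤ Real.exp 0.699 := by
    have h := Real.sum_le_exp_of_nonneg (show (0 : ℝ) ≤ 0.699 by norm_num) 5
    refine le_trans ?_ h
    simp only [Finset.sum_range_succ, Finset.sum_range_zero, Nat.factorial]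
    norm_num
  have h2 : Real.exp (-0.699) ≤ 0.4976 := by
    rw [Real.exp_neg]
    rw [inv_le_comm₀ (Real.exp_pos _) (by norm_num)]
    refine le_trans ?_ h1
    norm_num
  have h3 : Real.exp (-s) = Real.exp (-0.699) * Real.exp (-(s - 0.699)) := by
    rw [← Real.exp_add]
    congr 1
    ring
  have h4 : Real.exp (-(s - 0.699)) * (1 + (s - 0.699)) ≤ 1 := by
    have h5 : (s - 0.699) + 1 ≤ Real.exp (s - 0.699) := Real.add_one_le_exp _
    calc Real.exp (-(s - 0.699)) * (1 + (s - 0.699))
        ≤ Real.exp (-(s - 0.699)) * Real.exp (s - 0.699) :=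
          mul_le_mul_of_nonneg_left (by linarith) (Real.exp_pos _).le
      _ = 1 := by rw [← Real.exp_add]; simp
  have h6 := Real.exp_pos (-(s - 0.699))
  have h7 := Real.exp_pos (-0.699 : ℝ)
  have h8 : Real.exp (-(s - 0.699)) ≤ 1 := by
    rw [Real.exp_le_one_iff]
    linarith
  constructor
  · calc Real.exp (-s) * (2 + s)
        = Real.exp (-0.699) * (Real.exp (-(s - 0.699)) * (2 + s)) := by rw [h3]; ring
      _ ≤ Real.exp (-0.699) * (Real.exp (-(s - 0.699)) * (2.699 * (1 + (s - 0.699)))) := by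
          apply mul_le_mul_of_nonneg_left _ h7.le
          apply mul_le_mul_of_nonneg_left _ h6.le
          linarith
      _ = Real.exp (-0.699) * (Real.exp (-(s - 0.699)) * (1 + (s - 0.699))) * 2.699 := by ring
      _ ≤ Real.exp (-0.699) * 1 * 2.699 := by
          apply mul_le_mul_of_nonneg_right _ (by norm_num)
          exact mul_le_mul_of_nonneg_left h4 h7.le
      _ ≤ 0.4976 * 2.699 := by linarith
  · rw [h3]
    calc Real.exp (-0.699) * Real.exp (-(s - 0.699)) ≤ Real.exp (-0.699) * 1 :=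
          mul_le_mul_of_nonneg_left h8 h7.le
      _ ≤ 0.4976 := by linarith

theorem num2 : Good 2 (7/2) := by
  refine ⟨1 / 1000, by norm_num, 1, fun b hb a ha σ h0 h1 => ?_⟩
  have hb0 : 0 < b := hb
  have hbR : (0 : ℝ) < b := by exact_mod_cast hb0
  have hs : (0.699 : ℝ) ≤ (a : ℝ) / b := by
    rw [le_div_iff₀ hbR]
    linarith
  obtain ⟨e2, e1⟩ := we_Num2_exp hs
  have g1 : G b a 1 ≤ 0.4976 := by
    refine (G_le_F hb0 a 1).trans ?_
    unfold F
    simp only [Finset.sum_range_succ, Finset.sum_range_zero, Nat.factorial]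
    norm_num
    linarith
  have g2 : G b a 2 ≤ 0.4976 * 2.699 := by
    refine (G_le_F hb0 a 2).trans ?_
    unfold F
    simp only [Finset.sum_range_succ, Finset.sum_range_zero, Nat.factorial]
    norm_num
    linarith
  rcases le_total σ 0.57 with h2 | h2
  · refine ⟨0, by norm_num, ?_⟩
    rw [G_zero, if_pos rfl]
    push_cast
    nlinarith
  · rcases le_total σ 0.86 with h3 | h3
    · refine ⟨1, by norm_num, ?_⟩
      rw [if_neg (by norm_num)]
      push_cast
      nlinarith [mul_nonneg (sub_nonneg.2 h2) (sub_nonneg.2 h3)]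
    · refine ⟨2, by norm_num, ?_⟩
      rw [if_neg (by norm_num)]
      push_cast
      nlinarith [mul_nonneg (sub_nonneg.2 h3) (sub_nonneg.2 h1)]

end Pool.Agent.Helper72.WE
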