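import Pool.Agent.Helper72.WE.Num

/-! # Project WE, module Num3: see the header of `Num.lean` -/

set_option autoImplicit false

namespace Pool.Agent.Helper72.WE

theorem we_Num3_exp {s : ℝ} (hs : 209 / 200 ≤ s) : Real.exp (-s) ≤ 353 / 1000 := by
  have h1 : Real.exp (-s) ≤ Real.exp (-(209 / 200)) := by
    apply Real.exp_le_exp.mpr
    linarith
  have h2 : Real.exp (-(209 / 200 : ℝ)) = (Real.exp (209 / 200))⁻¹ := Real.exp_neg _
  have h3 : Real.exp (209 / 200 : ℝ) = Real.exp 1 * Real.exp (9 / 200) := by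
    rw [← Real.exp_add]
    norm_num
  have h4 : (2.7182818283 : ℝ) < Real.exp 1 := Real.exp_one_gt_d9
  have h5 : (9 / 200 : ℝ) + 1 ≤ Real.exp (9 / 200) := Real.add_one_le_exp _
  have h6 : (2.84 : ℝ) ≤ Real.exp (209 / 200) := by
    rw [h3]
    have h7 : (2.7182818283 : ℝ) * (9 / 200 + 1) ≤ Real.exp 1 * Real.exp (9 / 200) :=
      mul_le_mul h4.le h5 (by norm_num) (Real.exp_pos _).le
    have h8 : (2.84 : ℝ) ≤ 2.7182818283 * (9 / 200 + 1) := by norm_num
    exact h8.trans h7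
  have h9 : (Real.exp (209 / 200 : ℝ))⁻¹ ≤ (2.84 : ℝ)⁻¹ :=
    inv_anti₀ (by norm_num) h6
  have h10 : (2.84 : ℝ)⁻¹ ≤ 353 / 1000 := by norm_num
  calc Real.exp (-s) ≤ Real.exp (-(209 / 200)) := h1
    _ = (Real.exp (209 / 200))⁻¹ := h2
    _ ≤ (2.84 : ℝ)⁻¹ := h9
    _ ≤ 353 / 1000 := h10

theorem we_Num3_F1 {s : ℝ} (hs : 209 / 200 ≤ s) : F 1 s ≤ 353 / 1000 := by
  have h : F 1 s = Real.exp (-s) := by
    unfold F
    simp
  rw [h]
  exact we_Num3_exp hs

theorem we_Num3_F3 {s : ℝ} (hs : 209 / 200 ≤ s) : F 3 s ≤ 199 / 100 := by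
  have h : F 3 s = Real.exp (-s) * (3 + 2 * s + s ^ 2 / 2) := by
    unfold F
    simp only [Finset.sum_range_succ, Finset.sum_range_zero, Nat.factorial]
    push_cast
    ring
  have h1 : Real.exp (-s) = Real.exp (-(209 / 200)) * Real.exp (-(s - 209 / 200)) := by
    rw [← Real.exp_add]
    congr 1
    ring
  have hd : 0 ≤ s - 209 / 200 := by linarith
  have h2 : 1 + (s - 209 / 200) + (s - 209 / 200) ^ 2 / 2 ≤ Real.exp (s - 209 / 200) :=
    Real.quadratic_le_exp_of_nonneg hd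
  have h3 : Real.exp (-(s - 209 / 200)) * Real.exp (s - 209 / 200) = 1 := by
    rw [← Real.exp_add]
    simp
  have h4 : 3 + 2 * s + s ^ 2 / 2 ≤
      (3 + 2 * (209 / 200) + (209 / 200) ^ 2 / 2) *
        (1 + (s - 209 / 200) + (s - 209 / 200) ^ 2 / 2) := by
    nlinarith [hd, sq_nonneg (s - 209 / 200)]
  have h5 : 3 + 2 * s + s ^ 2 / 2 ≤
      (3 + 2 * (209 / 200) + (209 / 200) ^ 2 / 2) * Real.exp (s - 209 / 200) :=
    h4.trans (mul_le_mul_of_nonneg_left h2 (by norm_num))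
  have h6 : Real.exp (-(s - 209 / 200)) * (3 + 2 * s + s ^ 2 / 2) ≤
      3 + 2 * (209 / 200) + (209 / 200) ^ 2 / 2 := by
    have h7 := mul_le_mul_of_nonneg_left h5 (Real.exp_pos (-(s - 209 / 200))).le
    calc Real.exp (-(s - 209 / 200)) * (3 + 2 * s + s ^ 2 / 2)
        ≤ Real.exp (-(s - 209 / 200)) *
          ((3 + 2 * (209 / 200) + (209 / 200) ^ 2 / 2) * Real.exp (s - 209 / 200)) := h7
      _ = (3 + 2 * (209 / 200) + (209 / 200) ^ 2 / 2) *
          (Real.exp (-(s - 209 / 200)) * Real.exp (s - 209 / 200)) := by ring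
      _ = 3 + 2 * (209 / 200) + (209 / 200) ^ 2 / 2 := by rw [h3, mul_one]
  have h8 : Real.exp (-(209 / 200 : ℝ)) ≤ 353 / 1000 := we_Num3_exp le_rfl
  rw [h, h1, mul_assoc]
  calc Real.exp (-(209 / 200)) * (Real.exp (-(s - 209 / 200)) * (3 + 2 * s + s ^ 2 / 2))
      ≤ Real.exp (-(209 / 200)) * (3 + 2 * (209 / 200) + (209 / 200) ^ 2 / 2) :=
        mul_le_mul_of_nonneg_left h6 (Real.exp_pos _).le
    _ ≤ 353 / 1000 * (3 + 2 * (209 / 200) + (209 / 200) ^ 2 / 2) :=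
        mul_le_mul_of_nonneg_right h8 (by norm_num)
    _ ≤ 199 / 100 := by norm_num

theorem num3 : Good 3 (21/4) := by
  refine ⟨1 / 200, by norm_num, 1, ?_⟩
  intro b hb a ha σ h0 h1
  have hb0 : 0 < b := by omega
  have hbR : (0 : ℝ) < b := by exact_mod_cast hb0
  have hs : (209 / 200 : ℝ) ≤ (a : ℝ) / b := by
    rw [le_div_iff₀ hbR]
    have : ((21 / 4 : ℝ) / 5 - 1 / 200) = 209 / 200 := by norm_num
    rw [this] at ha
    exact ha
  by_cases hA : σ ≤ 1 / 2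
  · refine ⟨0, by norm_num, ?_⟩
    rw [G_zero]
    simp only [Nat.cast_ofNat, Nat.cast_zero, if_true]
    nlinarith [mul_nonneg h0 (sub_nonneg.mpr hA)]
  · push Not at hA
    by_cases hB : σ ≤ 4 / 5
    · refine ⟨1, by norm_num, ?_⟩
      have hG : G b a 1 ≤ 353 / 1000 := (G_le_F hb0 a 1).trans (we_Num3_F1 hs)
      rw [if_neg one_ne_zero]
      push_cast
      nlinarith [mul_nonneg (sub_nonneg.mpr hA.le) (sub_nonneg.mpr hB), hG]
    · push Not at hB
      refine ⟨3, le_rfl, ?_⟩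
      have hG : G b a 3 ≤ 199 / 100 := (G_le_F hb0 a 3).trans (we_Num3_F3 hs)
      rw [if_neg (by norm_num)]
      push_cast
      nlinarith [mul_nonneg (sub_nonneg.mpr hB.le) (sub_nonneg.mpr h1), hG]

end Pool.Agent.Helper72.WE
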