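import Pool.Agent.Helper72.WE.Num

/-! # Project WE, module Num4: see the header of `Num.lean` -/

set_option autoImplicit false

namespace Pool.Agent.Helper72.WE

private theorem we_num4_exp : Real.exp (-(1399 / 1000 : ℝ)) ≤ 100 / 404 := by
  have h1 : (404 / 100 : ℝ) ≤ Real.exp (1399 / 1000) := by
    refine le_trans ?_ (Real.sum_le_exp_of_nonneg (x := 1399 / 1000) (by norm_num) 8)
    norm_num [Finset.sum_range_succ, Nat.factorial]
  rw [Real.exp_neg, inv_le_comm₀ (Real.exp_pos _) (by norm_num)]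
  refine le_trans (le_of_eq (by norm_num)) h1

private theorem we_num4_F1 (s : ℝ) : F 1 s = Real.exp (-s) := by
  simp [F]

private theorem we_num4_F4 (s : ℝ) :
    F 4 s = Real.exp (-s) * (4 + 3 * s + s ^ 2 + s ^ 3 / 6) := by
  simp only [F, Finset.sum_range_succ, Finset.sum_range_zero]
  norm_num [Nat.factorial]
  ring

private theorem we_num4_mono {s : ℝ} (hs : (1399 / 1000 : ℝ) ≤ s) :
    Real.exp (-s) * (4 + 3 * s + s ^ 2 + s ^ 3 / 6) ≤ 2627 / 1000 := by
  obtain ⟨x, hx0, rfl⟩ : ∃ x : ℝ, 0 ≤ x ∧ s = 1399 / 1000 + x := ⟨s - 1399 / 1000, by linarith, by ring⟩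
  have h1 : 1 + x + x ^ 2 / 2 + x ^ 3 / 6 ≤ Real.exp x := by
    have h2 := Real.sum_le_exp_of_nonneg hx0 4
    refine le_trans (le_of_eq ?_) h2
    norm_num [Finset.sum_range_succ, Nat.factorial]
  have h3 : 4 + 3 * (1399 / 1000 + x) + (1399 / 1000 + x) ^ 2 + (1399 / 1000 + x) ^ 3 / 6 ≤
      (10611 / 1000) * (1 + x + x ^ 2 / 2 + x ^ 3 / 6) := by
    nlinarith [pow_nonneg hx0 2, pow_nonneg hx0 3]
  have h4 : Real.exp (-(1399 / 1000 + x)) = Real.exp (-(1399 / 1000 : ℝ)) * (Real.exp x)⁻¹ := by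
    rw [← Real.exp_neg, ← Real.exp_add]
    congr 1
    ring
  have h5 := Real.exp_pos x
  have h6 := we_num4_exp
  have h7 : (4 + 3 * (1399 / 1000 + x) + (1399 / 1000 + x) ^ 2 + (1399 / 1000 + x) ^ 3 / 6) ≤
      (10611 / 1000) * Real.exp x := h3.trans (by linarith)
  rw [h4, mul_assoc]
  have h8 : (Real.exp x)⁻¹ *
      (4 + 3 * (1399 / 1000 + x) + (1399 / 1000 + x) ^ 2 + (1399 / 1000 + x) ^ 3 / 6) ≤
      10611 / 1000 := by
    rw [inv_mul_le_iff₀ h5, mul_comm (Real.exp x)]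
    exact h7
  have h9 : 0 ≤ (Real.exp x)⁻¹ *
      (4 + 3 * (1399 / 1000 + x) + (1399 / 1000 + x) ^ 2 + (1399 / 1000 + x) ^ 3 / 6) := by
    positivity
  calc _ ≤ (100 / 404 : ℝ) * (10611 / 1000) := mul_le_mul h6 h8 h9 (by norm_num)
    _ ≤ _ := by norm_num

theorem num4 : Good 4 (7) := by
  refine ⟨1 / 1000, by norm_num, 1, fun b hb a ha σ h0 h1 => ?_⟩
  have hb0 : 0 < b := hb
  have hbr : (0 : ℝ) < b := by exact_mod_cast hb0
  have hs : (1399 / 1000 : ℝ) ≤ (a : ℝ) / b := by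
    rw [le_div_iff₀ hbr]
    refine le_trans (le_of_eq ?_) ha
    norm_num
  rcases le_or_gt σ (57 / 100) with h2 | h2
  · refine ⟨0, by norm_num, ?_⟩
    rw [if_pos rfl, G_zero]
    push_cast
    nlinarith [mul_nonneg h0 (sub_nonneg.2 h2)]
  · rcases le_or_gt σ (78 / 100) with h3 | h3
    · refine ⟨1, by norm_num, ?_⟩
      rw [if_neg one_ne_zero]
      have h4 := G_le_F hb0 a 1
      rw [we_num4_F1] at h4
      have h5 : Real.exp (-((a : ℝ) / b)) ≤ 100 / 404 :=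
        (Real.exp_le_exp.2 (by linarith)).trans we_num4_exp
      push_cast
      nlinarith [mul_nonneg (sub_nonneg.2 h2.le) (sub_nonneg.2 h3)]
    · refine ⟨4, le_rfl, ?_⟩
      rw [if_neg (by norm_num)]
      have h4 := G_le_F hb0 a 4
      rw [we_num4_F4] at h4
      have h5 := we_num4_mono hs
      push_cast
      nlinarith [mul_nonneg (sub_nonneg.2 h3.le) (sub_nonneg.2 h1)]

end Pool.Agent.Helper72.WE
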