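import Pool.Agent.Helper72.WE.Num

/-! # Project WE, module Num5: see the header of `Num.lean` -/

set_option autoImplicit false

namespace Pool.Agent.Helper72.WE

/-- The bound of `G_quad` at a level `a0` with `a0 / b` close to `t`. -/
private theorem we_Num5_G {b a a0 m : ℕ} {t A : ℝ} (hb : 0 < b) (haa : a0 ≤ a) (hA : 0 < A)
    (h1 : t - 1 / 2000 ≤ (a0 : ℝ) / b) (h2 : (a0 : ℝ) / b ≤ t) (hm : t ≤ m) :
    4 * A * G b a m ≤ ((m : ℝ) - t + 1 / 2000 + A) ^ 2 + t := by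
  have h3 : G b a m ≤ G b a0 m := G_anti hb m haa
  have h4 := G_quad hb hA a0 m
  have h5 : 4 * A * G b a m ≤ ((m : ℝ) - a0 / b + A) ^ 2 + a0 / b := by
    have h6 : G b a m ≤ (((m : ℝ) - a0 / b + A) ^ 2 + a0 / b) / (4 * A) := h3.trans h4
    rw [le_div_iff₀ (by linarith)] at h6
    linarith
  have h7 : ((m : ℝ) - a0 / b + A) ^ 2 ≤ ((m : ℝ) - t + 1 / 2000 + A) ^ 2 := by
    refine pow_le_pow_left₀ ?_ ?_ 2
    · linarith
    · linarith
  linarith

theorem num5 {k : ℕ} (hk : 5 ≤ k) : Good k (7 / 4 * k) := by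
  refine ⟨1 / 2000, by norm_num, 2000, ?_⟩
  intro b hb a ha σ hσ0 hσ1
  have hk5 : (5 : ℝ) ≤ k := by exact_mod_cast hk
  have hb0 : (2000 : ℝ) ≤ b := by exact_mod_cast hb
  have hbpos : 0 < b := by omega
  have hbr : (0 : ℝ) < b := by linarith
  obtain ⟨t, ht⟩ : ∃ t : ℝ, t = 7 / 20 * k := ⟨_, rfl⟩
  have ht1 : 7 / 4 ≤ t := by linarith
  have hct : 7 / 4 * (k : ℝ) / 5 = t := by rw [ht]; ring
  rw [hct] at ha
  obtain ⟨a0, haa, h1, h2⟩ : ∃ a0 : ℕ, a0 ≤ a ∧ t - 1 / 2000 ≤ (a0 : ℝ) / b ∧ (a0 : ℝ) / b ≤ t := by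
    refine ⟨⌈(t - 1 / 2000) * b⌉₊, Nat.ceil_le.mpr ha, ?_, ?_⟩
    · rw [le_div_iff₀ hbr]
      exact Nat.le_ceil _
    · rw [div_le_iff₀ hbr]
      have h3 := Nat.ceil_lt_add_one (R := ℝ) (a := (t - 1 / 2000) * b) (by nlinarith)
      nlinarith
  have hcc : 4 / 5 * (7 / 4 * (k : ℝ)) - 1 / 2000 = 7 / 5 * k - 1 / 2000 := by ring
  rw [hcc]
  rcases le_total σ (57 / 100) with hs | hs
  · refine ⟨0, Nat.zero_le _, ?_⟩
    rw [if_pos rfl, G_zero, Nat.cast_zero, sub_zero, add_zero, add_zero]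
    have h3 : (k : ℝ) ≤ (7 / 5 * k - 1 / 2000) * (1 - σ / 2) := by nlinarith
    nlinarith
  · rcases le_total σ (83 / 100) with hs2 | hs2
    · obtain ⟨m, hm⟩ : ∃ m : ℕ, m = ⌈t⌉₊ := ⟨_, rfl⟩
      have hm1 : t ≤ m := by rw [hm]; exact Nat.le_ceil _
      have hm2 : (m : ℝ) < t + 1 := by rw [hm]; exact Nat.ceil_lt_add_one (by linarith)
      have hmk : m ≤ k := by
        rw [hm]
        refine Nat.ceil_le.mpr ?_
        linarith
      refine ⟨m, hmk, ?_⟩
      have hm0 : m ≠ 0 := by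
        intro h0
        rw [h0, Nat.cast_zero] at hm1
        linarith
      rw [if_neg hm0]
      obtain ⟨δ, hδ⟩ : ∃ δ : ℝ, δ = m - t := ⟨_, rfl⟩
      have hδ0 : 0 ≤ δ := by linarith
      have hδ1 : δ ≤ 1 := by linarith
      obtain ⟨A, hA⟩ : ∃ A : ℝ, A = 66 / 100 * δ + 4 / 5 * t := ⟨_, rfl⟩
      have hApos : 0 < A := by linarith
      have hG := we_Num5_G (m := m) hbpos haa hApos h1 h2 hm1
      rw [← hδ] at hG
      have hA2 : (δ + 1 / 2000) ^ 2 + t ≤ A ^ 2 := by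
        rw [hA]
        nlinarith [mul_nonneg hδ0 (sub_nonneg.mpr hδ1), mul_nonneg hδ0 (sub_nonneg.mpr ht1),
          mul_self_nonneg (t - 7 / 4), mul_nonneg (sub_nonneg.mpr ht1) (sub_nonneg.mpr ht1)]
      have hG2 : G b a m ≤ A / 2 + (δ + 1 / 2000) / 2 := by
        have h3 : 4 * A * G b a m ≤ 4 * A * (A / 2 + (δ + 1 / 2000) / 2) := by nlinarith
        exact le_of_mul_le_mul_left h3 (by linarith)
      have hmt : (m : ℝ) = t + δ := by linarith
      have hkt : (k : ℝ) = 20 / 7 * t := by linarith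
      rw [hmt, hkt]
      have h57 : G b a m ≤ 57 / 100 * (t + δ) - 3 / 4000 := by linarith
      have h83 : G b a m ≤ 83 / 100 * δ + 4007 / 10000 * t - 3 / 4000 := by linarith
      have hq : 0 ≤ t * ((σ - 57 / 100) * (83 / 100 - σ)) :=
        mul_nonneg (by linarith) (mul_nonneg (by linarith) (by linarith))
      have hx : (26 / 100 : ℝ) * G b a m ≤ (83 / 100 - σ) * (57 / 100 * (t + δ) - 3 / 4000) +
          (σ - 57 / 100) * (83 / 100 * δ + 4007 / 10000 * t - 3 / 4000) := by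
        have h4 := mul_le_mul_of_nonneg_left h57 (sub_nonneg.mpr hs2)
        have h5 := mul_le_mul_of_nonneg_left h83 (sub_nonneg.mpr hs)
        nlinarith
      nlinarith [mul_nonneg hσ0 (sub_nonneg.mpr hσ1)]
    · refine ⟨k, le_rfl, ?_⟩
      have hk0 : k ≠ 0 := by omega
      rw [if_neg hk0, sub_self, zero_mul, zero_add]
      have htk : t ≤ k := by linarith
      have hG := we_Num5_G (m := k) (A := 13 / 20 * k) hbpos haa (by linarith) h1 h2 htk
      have hkt : (k : ℝ) - t = 13 / 20 * k := by linarith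
      rw [hkt, ht] at hG
      have hG2 : G b a k ≤ 13 / 20 * k + 136 / 1000 := by
        have h3 : 4 * (13 / 20 * (k : ℝ)) * G b a k ≤
            4 * (13 / 20 * (k : ℝ)) * (13 / 20 * k + 136 / 1000) := by nlinarith
        exact le_of_mul_le_mul_left h3 (by linarith)
      have h4 : (4855 / 10000 : ℝ) ≤ σ * (1 - σ / 2) := by nlinarith
      have h5 : (7 / 5 * (k : ℝ) - 1 / 2000) * (4855 / 10000) ≤
          (7 / 5 * (k : ℝ) - 1 / 2000) * (σ * (1 - σ / 2)) :=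
        mul_le_mul_of_nonneg_left h4 (by linarith)
      have h6 : (7 / 5 * (k : ℝ) - 1 / 2000) * σ * (1 - σ / 2) =
          (7 / 5 * (k : ℝ) - 1 / 2000) * (σ * (1 - σ / 2)) := by ring
      rw [h6]
      linarith

end Pool.Agent.Helper72.WE
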