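import Pool.Agent.Helper72.WC.Final
import Pool.Agent.Helper72.WE.Lower
import Pool.Agent.Helper72.WE.Num2
import Pool.Agent.Helper72.WE.Num3
import Pool.Agent.Helper72.WE.Num4
import Pool.Agent.Helper72.WE.Num5

set_option autoImplicit false

namespace Pool.Agent.Helper72.WE

open Finset Pool.Agent.Helper72.WC

theorem good_all {k : ℕ} (hk : 2 ≤ k) : Good k (7 / 4 * k) := by
  rcases (by omega : k = 2 ∨ k = 3 ∨ k = 4 ∨ 5 ≤ k) with rfl | rfl | rfl | h
  · have := num2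
    norm_num at this ⊢
    exact this
  · have := num3
    norm_num at this ⊢
    exact this
  · have := num4
    norm_num at this ⊢
    exact this
  · exact num5 h

/-- The lower bound for every `k ≥ 2`. -/
theorem lower_all {k : ℕ} (hk : 2 ≤ k) : ∃ n0 : ℕ, ∀ n ≥ n0,
    4 * (n : ℝ) / (7 * k) ≤ qC k n := by
  have hk' : (2 : ℝ) ≤ k := by exact_mod_cast hk
  set c : ℝ := 7 / 4 * k with hc
  have hc2 : 2 ≤ c := by linarith
  obtain ⟨δ, hδ, hδ1, n0, hn0⟩ := lower_coreE hk hc2 (good_all hk)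
  have hcδ : 0 < c - δ := by linarith
  obtain ⟨n1, hn1⟩ := exists_nat_gt (2 * c * (c - δ) / δ)
  refine ⟨n0 + n1 + 2, fun n hn => ?_⟩
  set b : ℕ := ⌊(n : ℝ) / (c - δ)⌋₊ with hb
  have hn1' : (n1 : ℝ) ≤ n := by exact_mod_cast (by omega : n1 ≤ n)
  have h1 : 2 * c * (c - δ) / δ ≤ n := hn1.le.trans hn1'
  rw [div_le_iff₀ hδ] at h1
  have hb1 : (b : ℝ) ≤ n / (c - δ) := Nat.floor_le (by positivity)
  have hb2 : (n : ℝ) / (c - δ) < b + 1 := Nat.lt_floor_add_one _
  rw [le_div_iff₀ hcδ] at hb1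
  rw [div_lt_iff₀ hcδ] at hb2
  -- `n ≤ c (b - 1)`
  have h2 : (n : ℝ) ≤ c * (b - 1) := by
    have h3 : (c - δ) * n ≤ (c - δ) * (c * (b - 1)) := by
      have h4 : c * n < c * ((b + 1) * (c - δ)) := mul_lt_mul_of_pos_left hb2 (by linarith)
      nlinarith
    exact le_of_mul_le_mul_left h3 hcδ
  have hn0' : (0 : ℝ) < n := by exact_mod_cast (by omega : 0 < n)
  have hb3 : 1 < b := by
    have : (0 : ℝ) < b - 1 := by
      by_contra h
      rw [not_lt] at h
      nlinarith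
    have h5 : (1 : ℝ) < b := by linarith
    exact_mod_cast h5
  have hwin := hn0 n (by omega) b (by linarith [mul_comm (b : ℝ) (c - δ)]) (by nlinarith)
  obtain ⟨q, hq⟩ : ∃ q, b = q + 1 := ⟨b - 1, by omega⟩
  rw [hq] at hwin
  have h9 : q ≤ qC k n :=
    le_csSup ((bdd_D (by omega) (by omega)).mono sub_CD) ⟨by omega, hwin⟩
  refine le_trans ?_ (Nat.cast_le.2 h9)
  rw [hq] at h2
  push_cast at h2
  rw [div_le_iff₀ (by positivity)]
  have h6 : (n : ℝ) ≤ c * q := by linarith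
  rw [hc] at h6
  linarith

end Pool.Agent.Helper72.WE
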