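import Pool.Agent.Helper72.WE.Gf

/-!
# Project WE, module GQ: upper bounds for `G`

PROOF of `G_quad` (`h = 1/b`, `u = r - a h + A`), induction on `a` for all `r`, using `G_succ` as
`G (a+1) r = (1-h) G a r + h G a (r-1)` (`0 ≤ 1 - h`): `(1-h)(u² + a h) + h ((u-1)² + a h) =
u² + a h - 2 h u + h ≤ (u - h)² + (a+1) h`; `r = 0`: `G = 0`; `a = 0`: `4 A r ≤ (r + A)²`.

PROOF of `G_le_F`.  `F r s = Σ_(i<r) (r - i) e^(-s) s^i / i!`; `F r' (s) = - e^(-s) Σ_(i<r) s^i / i! =
- (F r s - F (r-1) s)`, which is increasing in `s ≥ 0` (its derivative is `e^(-s) s^(r-1) / (r-1)!`), so `F r` is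
convex on `[0, ∞)` and `F r (s + h) ≥ F r s - h (F r s - F (r-1) s)`.  Induction on `a`:
`G (a+1) r = (1-h) G a r + h G a (r-1) ≤ (1-h) F r s + h F (r-1) s ≤ F r (s+h)`, `s = a h`.
-/

set_option autoImplicit false

namespace Pool.Agent.Helper72.WE

/-- `E (r - Poisson (s))⁺`. -/
noncomputable def F (r : ℕ) (s : ℝ) : ℝ :=
  ∑ i ∈ Finset.range r, ((r : ℝ) - i) * (Real.exp (-s) * s ^ i / i.factorial)

theorem we_GQ_le_one {b : ℕ} (hb : 0 < b) : 0 ≤ 1 / (b : ℝ) ∧ 1 / (b : ℝ) ≤ 1 := by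
  have h1 : (1 : ℝ) ≤ b := by exact_mod_cast hb
  refine ⟨by positivity, ?_⟩
  rw [div_le_one (by linarith)]
  exact h1

theorem we_GQ_succ (b a r : ℕ) :
    G b (a + 1) r = (1 - 1 / (b : ℝ)) * G b a r + (1 / (b : ℝ)) * G b a (r - 1) := by
  rw [G_succ]
  ring

theorem G_quad {b : ℕ} (hb : 0 < b) {A : ℝ} (hA : 0 < A) (a r : ℕ) :
    G b a r ≤ (((r : ℝ) - a / b + A) ^ 2 + a / b) / (4 * A) := by
  obtain ⟨h0, h1⟩ := we_GQ_le_one hb
  induction a generalizing r with
  | zero =>
    have h2 : G b 0 r = (r : ℝ) := by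
      cases r <;> rfl
    rw [h2, le_div_iff₀ (by positivity)]
    simp only [Nat.cast_zero, zero_div, sub_zero, add_zero]
    nlinarith [sq_nonneg ((r : ℝ) - A)]
  | succ a ih =>
    rcases Nat.eq_zero_or_pos r with hr | hr
    · subst hr
      rw [G_zero]
      positivity
    · have h2 := ih r
      have h3 := ih (r - 1)
      have h4 : ((r - 1 : ℕ) : ℝ) = (r : ℝ) - 1 := by
        rw [Nat.cast_sub hr, Nat.cast_one]
      rw [h4] at h3
      rw [we_GQ_succ, le_div_iff₀ (by positivity)]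
      rw [le_div_iff₀ (by positivity)] at h2 h3
      obtain ⟨h, hh⟩ : ∃ h : ℝ, h = 1 / (b : ℝ) := ⟨_, rfl⟩
      have h5 : ((a : ℕ) : ℝ) / b = a * h := by
        rw [hh]
        ring
      have h6 : ((a + 1 : ℕ) : ℝ) / b = (a + 1) * h := by
        rw [hh]
        push_cast
        ring
      rw [h5] at h2 h3
      rw [h6]
      rw [← hh] at h0 h1 ⊢
      have h7 := mul_le_mul_of_nonneg_left h2 (sub_nonneg.2 h1)
      have h8 := mul_le_mul_of_nonneg_left h3 h0
      nlinarith [sq_nonneg h]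

/-- The probabilities of the Poisson distribution. -/
noncomputable def we_GQ_T (r : ℕ) (s : ℝ) : ℝ :=
  ∑ i ∈ Finset.range r, Real.exp (-s) * s ^ i / i.factorial

theorem we_GQ_F_succ (r : ℕ) (s : ℝ) : F (r + 1) s = F r s + we_GQ_T (r + 1) s := by
  unfold F we_GQ_T
  have h1 : ∑ i ∈ Finset.range r, ((r : ℝ) - i) * (Real.exp (-s) * s ^ i / i.factorial) =
      ∑ i ∈ Finset.range (r + 1), ((r : ℝ) - i) * (Real.exp (-s) * s ^ i / i.factorial) := by
    rw [Finset.sum_range_succ, sub_self, zero_mul, add_zero]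
  rw [h1, ← Finset.sum_add_distrib]
  refine Finset.sum_congr rfl fun i _ => ?_
  push_cast
  ring

theorem we_GQ_hasDeriv_p (i : ℕ) (s : ℝ) :
    HasDerivAt (fun x : ℝ => Real.exp (-x) * x ^ (i + 1) / (i + 1).factorial)
      (Real.exp (-s) * s ^ i / i.factorial -
        Real.exp (-s) * s ^ (i + 1) / (i + 1).factorial) s := by
  have h1 : HasDerivAt (fun x : ℝ => Real.exp (-x)) (-Real.exp (-s)) s := by
    have h := (hasDerivAt_neg s).exp
    simpa using h
  have h2 : HasDerivAt (fun x : ℝ => x ^ (i + 1)) (((i + 1 : ℕ) : ℝ) * s ^ i) s := by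
    have h := hasDerivAt_pow (i + 1) s
    simpa using h
  have h3 := (h1.mul h2).div_const ((i + 1).factorial : ℝ)
  refine h3.congr_deriv ?_
  have h4 : ((i + 1).factorial : ℝ) = (i + 1) * i.factorial := by
    rw [Nat.factorial_succ]
    push_cast
    ring
  have h5 : (i.factorial : ℝ) ≠ 0 := by exact_mod_cast i.factorial_ne_zero
  have h6 : ((i : ℝ) + 1) ≠ 0 := by positivity
  rw [h4]
  push_cast
  field_simp
  ring

theorem we_GQ_hasDeriv_T (r : ℕ) (s : ℝ) :
    HasDerivAt (we_GQ_T (r + 1)) (-(Real.exp (-s) * s ^ r / r.factorial)) s := by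
  induction r with
  | zero =>
    have h1 : we_GQ_T (0 + 1) = fun x : ℝ => Real.exp (-x) := by
      funext x
      unfold we_GQ_T
      simp
    rw [h1]
    have h := (hasDerivAt_neg s).exp
    simpa using h
  | succ r ih =>
    have h1 : we_GQ_T (r + 1 + 1) = fun x : ℝ => we_GQ_T (r + 1) x +
        Real.exp (-x) * x ^ (r + 1) / (r + 1).factorial := by
      funext x
      unfold we_GQ_T
      rw [Finset.sum_range_succ]
    rw [h1]
    refine (ih.add (we_GQ_hasDeriv_p r s)).congr_deriv ?_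
    ring

theorem we_GQ_hasDeriv_F (r : ℕ) (s : ℝ) : HasDerivAt (F r) (-we_GQ_T r s) s := by
  induction r with
  | zero =>
    have h1 : F 0 = fun _ : ℝ => (0 : ℝ) := by
      funext x
      unfold F
      simp
    have h2 : we_GQ_T 0 s = 0 := by
      unfold we_GQ_T
      simp
    rw [h1, h2, neg_zero]
    exact hasDerivAt_const s (0 : ℝ)
  | succ r ih =>
    have h1 : F (r + 1) = fun x : ℝ => F r x + we_GQ_T (r + 1) x := by
      funext x
      exact we_GQ_F_succ r x
    rw [h1]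
    refine (ih.add (we_GQ_hasDeriv_T r s)).congr_deriv ?_
    unfold we_GQ_T
    rw [Finset.sum_range_succ]
    ring

theorem we_GQ_T_anti (r : ℕ) : AntitoneOn (we_GQ_T (r + 1)) (Set.Ici 0) := by
  refine antitoneOn_of_deriv_nonpos (convex_Ici 0) (fun x _ =>
    (we_GQ_hasDeriv_T r x).continuousAt.continuousWithinAt) (fun x _ =>
    (we_GQ_hasDeriv_T r x).differentiableAt.differentiableWithinAt) fun x hx => ?_
  rw [interior_Ici] at hx
  have hx0 : 0 < x := hx
  rw [(we_GQ_hasDeriv_T r x).deriv, neg_nonpos]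
  positivity

theorem F_tangent (r : ℕ) {s h : ℝ} (hs : 0 ≤ s) (hh : 0 ≤ h) :
    F r s - h * (F r s - F (r - 1) s) ≤ F r (s + h) := by
  rcases r with _ | r
  · simp [F]
  · rw [Nat.add_sub_cancel]
    have h1 : F (r + 1) s - F r s = we_GQ_T (r + 1) s := by
      rw [we_GQ_F_succ]
      ring
    rw [h1]
    have hd : ∀ x, HasDerivAt (fun x : ℝ => F (r + 1) x + x * we_GQ_T (r + 1) s)
        (-we_GQ_T (r + 1) x + we_GQ_T (r + 1) s) x := by
      intro x
      have h2 := (hasDerivAt_id x).mul_const (we_GQ_T (r + 1) s)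
      refine ((we_GQ_hasDeriv_F (r + 1) x).add h2).congr_deriv ?_
      ring
    have hm : MonotoneOn (fun x : ℝ => F (r + 1) x + x * we_GQ_T (r + 1) s) (Set.Ici s) := by
      refine monotoneOn_of_deriv_nonneg (convex_Ici s) (fun x _ =>
        (hd x).continuousAt.continuousWithinAt) (fun x _ =>
        (hd x).differentiableAt.differentiableWithinAt) fun x hx => ?_
      rw [interior_Ici] at hx
      have hx0 : s < x := hx
      rw [(hd x).deriv]
      have h3 := we_GQ_T_anti r (Set.mem_Ici.2 hs) (Set.mem_Ici.2 (hs.trans hx0.le)) hx0.le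
      linarith
    have h4 := hm (Set.mem_Ici.2 le_rfl) (Set.mem_Ici.2 (by linarith : s ≤ s + h))
      (by linarith : s ≤ s + h)
    simp only at h4
    linarith

theorem G_le_F {b : ℕ} (hb : 0 < b) (a r : ℕ) : G b a r ≤ F r (a / b) := by
  obtain ⟨h0, h1⟩ := we_GQ_le_one hb
  induction a generalizing r with
  | zero =>
    have h2 : G b 0 r = (r : ℝ) := by
      cases r <;> rfl
    rw [h2, Nat.cast_zero, zero_div]
    rcases r with _ | r
    · simp [F]
    · unfold F
      rw [Finset.sum_range_succ']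
      simp
  | succ a ih =>
    have h2 := F_tangent r (s := (a : ℝ) / b) (h := 1 / (b : ℝ)) (by positivity) h0
    have h3 : ((a + 1 : ℕ) : ℝ) / b = (a : ℝ) / b + 1 / (b : ℝ) := by
      push_cast
      ring
    rw [h3, we_GQ_succ]
    refine le_trans ?_ h2
    have h7 := mul_le_mul_of_nonneg_left (ih r) (sub_nonneg.2 h1)
    have h8 := mul_le_mul_of_nonneg_left (ih (r - 1)) h0
    linarith

end Pool.Agent.Helper72.WE
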