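import Mathlib

/-!
# Project WE (MP_c8f8f3_co), module Gf: the function `G b a r = E (r - Bin (a, 1/b))⁺`

PROOFS.  `G_succ` by cases.  Write `D a r = G a r - G a (r-1)`; then `G (a+1) r = G a r - D a r / b`, so
`D (a+1) r = (1 - 1/b) D a r + (1/b) D a (r-1)` (for `r ≥ 2`; for `r = 1` it is `(1 - 1/b) D a 1`), and
`D 0 r = 1` for `r ≥ 1`: `0 ≤ D a r ≤ 1` by induction on `a` (all `r`), and `|D (a+1) r - D a r| ≤ 1/b`.
`G_lower`: `G (a+1) r ≥ G a r - 1/b`.
-/

set_option autoImplicit false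

namespace Pool.Agent.Helper72.WE

/-- `E (r - Bin (a, 1/b))⁺`. -/
noncomputable def G (b : ℕ) : ℕ → ℕ → ℝ
  | 0, r => (r : ℝ)
  | _ + 1, 0 => 0
  | a + 1, r + 1 => G b a (r + 1) - (1 / (b : ℝ)) * (G b a (r + 1) - G b a r)

theorem G_zero (b a : ℕ) : G b a 0 = 0 := by
  cases a with
  | zero => simp [G]
  | succ a => simp [G]

theorem G_succ (b a r : ℕ) :
    G b (a + 1) r = G b a r - (1 / (b : ℝ)) * (G b a r - G b a (r - 1)) := by
  cases r with
  | zero => simp [G_zero]
  | succ r => rw [Nat.add_sub_cancel, G]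

private theorem we_Gf_inv {b : ℕ} (hb : 0 < b) : 0 < 1 / (b : ℝ) ∧ 1 / (b : ℝ) ≤ 1 := by
  have h1 : (1 : ℝ) ≤ b := by exact_mod_cast hb
  refine ⟨by positivity, ?_⟩
  rw [div_le_one (by linarith)]
  exact h1

/-- The recursion of the differences. -/
private theorem we_Gf_D (b a r : ℕ) :
    G b (a + 1) (r + 1) - G b (a + 1) r =
      (1 - 1 / (b : ℝ)) * (G b a (r + 1) - G b a r) +
        (1 / (b : ℝ)) * (G b a r - G b a (r - 1)) := by
  rw [G_succ b a (r + 1), G_succ b a r, Nat.add_sub_cancel]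
  ring

private theorem we_Gf_D01 {b : ℕ} (hb : 0 < b) (a : ℕ) : ∀ r : ℕ,
    0 ≤ G b a r - G b a (r - 1) ∧ G b a r - G b a (r - 1) ≤ 1 := by
  obtain ⟨hb0, hb1⟩ := we_Gf_inv hb
  induction a with
  | zero =>
    intro r
    cases r with
    | zero => simp [G]
    | succ r => simp [G]
  | succ a ih =>
    intro r
    cases r with
    | zero => simp
    | succ r =>
      rw [Nat.add_sub_cancel, we_Gf_D]
      obtain ⟨h1, h2⟩ := ih (r + 1)
      obtain ⟨h3, h4⟩ := ih r
      rw [Nat.add_sub_cancel] at h1 h2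
      constructor
      · exact add_nonneg (mul_nonneg (by linarith) h1) (mul_nonneg hb0.le h3)
      · have h5 := mul_le_mul_of_nonneg_left h2 (show 0 ≤ 1 - 1 / (b : ℝ) by linarith)
        have h6 := mul_le_mul_of_nonneg_left h4 hb0.le
        linarith

theorem D_nonneg {b : ℕ} (hb : 0 < b) (a r : ℕ) : 0 ≤ G b a r - G b a (r - 1) :=
  (we_Gf_D01 hb a r).1

theorem D_le_one {b : ℕ} (hb : 0 < b) (a r : ℕ) : G b a r - G b a (r - 1) ≤ 1 :=
  (we_Gf_D01 hb a r).2

theorem G_nonneg {b : ℕ} (hb : 0 < b) (a r : ℕ) : 0 ≤ G b a r := by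
  induction r with
  | zero => rw [G_zero]
  | succ r ih =>
    have h := D_nonneg hb a (r + 1)
    rw [Nat.add_sub_cancel] at h
    linarith

theorem G_le {b : ℕ} (hb : 0 < b) (a r : ℕ) : G b a r ≤ r := by
  induction r with
  | zero => rw [G_zero]; simp
  | succ r ih =>
    have h := D_le_one hb a (r + 1)
    rw [Nat.add_sub_cancel] at h
    push_cast
    linarith

/-- One step down is between `0` and `1 / b`. -/
private theorem we_Gf_step {b : ℕ} (hb : 0 < b) (a r : ℕ) :
    G b (a + 1) r ≤ G b a r ∧ G b a r ≤ G b (a + 1) r + 1 / (b : ℝ) := by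
  obtain ⟨hb0, hb1⟩ := we_Gf_inv hb
  have h1 := mul_nonneg hb0.le (D_nonneg hb a r)
  have h2 := mul_le_mul_of_nonneg_left (D_le_one hb a r) hb0.le
  rw [G_succ b a r]
  constructor <;> linarith

theorem G_anti {b : ℕ} (hb : 0 < b) (r : ℕ) : Antitone fun a => G b a r :=
  antitone_nat_of_succ_le fun a => (we_Gf_step hb a r).1

theorem G_lip {b : ℕ} (hb : 0 < b) (a c r : ℕ) : G b a r ≤ G b (a + c) r + c / b := by
  induction c with
  | zero => simp
  | succ c ih =>
    have h := (we_Gf_step hb (a + c) r).2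
    have h2 : (((c + 1 : ℕ) : ℝ)) / b = c / b + 1 / (b : ℝ) := by
      push_cast
      rw [add_div]
    rw [h2, show a + (c + 1) = a + c + 1 by ring]
    linarith

theorem D_lip {b : ℕ} (hb : 0 < b) (a c r : ℕ) :
    |(G b (a + c) r - G b (a + c) (r - 1)) - (G b a r - G b a (r - 1))| ≤ c / b := by
  obtain ⟨hb0, hb1⟩ := we_Gf_inv hb
  induction c with
  | zero => simp
  | succ c ih =>
    have h2 : (((c + 1 : ℕ) : ℝ)) / b = c / b + 1 / (b : ℝ) := by
      push_cast
      rw [add_div]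
    rw [h2, show a + (c + 1) = a + c + 1 by ring]
    have h3 : |(G b (a + c + 1) r - G b (a + c + 1) (r - 1)) -
        (G b (a + c) r - G b (a + c) (r - 1))| ≤ 1 / (b : ℝ) := by
      cases r with
      | zero => simp
      | succ r =>
        rw [Nat.add_sub_cancel, we_Gf_D]
        have h4 := D_nonneg hb (a + c) (r + 1)
        have h5 := D_le_one hb (a + c) (r + 1)
        have h6 := D_nonneg hb (a + c) r
        have h7 := D_le_one hb (a + c) r
        rw [Nat.add_sub_cancel] at h4 h5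
        have h8 : (1 - 1 / (b : ℝ)) * (G b (a + c) (r + 1) - G b (a + c) r) +
            (1 / (b : ℝ)) * (G b (a + c) r - G b (a + c) (r - 1)) -
            (G b (a + c) (r + 1) - G b (a + c) r) =
            (1 / (b : ℝ)) * ((G b (a + c) r - G b (a + c) (r - 1)) -
              (G b (a + c) (r + 1) - G b (a + c) r)) := by ring
        rw [h8, abs_mul, abs_of_pos hb0]
        have h9 : |(G b (a + c) r - G b (a + c) (r - 1)) -
            (G b (a + c) (r + 1) - G b (a + c) r)| ≤ 1 := by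
          rw [abs_le]
          constructor <;> linarith
        exact (mul_le_mul_of_nonneg_left h9 hb0.le).trans (by rw [mul_one])
    have h4 := abs_sub_le (G b (a + c + 1) r - G b (a + c + 1) (r - 1))
      (G b (a + c) r - G b (a + c) (r - 1)) (G b a r - G b a (r - 1))
    linarith

theorem G_lower {b : ℕ} (hb : 0 < b) (a r : ℕ) : (r : ℝ) - a / b ≤ G b a r := by
  have h := G_lip hb 0 a r
  rw [Nat.zero_add] at h
  have h0 : G b 0 r = (r : ℝ) := by rw [G]
  rw [h0] at h
  linarith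

end Pool.Agent.Helper72.WE
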