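import Pool.Agent.Helper72.WE.Gf

/-!
# Project WE, module Round: one round of phase A changes the potential by at most `8 w / b`

PROOF.  `D a r = G a r - G a (r-1)` lies in `[0, 1]` and is `1/b`-Lipschitz in `a` (`D_lip`).
Step 1 (pairs used): `G (a v - β v) (r v) ≤ G (a v) (r v) + (β v / b) (D (a v) (r v) + β v / b)`
(induction on `β`, `G_succ`).  `Σ_v β v c_v = Σ_(e ∈ B) Σ_(v ∈ e) c_v`; for `e = s(x', y')` as in `hT`,
`D (a x') (r x') ≤ D A1 r1 + w/b` and the same for `y'`; so the sum over `v` increases by at most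
`D A1 r1 + D A2 r2 + 4 w/b` (`|B| = b`).  Step 2 (the pick `x, y`): the terms of `x` and `y` decrease by
`D (a x - β x) (r x) + D (a y - β y) (r y) ≥ D A1 r1 + D A2 r2 - 2 w/b` (`x ≠ y`; `s(x, y)` is one of the
pairs of `hT`, in one of the two orders; `|a x - β x - A1| ≤ w`).
-/

set_option autoImplicit false

namespace Pool.Agent.Helper72.WE

private theorem we_Round_lip {b : ℕ} (hb : 0 < b) (m n w r : ℕ) (h1 : m ≤ n + w)
    (h2 : n ≤ m + w) :
    G b m r - G b m (r - 1) ≤ (G b n r - G b n (r - 1)) + (w : ℝ) / b := by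
  have hb0 : (0 : ℝ) < b := by exact_mod_cast hb
  rcases le_total m n with h | h
  · obtain ⟨c, rfl⟩ := Nat.exists_eq_add_of_le h
    have h3 := (abs_le.1 (D_lip hb m c r)).1
    have h4 : (c : ℝ) / b ≤ (w : ℝ) / b := by
      apply div_le_div_of_nonneg_right _ hb0.le
      exact_mod_cast (by omega : c ≤ w)
    linarith
  · obtain ⟨c, rfl⟩ := Nat.exists_eq_add_of_le h
    have h3 := (abs_le.1 (D_lip hb n c r)).2
    have h4 : (c : ℝ) / b ≤ (w : ℝ) / b := by
      apply div_le_div_of_nonneg_right _ hb0.le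
      exact_mod_cast (by omega : c ≤ w)
    linarith

private theorem we_Round_step {b : ℕ} (hb : 0 < b) (a r β : ℕ) (hβ : β ≤ a) :
    G b (a - β) r ≤ G b a r + ((β : ℝ) / b) * ((G b a r - G b a (r - 1)) + (β : ℝ) / b) := by
  have hb0 : (0 : ℝ) < b := by exact_mod_cast hb
  induction β with
  | zero => simp
  | succ k ih =>
    have h1 := ih (by omega)
    have h2 := G_succ b (a - (k + 1)) r
    have h3 : a - (k + 1) + 1 = a - k := by omega
    rw [h3] at h2
    have h4 := we_Round_lip hb (a - (k + 1)) a (k + 1) r (by omega) (by omega)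
    set D0 := G b a r - G b a (r - 1) with hD0
    set D1 := G b (a - (k + 1)) r - G b (a - (k + 1)) (r - 1) with hD1
    have h5 : G b (a - (k + 1)) r = G b (a - k) r + (1 / (b : ℝ)) * D1 := by linarith
    have h6 : (1 / (b : ℝ)) * D1 ≤ (1 / (b : ℝ)) * (D0 + ((k + 1 : ℕ) : ℝ) / b) :=
      mul_le_mul_of_nonneg_left h4 (by positivity)
    have h7 : ((k : ℝ) / b) * (D0 + (k : ℝ) / b) + (1 / (b : ℝ)) * (D0 + ((k + 1 : ℕ) : ℝ) / b) ≤
        (((k + 1 : ℕ) : ℝ) / b) * (D0 + ((k + 1 : ℕ) : ℝ) / b) := by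
      push_cast
      have h8 : (((k : ℝ) + 1) / b) * (D0 + ((k : ℝ) + 1) / b) -
          (((k : ℝ) / b) * (D0 + (k : ℝ) / b) + (1 / (b : ℝ)) * (D0 + ((k : ℝ) + 1) / b)) =
          (k : ℝ) / (b * b) := by
        field_simp
        ring
      have h9 : 0 ≤ (k : ℝ) / (b * b) := by positivity
      linarith
    linarith

theorem round_pot {V : Type*} [Fintype V] [DecidableEq V] {b w : ℕ} (hb : 0 < b)
    (r a β : V → ℕ) (B : Finset (Sym2 V)) (hdiag : ∀ e ∈ B, ¬ e.IsDiag) (hcard : B.card = b)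
    (hβ : ∀ v, (B.filter fun e => v ∈ e).card = β v) (hβw : ∀ v, β v ≤ w)
    (hβa : ∀ v, β v ≤ a v) {r1 r2 A1 A2 : ℕ}
    (hT : ∀ e ∈ B, ∃ x y, e = s(x, y) ∧ (r x = r1 ∧ A1 ≤ a x ∧ a x ≤ A1 + w) ∧
      (r y = r2 ∧ A2 ≤ a y ∧ a y ≤ A2 + w)) {x y : V} (hxy : s(x, y) ∈ B) :
    ∑ v, G b (a v - β v) (if v = x ∨ v = y then r v - 1 else r v) ≤
      ∑ v, G b (a v) (r v) + 8 * (w / b) := by
  have hb0 : (0 : ℝ) < b := by exact_mod_cast hb
  have hne : x ≠ y := by
    have h1 := hdiag _ hxy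
    rwa [Sym2.mk_isDiag_iff] at h1
  set E1 : ℝ := G b A1 r1 - G b A1 (r1 - 1) with hE1
  set E2 : ℝ := G b A2 r2 - G b A2 (r2 - 1) with hE2
  set W : ℝ := (w : ℝ) / b with hW
  have hW0 : 0 ≤ W := by positivity
  -- step 2
  have hpick : ∑ v, G b (a v - β v) (if v = x ∨ v = y then r v - 1 else r v) =
      ∑ v, G b (a v - β v) (r v) -
        ((G b (a x - β x) (r x) - G b (a x - β x) (r x - 1)) +
          (G b (a y - β y) (r y) - G b (a y - β y) (r y - 1))) := by
    have h1 : ∀ v, G b (a v - β v) (if v = x ∨ v = y then r v - 1 else r v) =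
        G b (a v - β v) (r v) -
          ((if v = x then G b (a v - β v) (r v) - G b (a v - β v) (r v - 1) else 0) +
            (if v = y then G b (a v - β v) (r v) - G b (a v - β v) (r v - 1) else 0)) := by
      intro v
      by_cases hx : v = x
      · have hy : v ≠ y := by
          rw [hx]
          exact hne
        rw [if_pos (Or.inl hx), if_pos hx, if_neg hy]
        ring
      · by_cases hy : v = y
        · rw [if_pos (Or.inr hy), if_neg hx, if_pos hy]
          ring
        · rw [if_neg (not_or.2 ⟨hx, hy⟩), if_neg hx, if_neg hy]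
          ring
    rw [Finset.sum_congr rfl fun v _ => h1 v, Finset.sum_sub_distrib, Finset.sum_add_distrib,
      Finset.sum_ite_eq' Finset.univ x, Finset.sum_ite_eq' Finset.univ y, if_pos (Finset.mem_univ _),
      if_pos (Finset.mem_univ _)]
  have hlow : E1 + E2 - 2 * W ≤ (G b (a x - β x) (r x) - G b (a x - β x) (r x - 1)) +
      (G b (a y - β y) (r y) - G b (a y - β y) (r y - 1)) := by
    obtain ⟨x', y', he, ⟨hr1, hA1, hA1'⟩, ⟨hr2, hA2, hA2'⟩⟩ := hT _ hxy
    have key : ∀ u A ρ, r u = ρ → A ≤ a u → a u ≤ A + w →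
        (G b A ρ - G b A (ρ - 1)) - W ≤
          G b (a u - β u) (r u) - G b (a u - β u) (r u - 1) := by
      intro u A ρ hρ h1 h2
      have h3 := hβw u
      have h4 := hβa u
      have h5 := we_Round_lip hb A (a u - β u) w ρ (by omega) (by omega)
      rw [hρ]
      linarith
    rcases Sym2.eq_iff.1 he with ⟨rfl, rfl⟩ | ⟨rfl, rfl⟩
    · have h1 := key x A1 r1 hr1 hA1 hA1'
      have h2 := key y A2 r2 hr2 hA2 hA2'
      linarith
    · have h1 := key y A1 r1 hr1 hA1 hA1'
      have h2 := key x A2 r2 hr2 hA2 hA2'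
      linarith
  -- step 1
  set c : V → ℝ := fun v => (G b (a v) (r v) - G b (a v) (r v - 1)) + W with hc
  have hs1 : ∑ v, G b (a v - β v) (r v) ≤ ∑ v, (G b (a v) (r v) + (β v : ℝ) * c v / b) := by
    refine Finset.sum_le_sum fun v _ => ?_
    refine (we_Round_step hb (a v) (r v) (β v) (hβa v)).trans ?_
    have h1 : ((β v : ℝ) / b) ≤ W := by
      apply div_le_div_of_nonneg_right _ hb0.le
      exact_mod_cast hβw v
    have h2 : ((β v : ℝ) / b) * ((G b (a v) (r v) - G b (a v) (r v - 1)) + (β v : ℝ) / b) ≤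
        ((β v : ℝ) / b) * c v := mul_le_mul_of_nonneg_left (by rw [hc]; linarith) (by positivity)
    have h3 : (β v : ℝ) * c v / b = ((β v : ℝ) / b) * c v := by ring
    rw [h3]
    linarith
  have hs2 : ∑ v, (β v : ℝ) * c v = ∑ e ∈ B, ∑ v, if v ∈ e then c v else 0 := by
    rw [Finset.sum_comm]
    refine Finset.sum_congr rfl fun v _ => ?_
    rw [← Finset.sum_filter, Finset.sum_const, hβ v, nsmul_eq_mul]
  have hs3 : ∀ e ∈ B, (∑ v, if v ∈ e then c v else 0) ≤ E1 + E2 + 4 * W := by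
    intro e he
    obtain ⟨x', y', rfl, ⟨hr1, hA1, hA1'⟩, ⟨hr2, hA2, hA2'⟩⟩ := hT e he
    have hne' : x' ≠ y' := by
      have h1 := hdiag _ he
      rwa [Sym2.mk_isDiag_iff] at h1
    have h1 : (∑ v, if v ∈ s(x', y') then c v else 0) = c x' + c y' := by
      have h2 : ∀ v, (if v ∈ s(x', y') then c v else 0) =
          (if v = x' then c v else 0) + (if v = y' then c v else 0) := by
        intro v
        by_cases hx : v = x'
        · have hy : v ≠ y' := by
            rw [hx]
            exact hne'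
          rw [if_pos (Sym2.mem_iff.2 (Or.inl hx)), if_pos hx, if_neg hy, add_zero]
        · by_cases hy : v = y'
          · rw [if_pos (Sym2.mem_iff.2 (Or.inr hy)), if_neg hx, if_pos hy, zero_add]
          · rw [if_neg (fun h => (Sym2.mem_iff.1 h).elim hx hy), if_neg hx, if_neg hy, add_zero]
      rw [Finset.sum_congr rfl fun v _ => h2 v, Finset.sum_add_distrib,
        Finset.sum_ite_eq' Finset.univ x', Finset.sum_ite_eq' Finset.univ y',
        if_pos (Finset.mem_univ _), if_pos (Finset.mem_univ _)]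
    have h3 : c x' ≤ E1 + 2 * W := by
      have h4 := we_Round_lip hb (a x') A1 w r1 hA1' (by omega)
      simp only [hc, hr1]
      linarith
    have h5 : c y' ≤ E2 + 2 * W := by
      have h4 := we_Round_lip hb (a y') A2 w r2 hA2' (by omega)
      simp only [hc, hr2]
      linarith
    rw [h1]
    linarith
  have hs4 : ∑ v, (β v : ℝ) * c v ≤ b * (E1 + E2 + 4 * W) := by
    rw [hs2]
    refine (Finset.sum_le_card_nsmul B _ _ hs3).trans ?_
    rw [hcard, nsmul_eq_mul]
  have hs5 : ∑ v, (G b (a v) (r v) + (β v : ℝ) * c v / b) ≤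
      ∑ v, G b (a v) (r v) + (E1 + E2 + 4 * W) := by
    rw [Finset.sum_add_distrib, ← Finset.sum_div]
    have h1 : (∑ v, (β v : ℝ) * c v) / b ≤ E1 + E2 + 4 * W := by
      rw [div_le_iff₀ hb0]
      linarith
    linarith
  rw [hpick]
  linarith

end Pool.Agent.Helper72.WE
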