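import Pool.Agent.Helper46.WC.Graph1
import Pool.Agent.Helper92.WC.Graph2
import Pool.Agent.Helper72.WE.Round

/-!
# Project WE, module Live: one round of phase A

`Lv H Δ l U C`: the pairs of `H` which are not selected and can still be offered.

PROOF of `stepA` (`e = s(x, y) ∈ B`, `U' = U \ B`, `C' = insert e C`, `L = Lv H Δ l U C`, `L' = Lv H Δ l U' C'`).
`B ⊆ L ⊆ H ∩ U`.  Degrees: `dg C x < Δ`, `dg C y < Δ` (use `e = s(x, y) = s(y, x)`), `Sp`: `sp_insert`.
Balls and degrees grow, so `L' ⊆ L \ B`; `|H ∩ U'| = |H ∩ U| - b`, `|C'| = |C| + 1` (`e ∉ C`).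
Potential, `m ≤ k`, `r v = m - dg C v`, `a v = dgs L v`, `β v = dgs B v`: `m - dg C' v = r v - 1` for `v = x, y`
(`dg C' x = dg C x + 1`), else `r v`.  With `δ v = a v - β v - dgs L' v ≥ 0`, `G_lip`:
`G (dgs L' v) r' ≤ G (a v - β v) r' + δ v / b`, `Σ δ v = 2 (|L| - b - |L'|)`, and
`|(H ∩ U') \ L'| - |(H ∩ U) \ L| = |L| - b - |L'|`.  `round_pot` for the rest (in `hT` the values
`min (dg C x) k = r1` give `m - dg C x = m - r1`).
-/

set_option autoImplicit false

namespace Pool.Agent.Helper72.WE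

open Finset Pool.Agent.Helper72.WC

variable {n : ℕ}

/-- The number of the pairs of `E` at `v`. -/
def dgs (E : Finset (Sym2 (Fin n))) (v : Fin n) : ℕ := (E.filter fun e => v ∈ e).card

open Classical in
/-- The pairs which can still be offered. -/
noncomputable def Lv (H : Finset (Sym2 (Fin n))) (Δ l : ℕ) (U C : Finset (Sym2 (Fin n))) :
    Finset (Sym2 (Fin n)) :=
  (H ∩ U).filter fun e => ∀ x y, e = s(x, y) → dg C x < Δ ∧ y ∉ ball C l x

/-- The invariant of phase A. -/
structure InvA (k Δ l b w : ℕ) (H U C : Finset (Sym2 (Fin n))) : Prop where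
  hC : C ⊆ board n
  hU : U ⊆ board n
  hd : Disjoint C U
  hH : board n \ H ⊆ U
  hdeg : ∀ x, dg C x ≤ Δ
  hsp : Sp l C
  hcnt : b * C.card + (H ∩ U).card = H.card
  hpot : ∀ m ≤ k, ∑ v, G b (dgs (Lv H Δ l U C) v) (m - dg C v) ≤
    ∑ v, G b (dgs H v) m + 8 * (w / b) * C.card + 2 / b * ((H ∩ U) \ Lv H Δ l U C).card

theorem we_Live_mem_nb {C : Finset (Sym2 (Fin n))} {x y : Fin n} : y ∈ nb C x ↔ s(x, y) ∈ C := by
  simp [nb]

theorem we_Live_nb_mono {C C' : Finset (Sym2 (Fin n))} (h : C ⊆ C') (x : Fin n) :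
    nb C x ⊆ nb C' x := by
  intro y hy
  rw [we_Live_mem_nb] at hy ⊢
  exact h hy

theorem we_Live_dg_mono {C C' : Finset (Sym2 (Fin n))} (h : C ⊆ C') (x : Fin n) :
    dg C x ≤ dg C' x := Finset.card_le_card (we_Live_nb_mono h x)

theorem we_Live_ball_mono {C C' : Finset (Sym2 (Fin n))} (h : C ⊆ C') (i : ℕ) (x : Fin n) :
    ball C i x ⊆ ball C' i x := by
  induction i with
  | zero => exact Finset.Subset.refl _
  | succ i ih =>
    show ball C i x ∪ (ball C i x).biUnion (nb C) ⊆ ball C' i x ∪ (ball C' i x).biUnion (nb C')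
    refine Finset.union_subset_union ih ?_
    intro z hz
    rw [Finset.mem_biUnion] at hz ⊢
    obtain ⟨u, hu, hz⟩ := hz
    exact ⟨u, ih hu, we_Live_nb_mono h u hz⟩

theorem we_Live_ball_empty (i : ℕ) (x : Fin n) : ball (∅ : Finset (Sym2 (Fin n))) i x = {x} := by
  induction i with
  | zero => rfl
  | succ i ih =>
    show ball (∅ : Finset (Sym2 (Fin n))) i x ∪ (ball ∅ i x).biUnion (nb ∅) = {x}
    rw [ih]
    simp [nb]

theorem we_Live_dg_insert {C : Finset (Sym2 (Fin n))} {x y : Fin n} (he : s(x, y) ∉ C) :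
    dg (insert s(x, y) C) x = dg C x + 1 := by
  have h1 : nb (insert s(x, y) C) x = insert y (nb C x) := by
    ext z
    rw [we_Live_mem_nb, Finset.mem_insert, Finset.mem_insert, we_Live_mem_nb]
    constructor
    · rintro (h | h)
      · left
        exact Sym2.congr_right.1 h
      · exact Or.inr h
    · rintro (rfl | h)
      · exact Or.inl rfl
      · exact Or.inr h
  have h2 : y ∉ nb C x := fun h => he (we_Live_mem_nb.1 h)
  rw [dg, h1, Finset.card_insert_of_notMem h2, dg]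

theorem we_Live_dg_other {C : Finset (Sym2 (Fin n))} {x y v : Fin n} (hx : v ≠ x) (hy : v ≠ y) :
    dg (insert s(x, y) C) v = dg C v := by
  have h1 : nb (insert s(x, y) C) v = nb C v := by
    ext z
    rw [we_Live_mem_nb, Finset.mem_insert, we_Live_mem_nb]
    constructor
    · rintro (h | h)
      · exfalso
        rcases Sym2.eq_iff.1 h with ⟨h1, -⟩ | ⟨h1, -⟩
        · exact hx h1
        · exact hy h1
      · exact h
    · exact Or.inr
  rw [dg, h1, dg]

theorem we_Live_sum (E : Finset (Sym2 (Fin n))) (hE : E ⊆ board n) :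
    ∑ v, dgs E v = 2 * E.card := by
  have h1 : ∑ v, dgs E v = ∑ e ∈ E, (Finset.univ.filter fun v : Fin n => v ∈ e).card := by
    unfold dgs
    simp only [Finset.card_filter]
    exact Finset.sum_comm
  rw [h1, Finset.sum_const_nat (m := 2), mul_comm]
  intro e he
  have h2 : (Finset.univ.filter fun v : Fin n => v ∈ e) = e.toFinset := by
    ext v
    simp
  rw [h2]
  apply Sym2.card_toFinset_of_not_isDiag
  have := hE he
  simpa [board] using this

theorem we_Live_sub (H : Finset (Sym2 (Fin n))) (Δ l : ℕ) (U C : Finset (Sym2 (Fin n))) :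
    Lv H Δ l U C ⊆ H ∩ U := by
  classical
  exact Finset.filter_subset _ _

theorem we_Live_mem {H : Finset (Sym2 (Fin n))} {Δ l : ℕ} {U C : Finset (Sym2 (Fin n))}
    {e : Sym2 (Fin n)} : e ∈ Lv H Δ l U C ↔
      e ∈ H ∩ U ∧ ∀ x y, e = s(x, y) → dg C x < Δ ∧ y ∉ ball C l x := by
  classical
  exact Finset.mem_filter

theorem we_Live_anti {H : Finset (Sym2 (Fin n))} {Δ l : ℕ} {U C B C' : Finset (Sym2 (Fin n))}
    (h : C ⊆ C') : Lv H Δ l (U \ B) C' ⊆ Lv H Δ l U C \ B := by
  intro e he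
  rw [we_Live_mem] at he
  rw [Finset.mem_sdiff, we_Live_mem]
  obtain ⟨h1, h2⟩ := he
  rw [Finset.mem_inter, Finset.mem_sdiff] at h1
  refine ⟨⟨Finset.mem_inter.2 ⟨h1.1, h1.2.1⟩, fun x y hxy => ?_⟩, h1.2.2⟩
  obtain ⟨h3, h4⟩ := h2 x y hxy
  exact ⟨lt_of_le_of_lt (we_Live_dg_mono h x) h3, fun h5 => h4 (we_Live_ball_mono h l x h5)⟩

theorem we_Live_dgs_mono {E E' : Finset (Sym2 (Fin n))} (h : E ⊆ E') (v : Fin n) :
    dgs E v ≤ dgs E' v := Finset.card_le_card (Finset.filter_subset_filter _ h)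

theorem we_Live_dgs_sdiff {E E' : Finset (Sym2 (Fin n))} (h : E' ⊆ E) (v : Fin n) :
    dgs (E \ E') v + dgs E' v = dgs E v := by
  unfold dgs
  rw [← Finset.card_union_of_disjoint]
  · rw [← Finset.filter_union, Finset.sdiff_union_of_subset h]
  · exact Finset.disjoint_filter_filter Finset.sdiff_disjoint

theorem startA {k Δ l b w : ℕ} {H : Finset (Sym2 (Fin n))} (hH : H ⊆ board n) (hΔ : 0 < Δ) :
    InvA k Δ l b w H (board n) ∅ := by
  have hL : Lv H Δ l (board n) ∅ = H := by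
    apply Finset.Subset.antisymm ((we_Live_sub _ _ _ _ _).trans Finset.inter_subset_left)
    intro e he
    rw [we_Live_mem]
    refine ⟨Finset.mem_inter.2 ⟨he, hH he⟩, fun x y hxy => ⟨?_, ?_⟩⟩
    · simpa [dg, nb] using hΔ
    · rw [we_Live_ball_empty, Finset.mem_singleton]
      rintro rfl
      have h1 := hH he
      rw [hxy] at h1
      simp [board] at h1
  have hHU : H ∩ board n = H := Finset.inter_eq_left.2 hH
  refine ⟨Finset.empty_subset _, Finset.Subset.refl _, Finset.disjoint_empty_left _,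
    Finset.sdiff_subset, fun x => ?_, fun W hW _ => ?_, ?_, fun m _ => ?_⟩
  · simp [dg, nb]
  · simpa using hW.card_pos
  · rw [hHU]
    simp
  · rw [hL, hHU, Finset.sdiff_self]
    have h1 : ∀ v : Fin n, dg (∅ : Finset (Sym2 (Fin n))) v = 0 := by
      intro v
      simp [dg, nb]
    simp [h1]

theorem stepA {k Δ l b w : ℕ} {H U C B : Finset (Sym2 (Fin n))} (hb : 0 < b)
    (hH : H ⊆ board n) (h : InvA k Δ l b w H U C) (hB : B ⊆ Lv H Δ l U C) (hcard : B.card = b)
    (hβ : ∀ v, dgs B v ≤ w) {r1 r2 A1 A2 : ℕ}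
    (hT : ∀ e ∈ B, ∃ x y, e = s(x, y) ∧
      (min (dg C x) k = r1 ∧ A1 ≤ dgs (Lv H Δ l U C) x ∧ dgs (Lv H Δ l U C) x ≤ A1 + w) ∧
      (min (dg C y) k = r2 ∧ A2 ≤ dgs (Lv H Δ l U C) y ∧ dgs (Lv H Δ l U C) y ≤ A2 + w)) :
    ∀ e ∈ B, InvA k Δ l b w H (U \ B) (insert e C) := by
  intro e he
  obtain ⟨L, hL⟩ : ∃ L, L = Lv H Δ l U C := ⟨_, rfl⟩
  rw [← hL] at hB
  have hLs : L ⊆ H ∩ U := hL ▸ we_Live_sub H Δ l U C
  have hBH : B ⊆ H := (hB.trans hLs).trans Finset.inter_subset_left
  have hBU : B ⊆ U := (hB.trans hLs).trans Finset.inter_subset_right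
  have hBb : B ⊆ board n := hBH.trans hH
  have heC : e ∉ C := fun h1 => (Finset.disjoint_left.1 h.hd) h1 (hBU he)
  obtain ⟨x, y, hexy, -, -⟩ := hT e he
  have hmem := (we_Live_mem.1 (hL ▸ hB he)).2
  obtain ⟨hdx, hby⟩ := hmem x y hexy
  obtain ⟨hdy, -⟩ := hmem y x (hexy.trans Sym2.eq_swap)
  have hxy : x ≠ y := by
    rintro rfl
    have h1 := hBb he
    rw [hexy] at h1
    simp [board] at h1
  have hsub : C ⊆ insert e C := Finset.subset_insert _ _
  have hdgx : dg (insert e C) x = dg C x + 1 := by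
    subst hexy
    exact we_Live_dg_insert heC
  have hdgy : dg (insert e C) y = dg C y + 1 := by
    have h1 : e = s(y, x) := hexy.trans Sym2.eq_swap
    rw [h1] at heC ⊢
    exact we_Live_dg_insert heC
  have hdgo : ∀ v, v ≠ x → v ≠ y → dg (insert e C) v = dg C v := by
    intro v h1 h2
    subst hexy
    exact we_Live_dg_other h1 h2
  obtain ⟨L', hL'⟩ : ∃ L', L' = Lv H Δ l (U \ B) (insert e C) := ⟨_, rfl⟩
  have hLL : L' ⊆ L \ B := by
    rw [hL', hL]
    exact we_Live_anti hsub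
  have hHU : H ∩ (U \ B) = (H ∩ U) \ B := by
    ext z
    simp only [Finset.mem_inter, Finset.mem_sdiff]
    tauto
  refine ⟨?_, ?_, ?_, ?_, ?_, ?_, ?_, ?_⟩
  · exact Finset.insert_subset (hBb he) h.hC
  · exact Finset.sdiff_subset.trans h.hU
  · rw [Finset.disjoint_insert_left]
    exact ⟨fun h1 => (Finset.mem_sdiff.1 h1).2 he, h.hd.mono_right Finset.sdiff_subset⟩
  · intro z hz
    have h1 := Finset.mem_sdiff.1 hz
    exact Finset.mem_sdiff.2 ⟨h.hH hz, fun h2 => h1.2 (hBH h2)⟩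
  · intro v
    by_cases h1 : v = x
    · rw [h1, hdgx]
      omega
    · by_cases h2 : v = y
      · rw [h2, hdgy]
        omega
      · rw [hdgo v h1 h2]
        exact h.hdeg v
  · rw [hexy]
    exact sp_insert h.hC h.hsp hby
  · rw [hHU, Finset.card_insert_of_notMem heC]
    have h1 := Finset.card_sdiff_add_card_eq_card (hB.trans hLs)
    have h2 := h.hcnt
    rw [hcard] at h1
    have h3 : b * (C.card + 1) = b * C.card + b := by ring
    rw [h3]
    omega
  · intro m hm
    have hpot := h.hpot m hm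
    rw [← hL] at hpot
    rw [← hL']
    have hb' : (0 : ℝ) < b := by exact_mod_cast hb
    -- the new rests
    have hr : ∀ v, m - dg (insert e C) v =
        if v = x ∨ v = y then m - dg C v - 1 else m - dg C v := by
      intro v
      by_cases h1 : v = x
      · rw [if_pos (Or.inl h1), h1, hdgx]
        omega
      · by_cases h2 : v = y
        · rw [if_pos (Or.inr h2), h2, hdgy]
          omega
        · rw [if_neg (by tauto), hdgo v h1 h2]
    have hround := round_pot (V := Fin n) (w := w) hb (fun v => m - dg C v) (dgs L) (dgs B) B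
      (fun e he => by simpa [board] using hBb he) hcard (fun v => rfl) hβ
      (fun v => we_Live_dgs_mono hB v) (r1 := m - r1) (r2 := m - r2) (A1 := A1) (A2 := A2)
      (fun e he => by
        obtain ⟨x', y', h1, ⟨h2, h3, h4⟩, h5, h6, h7⟩ := hT e he
        rw [← hL] at h3 h4 h6 h7
        exact ⟨x', y', h1, ⟨by omega, h3, h4⟩, by omega, h6, h7⟩)
      (x := x) (y := y) (hexy ▸ he)
    have hstep : ∑ v, G b (dgs L' v) (m - dg (insert e C) v) ≤
        ∑ v, (G b (dgs L v - dgs B v) (if v = x ∨ v = y then m - dg C v - 1 else m - dg C v) +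
          (dgs ((L \ B) \ L') v : ℝ) / b) := by
      refine Finset.sum_le_sum fun v _ => ?_
      rw [hr v]
      have h1 := we_Live_dgs_sdiff hLL v
      have h2 := we_Live_dgs_sdiff hB v
      have h3 : dgs L v - dgs B v = dgs L' v + dgs ((L \ B) \ L') v := by omega
      rw [h3]
      exact G_lip hb _ _ _
    have hsum : ∑ v, (dgs ((L \ B) \ L') v : ℝ) / b = 2 / b * (((L \ B) \ L').card : ℝ) := by
      rw [← Finset.sum_div]
      have h1 := we_Live_sum ((L \ B) \ L') ((Finset.sdiff_subset.trans Finset.sdiff_subset).trans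
        ((hLs.trans Finset.inter_subset_left).trans hH))
      have h2 : ∑ v, (dgs ((L \ B) \ L') v : ℝ) = 2 * (((L \ B) \ L').card : ℝ) := by
        exact_mod_cast h1
      rw [h2]
      ring
    have hcd : ((H ∩ (U \ B)) \ L').card = ((H ∩ U) \ L).card + ((L \ B) \ L').card := by
      have h1 : (H ∩ (U \ B)) \ L' = ((H ∩ U) \ L) ∪ ((L \ B) \ L') := by
        rw [hHU]
        ext z
        have e1 : z ∈ L → z ∈ H ∩ U := fun h => hLs h
        have e2 : z ∈ L' → z ∈ L ∧ z ∉ B := fun h => Finset.mem_sdiff.1 (hLL h)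
        have e3 : z ∈ B → z ∈ L := fun h => hB h
        rw [Finset.mem_union]
        simp only [Finset.mem_sdiff]
        tauto
      rw [h1, Finset.card_union_of_disjoint]
      rw [Finset.disjoint_left]
      intro z hz hz'
      exact (Finset.mem_sdiff.1 hz).2 (Finset.mem_sdiff.1 (Finset.mem_sdiff.1 hz').1).1
    rw [Finset.sum_add_distrib, hsum] at hstep
    rw [hcd, Finset.card_insert_of_notMem heC]
    push_cast
    have hexp : 8 * ((w : ℝ) / b) * ((C.card : ℝ) + 1) = 8 * ((w : ℝ) / b) * C.card +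
      8 * ((w : ℝ) / b) := by ring
    have hexp2 : 2 / (b : ℝ) * ((((H ∩ U) \ L).card : ℝ) + (((L \ B) \ L').card : ℝ)) =
      2 / (b : ℝ) * (((H ∩ U) \ L).card : ℝ) + 2 / (b : ℝ) * (((L \ B) \ L').card : ℝ) := by ring
    rw [hexp, hexp2]
    linarith

end Pool.Agent.Helper72.WE
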