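import Pool.Agent.Helper72.WD.Main
import Pool.Agent.Helper72.WE.Final

/-!
# Project WE, module Sharp: the second order term with small reserve

`main_stage2` of `Helper72/WD/Main.lean` with an arbitrarily small set of reserved pairs, and the
clusters of size `M` of `Helper72/WE/Clus.lean`.
-/

set_option autoImplicit false

namespace Pool.Agent.Helper72.WE

open Finset Pool.Agent.Helper72.WC

/-- The main stage can be done with every bias close to `n / c`. -/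
def MainC (k : ℕ) (c : ℝ) : Prop :=
  ∃ δ : ℝ, 0 < δ ∧ δ ≤ 1 / 4 ∧ ∃ L0 : ℕ, ∀ L ≥ L0, ∃ Δ : ℕ, k ≤ Δ ∧ ∀ l : ℕ, ∃ n0 : ℕ,
    ∀ n ≥ n0, ∀ b : ℕ, (c - δ) * b ≤ n → (n : ℝ) ≤ c * b →
    Force b (fun U C => C ⊆ board n ∧ U ⊆ board n ∧ Disjoint C U ∧
      (∀ x y : Fin n, x ≠ y → (relA L x y ∨ relB L x y) → s(x, y) ∈ U) ∧
      (∀ x, k ≤ dg C x) ∧ (∀ x, dg C x ≤ Δ) ∧ Sp l C) (board n) ∅

theorem lower_of_main {k : ℕ} (hk : 2 ≤ k) {c : ℝ} (hc : 2 ≤ c) (hmain : MainC k c) :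
    ∃ n0 : ℕ, ∀ n ≥ n0, (n : ℝ) / c ≤ qC k n := by
  obtain ⟨δ, hδ, hδ1, L0, hL0⟩ := hmain
  obtain ⟨Δ, hkΔ, hΔ⟩ := hL0 (L0 + 20) (by omega)
  set L := L0 + 20 with hL
  set M := 32 * k * L ^ 2 with hM
  set K0 := (Δ + 1) ^ (2 * M) with hK0
  set l := M + (k - 1) * K0 + k with hl
  obtain ⟨n0, hn0⟩ := hΔ l
  have hcδ : 0 < c - δ := by linarith
  have hc0 : 0 < c := by linarith
  obtain ⟨n1, hn1⟩ := exists_nat_gt (2 * c * (c - δ) / δ)
  refine ⟨n0 + n1 + 3 * L * (k + 1 + k * K0 * (K0 + 1) ^ L) + 6 * k * L + k + 2, fun n hn => ?_⟩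
  set b : ℕ := ⌊(n : ℝ) / (c - δ)⌋₊ with hb
  have hn1' : (n1 : ℝ) ≤ n := by exact_mod_cast (by omega : n1 ≤ n)
  have h1 : 2 * c * (c - δ) / δ ≤ n := hn1.le.trans hn1'
  rw [div_le_iff₀ hδ] at h1
  have hb1 : (b : ℝ) ≤ n / (c - δ) := Nat.floor_le (by positivity)
  have hb2 : (n : ℝ) / (c - δ) < b + 1 := Nat.lt_floor_add_one _
  rw [le_div_iff₀ hcδ] at hb1
  rw [div_lt_iff₀ hcδ] at hb2
  have h2 : (n : ℝ) ≤ c * (b - 1) := by
    have h3 : (c - δ) * n ≤ (c - δ) * (c * (b - 1)) := by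
      have h4 : c * n < c * ((b + 1) * (c - δ)) := mul_lt_mul_of_pos_left hb2 (by linarith)
      nlinarith
    exact le_of_mul_le_mul_left h3 hcδ
  have hn0' : (0 : ℝ) < n := by exact_mod_cast (by omega : 0 < n)
  have hb3 : 1 < b := by
    have : (0 : ℝ) < b - 1 := by
      by_contra h
      rw [not_lt] at h
      nlinarith
    have h5 : (1 : ℝ) < b := by linarith
    exact_mod_cast h5
  have hbpos : 0 < b := by omega
  have hbpos' : (0 : ℝ) < b := by exact_mod_cast hbpos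
  have hbn : b ≤ n := by
    have : (b : ℝ) ≤ n := by nlinarith
    exact_mod_cast this
  have hwin : Win b (fun C => KConn k (gr C)) (board n) ∅ := by
    refine Force.win hbpos (fun C C' h => KConn.mono h) ((hn0 n (by omega) b
      (by linarith [mul_comm (b : ℝ) (c - δ)]) (by nlinarith)).trans ?_)
    rintro U1 C1 ⟨hC1, hU1, _, hres, hlo, hup, hsp⟩
    exact after_main hk (by omega) hM hK0 hl hbpos hbn (by omega) (by omega) (by omega) hC1 hres
      hlo hup hsp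
  obtain ⟨q, hq⟩ : ∃ q, b = q + 1 := ⟨b - 1, by omega⟩
  rw [hq] at hwin
  have h9 : q ≤ qC k n :=
    le_csSup ((bdd_D (by omega) (by omega)).mono sub_CD) ⟨by omega, hwin⟩
  refine le_trans ?_ (Nat.cast_le.2 h9)
  rw [hq] at h2
  push_cast at h2
  rw [div_le_iff₀ hc0]
  linarith

/-- The main stage of project WD with a small reserve. -/
theorem mainS {k : ℕ} {c : ℝ} (hc : 65 ≤ c) (hck : (k : ℝ) + 44 + √(14 * c) < c) :
    MainC k c := by
  classical
  have hk0 : (0 : ℝ) ≤ k := Nat.cast_nonneg k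
  have hc0 : 0 < c := by linarith
  set η : ℝ := c - (k + 44 + √(14 * c)) with hη
  have hη0 : 0 < η := by linarith
  refine ⟨min (η / 4) (1 / 4), lt_min (by positivity) (by norm_num), min_le_right _ _, ?_⟩
  set δ : ℝ := min (η / 4) (1 / 4) with hδ
  have hδpos : 0 < δ := lt_min (by positivity) (by norm_num)
  have hδ2 : δ ≤ η / 4 := min_le_left _ _
  have hδ3 : δ ≤ 1 / 4 := min_le_right _ _
  obtain ⟨L1, hL1⟩ := exists_nat_gt (16 * c / η)
  set K : ℕ := ⌈3 * c⌉₊ with hK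
  have hK1 : 3 * c ≤ K := Nat.le_ceil _
  have hK2 : (K : ℝ) < 3 * c + 1 := Nat.ceil_lt_add_one (by positivity)
  set Δ : ℕ := K + ⌊c⌋₊ + 1 with hΔ
  have hkK : k ≤ K := by
    have : (k : ℝ) ≤ K := by
      have := Real.sqrt_nonneg (14 * c)
      linarith
    exact_mod_cast this
  refine ⟨L1 + 1, fun L hL => ⟨Δ, by omega, fun l => ?_⟩⟩
  have : NeZero L := ⟨by omega⟩
  obtain ⟨n1, hn1⟩ := exists_nat_gt (c * ((Δ + 1 : ℕ) : ℝ) ^ l)
  obtain ⟨n2, hn2⟩ := exists_nat_gt (c * (28 / η))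
  obtain ⟨n3, hn3⟩ := exists_nat_gt (c * 2)
  refine ⟨n1 + n2 + n3 + 1, fun n hn b hb1 hb2 => ?_⟩
  have hn0 : 0 < n := by omega
  have hn0' : (0 : ℝ) < n := by exact_mod_cast hn0
  have hβ : (Δ + 1) ^ l ≤ b := by
    have h1 : (n1 : ℝ) ≤ n := by exact_mod_cast (by omega : n1 ≤ n)
    have h2 : (((Δ + 1 : ℕ) : ℝ)) ^ l ≤ b :=
      le_of_mul_le_mul_left (hn1.le.trans (h1.trans hb2)) hc0
    exact_mod_cast h2
  have hbη : 28 / η ≤ (b : ℝ) := by
    have h1 : (n2 : ℝ) ≤ n := by exact_mod_cast (by omega : n2 ≤ n)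
    exact le_of_mul_le_mul_left (hn2.le.trans (h1.trans hb2)) hc0
  have hb2' : 2 ≤ b := by
    have h1 : (n3 : ℝ) ≤ n := by exact_mod_cast (by omega : n3 ≤ n)
    have h2 : (2 : ℝ) ≤ b := le_of_mul_le_mul_left (hn3.le.trans (h1.trans hb2)) hc0
    exact_mod_cast h2
  have hbpos : 0 < b := by omega
  have hbpos' : (0 : ℝ) < b := by exact_mod_cast hbpos
  have h64 : 64 * b ≤ n := by
    have : (64 : ℝ) * b ≤ n := by nlinarith
    exact_mod_cast this
  have hK3 : 3 * n ≤ b * K := by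
    have : (3 : ℝ) * n ≤ b * K := by nlinarith
    exact_mod_cast this
  have hK4 : b * K ≤ 6 * n := by
    have : (b : ℝ) * K ≤ 6 * n := by nlinarith
    exact_mod_cast this
  have hnb : n / b ≤ ⌊c⌋₊ := by
    refine Nat.le_floor ?_
    refine Nat.cast_div_le.trans ?_
    rw [div_le_iff₀ hbpos']
    exact hb2
  set a : ℕ := ⌈√(14 * b * n : ℝ)⌉₊ with ha
  have ha1 : √(14 * b * n : ℝ) ≤ a := Nat.le_ceil _
  have ha2 : (a : ℝ) < √(14 * b * n : ℝ) + 1 := Nat.ceil_lt_add_one (Real.sqrt_nonneg _)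
  have ha3 : 14 * b * n ≤ a ^ 2 := by
    have h1 : (14 * b * n : ℝ) ≤ (a : ℝ) ^ 2 := by
      calc (14 * b * n : ℝ) = √(14 * b * n : ℝ) ^ 2 := (Real.sq_sqrt (by positivity)).symm
        _ ≤ (a : ℝ) ^ 2 := pow_le_pow_left₀ (Real.sqrt_nonneg _) ha1 2
    exact_mod_cast h1
  have ha4 : √(14 * b * n : ℝ) ≤ b * √(14 * c) := by
    rw [Real.sqrt_le_left (by positivity), mul_pow, Real.sq_sqrt (by positivity)]
    nlinarith
  have hnum : b * (k + 44) + 4 * (n / L + 1) + a + 1 ≤ n := by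
    have h1 : ((n / L : ℕ) : ℝ) ≤ n / L := Nat.cast_div_le
    have h2 : (16 * c / η : ℝ) ≤ L := hL1.le.trans (by exact_mod_cast (by omega : L1 ≤ L))
    have hL0 : (0 : ℝ) < L := lt_of_lt_of_le (by positivity) h2
    rw [div_le_iff₀ hη0] at h2
    have h4 : (n : ℝ) / L ≤ η * b / 16 := by
      rw [div_le_iff₀ hL0]
      have : 16 * c * b ≤ L * η * b := mul_le_mul_of_nonneg_right h2 hbpos'.le
      nlinarith
    rw [div_le_iff₀ hη0] at hbη
    have h5 : δ * b ≤ η / 4 * b := mul_le_mul_of_nonneg_right hδ2 hbpos'.le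
    have h6 : (b : ℝ) * (k + 44) + b * √(14 * c) = b * (c - η) := by
      rw [hη]
      ring
    have h7 : ((b * (k + 44) + 4 * (n / L + 1) + a + 1 : ℕ) : ℝ) ≤ n := by
      push_cast
      nlinarith
    exact_mod_cast h7
  refine (WD.main_stage2 (n := n) (a := a) (b := b) (k := k) (K := K) (Δ := Δ) (l := l)
    (r0 := 4 * (n / L + 1)) (ρ := fun x y => relA L x y ∨ relB L x y) ?_
    (fun x => card_rel x) hb2' h64 hK3 hK4 hkK (by omega) hβ ha3 hnum)
  rintro x y (h | h)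
  · exact Or.inl h.symm
  · exact Or.inr h.symm

/-- The second order term. -/
theorem lower_four {k : ℕ} (hk : 2 ≤ k) : ∃ n0 : ℕ, ∀ n ≥ n0,
    (n : ℝ) / (k + 4 * √(k : ℝ) + 56) ≤ qC k n := by
  have hk' : (0 : ℝ) < k := by exact_mod_cast (by omega : 0 < k)
  have h1 : √(k : ℝ) * √(k : ℝ) = k := Real.mul_self_sqrt hk'.le
  have h3 : 0 ≤ √(k : ℝ) := Real.sqrt_nonneg _
  by_cases h : 121 ≤ k
  · have h2 : 11 ≤ √(k : ℝ) := by
      rw [Real.le_sqrt' (by norm_num)]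
      have : (121 : ℝ) ≤ k := by exact_mod_cast h
      linarith
    refine lower_of_main hk (by nlinarith) (mainS (by nlinarith) ?_)
    have h4 : √(14 * (k + 4 * √(k : ℝ) + 56)) < 4 * √(k : ℝ) + 12 := by
      rw [Real.sqrt_lt' (by linarith)]
      nlinarith
    linarith
  · obtain ⟨n0, hn0⟩ := lower_all hk
    refine ⟨n0, fun n hn => le_trans ?_ (hn0 n hn)⟩
    have h2 : √(k : ℝ) ≤ 11 := by
      rw [Real.sqrt_le_left (by norm_num)]
      have : (k : ℝ) < 121 := by exact_mod_cast (by omega : k < 121)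
      linarith
    have h4 : (0 : ℝ) ≤ n := Nat.cast_nonneg n
    rw [div_le_div_iff₀ (by positivity) (by positivity)]
    have h5 : (7 : ℝ) * k ≤ 4 * (k + 4 * √(k : ℝ) + 56) := by nlinarith
    calc (n : ℝ) * (7 * k) ≤ n * (4 * (k + 4 * √(k : ℝ) + 56)) :=
          mul_le_mul_of_nonneg_left h5 h4
      _ = _ := by ring

end Pool.Agent.Helper72.WE
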